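import Pool.Agent.Lib.MP_2b3e36_an.Nu.G4

/-!
G6. The limits at the upper arc: `0` for `b ≤ 0`, `1` for `b = 1`.

`ζ`, `‖ζ‖ = 1`, `Im ζ > 0`: `mob ζ` is real (`mob_im`) and negative (`mob_re`), `x₀ = mob ζ/T < 0` is in `Gx`,
`Zm T` is continuous at `ζ`, `N₀ = joN x₀` real (`Zx_real`), `0 < N₀ < 1` (`N₀ - 1/N₀ = 2 x₀ < 0`), so
`Z₀ = cos (π N₀/2) ∈ (0, 1)`. `b ≤ 0`: `Z₀ - b > 0`, `arg` is continuous there, value `0`. `b = 1`: `Z₀ - 1 < 0`
and `Im (Zm T q) < 0` on `V`: `arg → -π` (`Complex.tendsto_arg_nhdsWithin_im_neg_of_re_neg_of_im_zero`).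
-/

set_option autoImplicit false

open Complex Set Filter Topology Metric

namespace Pool.Agent.Choc.Nu

theorem G6_base {T : ℝ} (hT : 119 / 100 ≤ T) {ζ : ℂ} (hζ : ζ ∈ upperArc) :
    ContinuousAt (Zm T) ζ ∧ ∃ Z : ℝ, 0 < Z ∧ Z < 1 ∧ Zm T ζ = (Z : ℂ) := by
  have hT0 : 0 < T := lt_of_lt_of_le (by norm_num) hT
  have hne : ζ ≠ 1 := by
    intro h
    have h1 := hζ.2
    rw [h, Complex.one_im] at h1
    exact lt_irrefl _ h1
  have hns : 0 < normSq (1 - ζ) := Complex.normSq_pos.2 (sub_ne_zero.2 (Ne.symm hne))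
  have him : (mob ζ / T).im = 0 := by
    rw [Complex.div_ofReal_im, mob_im, hζ.1]
    norm_num
  have hre : (mob ζ / T).re < 0 := by
    rw [Complex.div_ofReal_re, mob_re]
    refine div_neg_of_neg_of_pos (div_neg_of_neg_of_pos ?_ hns) hT0
    have := hζ.2
    linarith
  have hx : mob ζ / T ∈ Gx := Or.inl hre.ne
  obtain ⟨hN, hZ⟩ := Zx_real hx him
  have hu := joN_re hx
  have hb := joN_bound hx
  have hu1 : (joN (mob ζ / T)).re < 1 := by
    by_contra hge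
    have hge' := not_lt.1 hge
    have h1 : 1 / (joN (mob ζ / T)).re ≤ 1 := by
      rw [div_le_one hu]
      exact hge'
    linarith
  have hpi := Real.pi_pos
  refine ⟨?_, Real.cos (Real.pi / 2 * (joN (mob ζ / T)).re), ?_, ?_, hZ⟩
  · have h1 : ContinuousAt Zx (mob ζ / T) :=
      (Zx_diff.differentiableAt (g1_open.mem_nhds hx)).continuousAt
    have h2 : ContinuousAt (fun q => mob q / (T : ℂ)) ζ :=
      (mob_diffAt hne).continuousAt.div_const _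
    exact ContinuousAt.comp (f := fun q => mob q / (T : ℂ)) (g := Zx) h1 h2
  · refine Real.cos_pos_of_mem_Ioo ⟨?_, ?_⟩
    · have : 0 < Real.pi / 2 * (joN (mob ζ / T)).re := by positivity
      linarith
    · calc Real.pi / 2 * (joN (mob ζ / T)).re < Real.pi / 2 * 1 :=
            mul_lt_mul_of_pos_left hu1 (by positivity)
        _ = Real.pi / 2 := mul_one _
  · have h1 : Real.cos (Real.pi / 2 * (joN (mob ζ / T)).re) < Real.cos 0 := by
      refine Real.cos_lt_cos_of_nonneg_of_le_pi_div_two le_rfl ?_ (by positivity)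
      calc Real.pi / 2 * (joN (mob ζ / T)).re ≤ Real.pi / 2 * 1 :=
            mul_le_mul_of_nonneg_left hu1.le (by positivity)
        _ = Real.pi / 2 := mul_one _
    rwa [Real.cos_zero] at h1

theorem lim_arc {T : ℝ} (hT : 119 / 100 ≤ T) {b : ℝ} (hb : b ≤ 0) {ζ : ℂ} (hζ : ζ ∈ upperArc) :
    Tendsto (fun q => Lb b (Zm T q)) (𝓝[V (yT T)] ζ) (𝓝 0) := by
  obtain ⟨hc, Z, h0, h1, hZ⟩ := G6_base hT hζ
  have hpos : 0 < Z - b := by linarith
  have h2 : Zm T ζ - b = ((Z - b : ℝ) : ℂ) := by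
    rw [hZ]
    push_cast
    rfl
  have h3 : ContinuousAt arg (Zm T ζ - b) := by
    refine Complex.continuousAt_arg ?_
    rw [h2]
    exact Complex.ofReal_mem_slitPlane.2 hpos
  have h4 : ContinuousAt (fun q => Zm T q - (b : ℂ)) ζ := hc.sub continuousAt_const
  have h5 : ContinuousAt (fun q => arg (Zm T q - (b : ℂ))) ζ :=
    ContinuousAt.comp (f := fun q => Zm T q - (b : ℂ)) (g := arg) h3 h4
  have h6 : ContinuousAt (fun q => Lb b (Zm T q)) ζ := (h5.neg).div_const _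
  have h7 : Lb b (Zm T ζ) = 0 := by
    unfold Lb
    rw [h2, Complex.arg_ofReal_of_nonneg hpos.le, neg_zero, zero_div]
  have h8 : Tendsto (fun q => Lb b (Zm T q)) (𝓝 ζ) (𝓝 0) := by
    have h9 := h6.tendsto
    rwa [h7] at h9
  exact h8.mono_left nhdsWithin_le_nhds

theorem lim_arc_one {T : ℝ} (hT : 119 / 100 ≤ T) {ζ : ℂ} (hζ : ζ ∈ upperArc) :
    Tendsto (fun q => Lb 1 (Zm T q)) (𝓝[V (yT T)] ζ) (𝓝 1) := by
  obtain ⟨hc, Z, h0, h1, hZ⟩ := G6_base hT hζ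
  have h2 : Zm T ζ - (1 : ℝ) = ((Z - 1 : ℝ) : ℂ) := by
    rw [hZ]
    push_cast
    rfl
  have h4 : ContinuousAt (fun q => Zm T q - ((1 : ℝ) : ℂ)) ζ := hc.sub continuousAt_const
  have h5 : Tendsto (fun q => Zm T q - ((1 : ℝ) : ℂ)) (𝓝[V (yT T)] ζ)
      (𝓝[{z : ℂ | z.im < 0}] (Zm T ζ - ((1 : ℝ) : ℂ))) := by
    rw [tendsto_nhdsWithin_iff]
    refine ⟨h4.tendsto.mono_left nhdsWithin_le_nhds, ?_⟩
    filter_upwards [self_mem_nhdsWithin] with q hq
    have h6 := Zm_im hT hq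
    change (Zm T q - ((1 : ℝ) : ℂ)).im < 0
    rw [Complex.sub_im, Complex.ofReal_im, sub_zero]
    exact h6
  have h7 : Tendsto arg (𝓝[{z : ℂ | z.im < 0}] (Zm T ζ - ((1 : ℝ) : ℂ))) (𝓝 (-Real.pi)) := by
    refine Complex.tendsto_arg_nhdsWithin_im_neg_of_re_neg_of_im_zero ?_ ?_
    · rw [h2, Complex.ofReal_re]
      linarith
    · rw [h2, Complex.ofReal_im]
  have h8 : Tendsto (fun q => arg (Zm T q - ((1 : ℝ) : ℂ))) (𝓝[V (yT T)] ζ) (𝓝 (-Real.pi)) :=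
    h7.comp h5
  have h9 : Tendsto (fun q => -arg (Zm T q - ((1 : ℝ) : ℂ)) / Real.pi) (𝓝[V (yT T)] ζ)
      (𝓝 (- -Real.pi / Real.pi)) := h8.neg.div_const _
  have h10 : - -Real.pi / Real.pi = 1 := by
    rw [neg_neg, div_self Real.pi_ne_zero]
  rw [h10] at h9
  exact h9

end Pool.Agent.Choc.Nu
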