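import Pool.Agent.Lib.MP_2b3e36_an.Nu.Defs

/-!
G2. Formulas for `mob` and the region lemma.

`mob q = I (1+q)/(1-q)`: real part `-2 Im q/|1-q|^2`, imaginary part `(1-|q|^2)/|1-q|^2`.
With `q = nome τ = exp (π i τ)`, `α = π Re τ`, `b = π Im τ`: multiply numerator and denominator by
`exp (- π i τ/2)`: `mob q = - cos (π τ/2)/ sin (π τ/2)`, real part `- sin α/(cosh b - cos α)`, imaginary part
`sinh b/(cosh b - cos α)` (or compute directly: `|q| = e^{-b}`, `q = e^{-b} (cos α + i sin α)`,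
`|1-q|^2 = 1 - 2 e^{-b} cos α + e^{-2b} = 2 e^{-b} (cosh b - cos α)`).
Region lemma: put `a = - π Re τ ∈ (0, 2π)`, `b = π Im τ`; `Re (-1/τ) = π a/(a^2+b^2)`, so the claim follows from
`sin a/(cosh b - cos a) ≤ 2a/(a^2+b^2)`. For `a ≥ π` the left side is `≤ 0`. For `a < π`:
`(a^2+b^2) sin a ≤ 2a (cosh b - cos a)`: `cosh b ≥ 1 + b^2/2` (`Real.one_add_sq_div_two_le_cosh` or
`Real.cosh_sq`..), `sin a ≤ a`, and `a sin a ≤ 2 (1 - cos a)`, i.e. `a cos (a/2) ≤ 2 sin (a/2)`
(`Real.lt_tan` for `a/2 < π/2`).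
-/

set_option autoImplicit false

open Complex Set Filter Topology Metric

namespace Pool.Agent.Choc.Nu

theorem g2_sq (q : ℂ) : normSq (1 - q) = (1 - q.re) ^ 2 + q.im ^ 2 := by
  rw [Complex.normSq_apply]
  simp only [Complex.sub_re, Complex.one_re, Complex.sub_im, Complex.one_im]
  ring

theorem g2_zero {q : ℂ} (h : normSq (1 - q) = 0) : 1 - q = 0 := Complex.normSq_eq_zero.1 h

theorem mob_re (q : ℂ) : (mob q).re = -2 * q.im / normSq (1 - q) := by
  unfold mob
  by_cases h : normSq (1 - q) = 0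
  · rw [h, g2_zero h]
    simp
  · rw [Complex.div_re]
    simp only [Complex.mul_re, Complex.mul_im, Complex.I_re, Complex.I_im, Complex.add_re,
      Complex.add_im, Complex.sub_re, Complex.sub_im, Complex.one_re, Complex.one_im]
    field_simp
    ring

theorem mob_im (q : ℂ) : (mob q).im = (1 - ‖q‖ ^ 2) / normSq (1 - q) := by
  rw [← Complex.normSq_eq_norm_sq, Complex.normSq_apply q]
  unfold mob
  by_cases h : normSq (1 - q) = 0
  · rw [h, g2_zero h]
    simp
  · rw [Complex.div_im]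
    simp only [Complex.mul_re, Complex.mul_im, Complex.I_re, Complex.I_im, Complex.add_re,
      Complex.add_im, Complex.sub_re, Complex.sub_im, Complex.one_re, Complex.one_im]
    field_simp
    ring

theorem mob_im_pos {q : ℂ} (hq : ‖q‖ < 1) : 0 < (mob q).im := by
  rw [mob_im]
  apply div_pos
  · have := pow_lt_one₀ (norm_nonneg q) hq two_ne_zero
    linarith
  · rw [Complex.normSq_pos]
    intro h
    have : q = 1 := (sub_eq_zero.1 h).symm
    rw [this] at hq
    simp at hq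

theorem mob_diffAt {q : ℂ} (hq : q ≠ 1) : DifferentiableAt ℂ mob q := by
  unfold mob
  have h1 : DifferentiableAt ℂ (fun q : ℂ => I * (1 + q)) q := by fun_prop
  have h2 : DifferentiableAt ℂ (fun q : ℂ => 1 - q) q := by fun_prop
  exact h1.div h2 (sub_ne_zero.2 (Ne.symm hq))

theorem cosh_sub_pos {τ : ℂ} (h : τ.im ≠ 0 ∨ (-2 < τ.re ∧ τ.re < 0)) :
    0 < Real.cosh (Real.pi * τ.im) - Real.cos (Real.pi * τ.re) := by
  rcases h with h | ⟨h1, h2⟩
  · have h3 : 1 < Real.cosh (Real.pi * τ.im) :=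
      Real.one_lt_cosh.2 (mul_ne_zero Real.pi_ne_zero h)
    have := Real.cos_le_one (Real.pi * τ.re)
    linarith
  · have h3 := Real.one_le_cosh (Real.pi * τ.im)
    have hp := Real.pi_pos
    have h4 : Real.cos (Real.pi * τ.re) < 1 := by
      refine lt_of_le_of_ne (Real.cos_le_one _) ?_
      intro h5
      have h6 := (Real.cos_eq_one_iff_of_lt_of_lt (x := Real.pi * τ.re)
        (by nlinarith) (by nlinarith)).1 h5
      have : Real.pi * τ.re < 0 := mul_neg_of_pos_of_neg hp h2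
      linarith
    linarith

theorem g2_arg (τ : ℂ) : (Real.pi * I * τ : ℂ) =
    ((-(Real.pi * τ.im) : ℝ) : ℂ) + ((Real.pi * τ.re : ℝ) : ℂ) * I := by
  conv_lhs => rw [← Complex.re_add_im τ]
  push_cast
  linear_combination (Real.pi * τ.im : ℂ) * Complex.I_sq

theorem g2_re (τ : ℂ) : (nome τ).re = Real.exp (-(Real.pi * τ.im)) * Real.cos (Real.pi * τ.re) := by
  unfold nome
  rw [g2_arg, Complex.exp_re]
  simp

theorem g2_im (τ : ℂ) : (nome τ).im = Real.exp (-(Real.pi * τ.im)) * Real.sin (Real.pi * τ.re) := by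
  unfold nome
  rw [g2_arg, Complex.exp_im]
  simp

theorem g2_norm (τ : ℂ) : ‖nome τ‖ = Real.exp (-(Real.pi * τ.im)) := by
  unfold nome
  rw [g2_arg, Complex.norm_exp]
  simp

theorem g2_normSq (τ : ℂ) : normSq (1 - nome τ) =
    2 * Real.exp (-(Real.pi * τ.im)) *
      (Real.cosh (Real.pi * τ.im) - Real.cos (Real.pi * τ.re)) := by
  rw [g2_sq, g2_re, g2_im, Real.cosh_eq]
  have h1 := Real.sin_sq_add_cos_sq (Real.pi * τ.re)
  have h2 : Real.exp (-(Real.pi * τ.im)) * Real.exp (Real.pi * τ.im) = 1 := by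
    rw [← Real.exp_add]
    simp
  linear_combination (Real.exp (-(Real.pi * τ.im))) ^ 2 * h1 - h2

theorem nome_ne_one {τ : ℂ} (h : τ.im ≠ 0 ∨ (-2 < τ.re ∧ τ.re < 0)) : nome τ ≠ 1 := by
  intro h1
  have h2 := g2_normSq τ
  rw [h1, sub_self, map_zero] at h2
  have h3 := cosh_sub_pos h
  have h4 := Real.exp_pos (-(Real.pi * τ.im))
  have : 0 < 2 * Real.exp (-(Real.pi * τ.im)) *
      (Real.cosh (Real.pi * τ.im) - Real.cos (Real.pi * τ.re)) := by positivity
  linarith

theorem mob_nome_re {τ : ℂ} (h : τ.im ≠ 0 ∨ (-2 < τ.re ∧ τ.re < 0)) :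
    (mob (nome τ)).re = -Real.sin (Real.pi * τ.re) /
      (Real.cosh (Real.pi * τ.im) - Real.cos (Real.pi * τ.re)) := by
  have h3 := (cosh_sub_pos h).ne'
  have h4 := (Real.exp_pos (-(Real.pi * τ.im))).ne'
  rw [mob_re, g2_normSq, g2_im]
  field_simp

theorem mob_nome_im {τ : ℂ} (h : τ.im ≠ 0 ∨ (-2 < τ.re ∧ τ.re < 0)) :
    (mob (nome τ)).im = Real.sinh (Real.pi * τ.im) /
      (Real.cosh (Real.pi * τ.im) - Real.cos (Real.pi * τ.re)) := by
  have h3 := (cosh_sub_pos h).ne'
  have h4 := (Real.exp_pos (-(Real.pi * τ.im))).ne'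
  have h2 : Real.exp (-(Real.pi * τ.im)) * Real.exp (Real.pi * τ.im) = 1 := by
    rw [← Real.exp_add]
    simp
  rw [mob_im, g2_normSq, g2_norm, div_eq_div_iff (by positivity) h3]
  have h5 : 1 - Real.exp (-(Real.pi * τ.im)) ^ 2 =
      2 * Real.exp (-(Real.pi * τ.im)) * Real.sinh (Real.pi * τ.im) := by
    rw [Real.sinh_eq]
    linear_combination -h2
  rw [h5]
  ring

theorem g2_cosh (b : ℝ) : 1 + b ^ 2 / 2 ≤ Real.cosh b := by
  have h1 : Real.cosh b = 1 + 2 * Real.sinh (b / 2) ^ 2 := by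
    have h := Real.cosh_two_mul (b / 2)
    have h2 := Real.cosh_sq (b / 2)
    have h3 : 2 * (b / 2) = b := by ring
    rw [h3] at h
    linarith
  have h2 : (b / 2) ^ 2 ≤ Real.sinh (b / 2) ^ 2 := by
    rw [sq_le_sq, Real.abs_sinh]
    exact Real.self_le_sinh_iff.2 (abs_nonneg _)
  rw [h1]
  nlinarith

/-- the real inequality behind the region lemma -/
theorem g2_ineq {a b : ℝ} (h0 : 0 < a) (h1 : a < 2 * Real.pi) :
    Real.sin a * (a ^ 2 + b ^ 2) ≤ 2 * a * (Real.cosh b - Real.cos a) := by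
  have hc := Real.cos_le_one a
  have hb : 1 + b ^ 2 / 2 ≤ Real.cosh b := g2_cosh b
  have hb1 := Real.one_le_cosh b
  rcases le_or_gt Real.pi a with h | h
  · have hs : Real.sin a ≤ 0 := by
      have h2 : 0 ≤ Real.sin (a - Real.pi) :=
        Real.sin_nonneg_of_nonneg_of_le_pi (by linarith) (by linarith)
      rw [Real.sin_sub_pi] at h2
      linarith
    have h3 : Real.sin a * (a ^ 2 + b ^ 2) ≤ 0 :=
      mul_nonpos_of_nonpos_of_nonneg hs (by positivity)
    have h4 : 0 ≤ 2 * a * (Real.cosh b - Real.cos a) :=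
      mul_nonneg (by positivity) (by linarith)
    linarith
  · have hs : Real.sin a ≤ a := Real.sin_le h0.le
    have hs0 : 0 ≤ Real.sin a := Real.sin_nonneg_of_nonneg_of_le_pi h0.le h.le
    have key : a * Real.sin a ≤ 2 * (1 - Real.cos a) := by
      have h2 : Real.sin a = 2 * Real.sin (a / 2) * Real.cos (a / 2) := by
        rw [← Real.sin_two_mul]
        congr 1
        ring
      have h3 : Real.cos a = 1 - 2 * Real.sin (a / 2) ^ 2 := by
        have h5 := Real.cos_two_mul (a / 2)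
        have h6 := Real.sin_sq_add_cos_sq (a / 2)
        have h7 : 2 * (a / 2) = a := by ring
        rw [h7] at h5
        linarith
      have h4 : 0 < Real.sin (a / 2) := Real.sin_pos_of_pos_of_lt_pi (by linarith) (by linarith)
      have hcos : 0 < Real.cos (a / 2) := Real.cos_pos_of_mem_Ioo ⟨by linarith, by linarith⟩
      have h5 : a / 2 < Real.tan (a / 2) := Real.lt_tan (by linarith) (by linarith)
      have h6 : a / 2 * Real.cos (a / 2) ≤ Real.sin (a / 2) := by
        rw [Real.tan_eq_sin_div_cos, lt_div_iff₀ hcos] at h5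
        exact h5.le
      rw [h2, h3]
      nlinarith
    have e1 : Real.sin a * b ^ 2 ≤ a * b ^ 2 := mul_le_mul_of_nonneg_right hs (sq_nonneg b)
    have e2 : a * (a * Real.sin a) ≤ a * (2 * (1 - Real.cos a)) :=
      mul_le_mul_of_nonneg_left key h0.le
    have e3 : 2 * a * (1 + b ^ 2 / 2) ≤ 2 * a * Real.cosh b :=
      mul_le_mul_of_nonneg_left hb (by positivity)
    nlinarith

/-- the region lemma -/
theorem region {τ : ℂ} {c : ℝ} (h1 : -2 < τ.re) (h2 : τ.re < 0) (hc : (-1 / τ).re ≤ c) :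
    (mob (nome τ)).re ≤ 2 / Real.pi * c := by
  have hp := Real.pi_pos
  rw [mob_nome_re (Or.inr ⟨h1, h2⟩)]
  have hD := cosh_sub_pos (τ := τ) (Or.inr ⟨h1, h2⟩)
  have hn : 0 < normSq τ := by
    rw [Complex.normSq_pos]
    rintro rfl
    simp at h2
  have hre : (-1 / τ).re = -τ.re / normSq τ := by
    rw [neg_div, one_div, Complex.neg_re, Complex.inv_re, neg_div]
  rw [hre] at hc
  refine le_trans ?_ (mul_le_mul_of_nonneg_left hc (by positivity))
  have key := g2_ineq (a := -(Real.pi * τ.re)) (b := Real.pi * τ.im) (by nlinarith) (by nlinarith)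
  rw [Real.sin_neg, Real.cos_neg] at key
  have hns : (-(Real.pi * τ.re)) ^ 2 + (Real.pi * τ.im) ^ 2 = Real.pi ^ 2 * normSq τ := by
    rw [Complex.normSq_apply]
    ring
  rw [hns] at key
  rw [div_mul_div_comm, div_le_div_iff₀ hD (by positivity)]
  have h5 : 0 < Real.pi := hp
  have h6 : -Real.sin (Real.pi * τ.re) * (Real.pi * normSq τ) * Real.pi ≤
      2 * -τ.re * (Real.cosh (Real.pi * τ.im) - Real.cos (Real.pi * τ.re)) * Real.pi := by
    nlinarith
  exact le_of_mul_le_mul_right h6 hp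

end Pool.Agent.Choc.Nu
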