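import Pool.Agent.Lib.MP_2b3e36_an.Nu.G1
import Pool.Agent.Lib.MP_2b3e36_an.Nu.G2

/-!
S1. The strip `|Im σ| < 3/8`.

`s = 1 + i σ`, `Re s = 1 - Im σ ∈ (5/8, 11/8)`, `Im s = Re σ`, `τ = -1/s`: `Re τ = - Re s/|s|^2 ∈ [-8/5, 0)`
(`|s|^2 ≥ (Re s)^2`), `Im τ = Re σ/|s|^2`, `-1/τ = s`. `qs σ = nome τ`. So `nome_ne_one`, `mob_nome_re`,
`mob_nome_im`, `region` apply. With `a = -π Re τ ∈ (0, 2π)`, `b = π Im τ`: `Im x` has the sign of `sinh b`, i.e. of
`Re σ`. `x ∈ Gx`: if `Re x = 0` then `sin a = 0`, `a = π`, `cos a = -1`, `|Im x| = |sinh b|/(T (cosh b + 1)) < 1`.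
`Re N < 2`: `region` with `c = Re s ≤ 11/8`: `2 Re x ≤ 4/(π T) · 11/8 ≤ 1.4715 < 1.5` (`π > 3.14159`,
`T ≥ 1.19`), `joN_bound`: `u - 1/u ≤ 1.4715`, while `u ≥ 2` would give `u - 1/u ≥ 1.5`.
-/

set_option autoImplicit false

open Complex Set Filter Topology Metric

namespace Pool.Agent.Choc.Nu

theorem s1_facts {σ : ℂ} (hσ : σ ∈ strip) :
    5 / 8 < (1 + I * σ).re ∧ (1 + I * σ).re < 11 / 8 ∧ (1 + I * σ).im = σ.re ∧ 1 + I * σ ≠ 0 := by
  have h := abs_lt.1 (show |σ.im| < 3 / 8 from hσ)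
  have hre : (1 + I * σ).re = 1 - σ.im := by simp [sub_eq_add_neg]
  have him : (1 + I * σ).im = σ.re := by simp
  refine ⟨by rw [hre]; linarith [h.2], by rw [hre]; linarith [h.1], him, ?_⟩
  intro h0
  have h1 := congrArg re h0
  rw [hre, zero_re] at h1
  linarith [h.2]

theorem s1_tau {σ : ℂ} (hσ : σ ∈ strip) :
    -2 < (-1 / (1 + I * σ)).re ∧ (-1 / (1 + I * σ)).re < 0 ∧
      (-1 / (-1 / (1 + I * σ))).re ≤ 11 / 8 ∧
      (-1 / (1 + I * σ)).im = σ.re / normSq (1 + I * σ) ∧ 0 < normSq (1 + I * σ) := by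
  obtain ⟨h1, h2, h3, h4⟩ := s1_facts hσ
  have hn : 0 < normSq (1 + I * σ) := normSq_pos.2 h4
  have hn' : (1 + I * σ).re ^ 2 ≤ normSq (1 + I * σ) := by
    rw [normSq_apply]; nlinarith [mul_self_nonneg (1 + I * σ).im]
  have hre : (-1 / (1 + I * σ)).re = -((1 + I * σ).re / normSq (1 + I * σ)) := by
    rw [neg_div, one_div, neg_re, inv_re]
  have him : (-1 / (1 + I * σ)).im = (1 + I * σ).im / normSq (1 + I * σ) := by
    rw [neg_div, one_div, neg_im, inv_im, neg_div, neg_neg]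
  refine ⟨?_, ?_, ?_, by rw [him, h3], hn⟩
  · rw [hre, neg_lt_neg_iff, div_lt_iff₀ hn]
    nlinarith
  · rw [hre, neg_lt_zero]
    exact div_pos (by linarith) hn
  · have : (-1 / (-1 / (1 + I * σ)) : ℂ) = 1 + I * σ := by field_simp
    rw [this]; exact h2.le

theorem strip_open : IsOpen strip :=
  isOpen_lt (continuous_abs.comp continuous_im) continuous_const

theorem qs_ne_one {σ : ℂ} (hσ : σ ∈ strip) : qs σ ≠ 1 := by
  obtain ⟨h1, h2, -, -, -⟩ := s1_tau hσ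
  exact nome_ne_one (Or.inr ⟨h1, h2⟩)

theorem strip_good {T : ℝ} (hT : 119 / 100 ≤ T) {σ : ℂ} (hσ : σ ∈ strip) :
    mob (qs σ) / T ∈ Gx ∧ (joN (mob (qs σ) / T)).re < 2 ∧
    (0 < σ.re → 0 < (mob (qs σ) / T).im) ∧ (σ.re < 0 → (mob (qs σ) / T).im < 0) ∧
    (σ.re = 0 → (mob (qs σ) / T).im = 0) := by
  obtain ⟨h1, h2, h3, h4, h5⟩ := s1_tau hσ
  have hT0 : 0 < T := by linarith
  obtain ⟨τ, hτ⟩ : ∃ τ : ℂ, τ = -1 / (1 + I * σ) := ⟨_, rfl⟩
  have hq : qs σ = nome τ := by rw [hτ]; rfl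
  rw [← hτ] at h1 h2 h3 h4
  have hre := mob_nome_re (Or.inr ⟨h1, h2⟩ : τ.im ≠ 0 ∨ (-2 < τ.re ∧ τ.re < 0))
  have him := mob_nome_im (Or.inr ⟨h1, h2⟩ : τ.im ≠ 0 ∨ (-2 < τ.re ∧ τ.re < 0))
  have hpos := cosh_sub_pos (Or.inr ⟨h1, h2⟩ : τ.im ≠ 0 ∨ (-2 < τ.re ∧ τ.re < 0))
  have xre : (mob (qs σ) / T).re = (mob (nome τ)).re / T := by rw [hq, div_ofReal_re]
  have xim : (mob (qs σ) / T).im = (mob (nome τ)).im / T := by rw [hq, div_ofReal_im]
  have hG : mob (qs σ) / T ∈ Gx := by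
    by_cases h : (mob (qs σ) / T).re = 0
    · right
      rw [xre, div_eq_zero_iff] at h
      have h6 : (mob (nome τ)).re = 0 := h.resolve_right hT0.ne'
      rw [hre, div_eq_zero_iff] at h6
      have h7 : Real.sin (Real.pi * τ.re) = 0 := neg_eq_zero.1 (h6.resolve_right hpos.ne')
      obtain ⟨n, hn⟩ := Real.sin_eq_zero_iff.1 h7
      have h8 : (n : ℝ) = τ.re := by
        have := Real.pi_pos.ne'
        rw [mul_comm] at hn
        exact mul_left_cancel₀ this hn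
      have h9 : n = -1 := by
        have a1 : (-2 : ℝ) < n := by rw [h8]; exact h1
        have a2 : (n : ℝ) < 0 := by rw [h8]; exact h2
        have a3 : -2 < n := by exact_mod_cast a1
        have a4 : n < 0 := by exact_mod_cast a2
        omega
      have h10 : Real.cos (Real.pi * τ.re) = -1 := by
        rw [← h8, h9]; simp
      rw [xim, him, h10, abs_div, abs_div, abs_of_pos hT0, sub_neg_eq_add]
      have h11 : |Real.sinh (Real.pi * τ.im)| < Real.cosh (Real.pi * τ.im) := by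
        rw [abs_lt]
        constructor
        · have := Real.exp_pos (Real.pi * τ.im)
          rw [← Real.cosh_add_sinh] at this; linarith
        · exact Real.sinh_lt_cosh _
      have h12 : 0 < Real.cosh (Real.pi * τ.im) + 1 := by have := Real.cosh_pos (Real.pi * τ.im); linarith
      rw [abs_of_pos h12, div_div, div_lt_one (mul_pos h12 hT0)]
      nlinarith
    · exact Or.inl h
  refine ⟨hG, ?_, ?_, ?_, ?_⟩
  · have b1 := joN_bound hG
    have b2 := joN_re hG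
    have b3 : (mob (nome τ)).re ≤ 2 / Real.pi * (11 / 8) := region h1 h2 h3
    by_contra hcon
    rw [not_lt] at hcon
    obtain ⟨u, hu⟩ : ∃ u, u = (joN (mob (qs σ) / T)).re := ⟨_, rfl⟩
    rw [← hu] at b1 b2 hcon
    have b4 : 1 / u ≤ 1 / 2 := one_div_le_one_div_of_le (by norm_num) hcon
    have b5 : 3 / 4 ≤ (mob (nome τ)).re / T := by rw [← xre]; linarith
    rw [le_div_iff₀ hT0] at b5
    have b6 : 2 / Real.pi * (11 / 8) < 3 / 4 * (119 / 100) := by
      rw [div_mul_eq_mul_div, div_lt_iff₀ Real.pi_pos]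
      have := Real.pi_gt_d6
      nlinarith
    nlinarith
  · intro h
    rw [xim, him]
    exact div_pos (div_pos (Real.sinh_pos_iff.2 (mul_pos Real.pi_pos (by rw [h4]; exact div_pos h h5))) hpos) hT0
  · intro h
    rw [xim, him]
    refine div_neg_of_neg_of_pos (div_neg_of_neg_of_pos (Real.sinh_neg_iff.2 ?_) hpos) hT0
    exact mul_neg_of_pos_of_neg Real.pi_pos (by rw [h4]; exact div_neg_of_neg_of_pos h h5)
  · intro h
    rw [xim, him, h4, h]
    simp

theorem qs_diff : DifferentiableOn ℂ qs strip := by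
  intro σ hσ
  obtain ⟨-, -, -, h4⟩ := s1_facts hσ
  apply DifferentiableAt.differentiableWithinAt
  unfold qs nome
  have h : DifferentiableAt ℂ (fun σ : ℂ => -1 / (1 + I * σ)) σ :=
    (differentiableAt_const _).div ((differentiableAt_const _).add
      ((differentiableAt_const _).mul differentiableAt_id)) h4
  exact ((differentiableAt_const _).mul h).cexp

theorem Zs_diff {T : ℝ} (hT : 119 / 100 ≤ T) : DifferentiableOn ℂ (Zs T) strip := by
  intro σ hσ
  have hg := (strip_good hT hσ).1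
  have h1 : DifferentiableAt ℂ qs σ := (qs_diff σ hσ).differentiableAt (strip_open.mem_nhds hσ)
  have h2 : DifferentiableAt ℂ mob (qs σ) := mob_diffAt (qs_ne_one hσ)
  have h3 : DifferentiableAt ℂ Zx (mob (qs σ) / T) :=
    (Zx_diff _ hg).differentiableAt (g1_open.mem_nhds hg)
  have h4 : DifferentiableAt ℂ (fun σ => mob (qs σ) / T) σ :=
    (h2.comp σ h1).div_const _
  exact (DifferentiableAt.comp σ h3 h4).differentiableWithinAt

/-- on the positive real axis -/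
theorem Zs_im_neg {T : ℝ} (hT : 119 / 100 ≤ T) {σ : ℂ} (hσ : σ ∈ strip) (h : 0 < σ.re) :
    (Zs T σ).im < 0 := by
  obtain ⟨h1, h2, h3, -, -⟩ := strip_good hT hσ
  exact Zx_im_neg h1 h2 (h3 h)

theorem Zs_im_pos {T : ℝ} (hT : 119 / 100 ≤ T) {σ : ℂ} (hσ : σ ∈ strip) (h : σ.re < 0) :
    0 < (Zs T σ).im := by
  obtain ⟨h1, h2, -, h3, -⟩ := strip_good hT hσ
  exact Zx_im_pos h1 h2 (h3 h)

end Pool.Agent.Choc.Nu
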