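import Pool.Agent.Lib.MP_2b3e36_an.Nu.G4
import Pool.Agent.Lib.MP_2b3e36_an.Nu.S1

/-!
G7. The limits at the geodesic.

param: `ζ = nome τ`, `Im τ > 0`, `‖τ + 1/2‖ = 1/2`: `|τ|^2 + Re τ = 0`, so `s = -1/τ` has real part
`- Re τ/|τ|^2 = 1` and positive imaginary part `σ`.
lim: at `σ > 0` (in the strip) `x = mob (qs σ)/T ∈ Gx`, `qs σ ≠ 1`, so `Zm T` is continuous at `qs σ`, and
`Im (Zs T σ) < 0`, so `arg (· - b)` is continuous there.
-/

set_option autoImplicit false

open Complex Set Filter Topology Metric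

namespace Pool.Agent.Choc.Nu

theorem geo_param {ζ : ℂ} (hζ : ζ ∈ geo) : ∃ σ : ℝ, 0 < σ ∧ ζ = qs σ := by
  obtain ⟨τ, him, hn, rfl⟩ := hζ
  have hτ : τ ≠ 0 := by
    rintro rfl
    simp at him
  have hns : 0 < normSq τ := normSq_pos.2 hτ
  have hsum : τ.re + normSq τ = 0 := by
    have h3 : ‖τ + 1 / 2‖ ^ 2 = (1 / 2 : ℝ) ^ 2 := by rw [hn]
    rw [← Complex.normSq_eq_norm_sq, Complex.normSq_apply] at h3
    rw [Complex.normSq_apply]
    have h4 : (τ + 1 / 2).re = τ.re + 1 / 2 := by simp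
    have h5 : (τ + 1 / 2).im = τ.im := by simp
    rw [h4, h5] at h3
    nlinarith
  have hre : (-1 / τ).re = 1 := by
    have h3 : (-1 / τ).re = -τ.re / normSq τ := by
      rw [Complex.div_re]
      simp
    rw [h3, div_eq_one_iff_eq hns.ne']
    linarith
  have hi : (-1 / τ).im = τ.im / normSq τ := by
    rw [Complex.div_im]
    simp
    ring
  refine ⟨τ.im / normSq τ, div_pos him hns, ?_⟩
  have key : (1 : ℂ) + I * ((τ.im / normSq τ : ℝ) : ℂ) = -1 / τ := by
    apply Complex.ext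
    · rw [hre]
      simp
    · rw [hi]
      simp
  unfold qs
  rw [key]
  congr 1
  field_simp

theorem g7_strip (σ : ℝ) : (σ : ℂ) ∈ strip := by
  show |(σ : ℂ).im| < 3 / 8
  rw [Complex.ofReal_im, abs_zero]
  norm_num

theorem g7_cont {T : ℝ} (hT : 119 / 100 ≤ T) {σ : ℂ} (hσ : σ ∈ strip) :
    ContinuousAt (Zm T) (qs σ) := by
  have h1 : DifferentiableAt ℂ (fun q : ℂ => mob q / T) (qs σ) :=
    (mob_diffAt (qs_ne_one hσ)).div_const _
  have h2 : DifferentiableAt ℂ Zx (mob (qs σ) / T) :=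
    (Zx_diff _ (strip_good hT hσ).1).differentiableAt (g1_open.mem_nhds (strip_good hT hσ).1)
  have h3 : ContinuousAt (Zx ∘ fun q : ℂ => mob q / T) (qs σ) :=
    ContinuousAt.comp (f := fun q : ℂ => mob q / T) h2.continuousAt h1.continuousAt
  exact h3

theorem lim_geo {T : ℝ} (hT : 119 / 100 ≤ T) (b : ℝ) {σ : ℝ} (hσ : 0 < σ) :
    Tendsto (fun q => Lb b (Zm T q)) (𝓝[V (yT T)] (qs σ)) (𝓝 (Lb b (Zs T σ))) := by
  have hs := g7_strip σ
  have him : (Zs T σ).im < 0 := Zs_im_neg hT hs (by rw [Complex.ofReal_re]; exact hσ)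
  have hslit : Zs T σ - b ∈ slitPlane := by
    refine Complex.mem_slitPlane_iff.2 (Or.inr ?_)
    rw [Complex.sub_im, Complex.ofReal_im, sub_zero]
    exact him.ne
  have h1 : ContinuousAt (fun z : ℂ => Lb b z) (Zs T σ) := by
    unfold Lb
    refine ContinuousAt.div_const (ContinuousAt.neg ?_) _
    exact ContinuousAt.comp (f := fun z : ℂ => z - b) (g := arg)
      (Complex.continuousAt_arg hslit) (continuousAt_id.sub continuousAt_const)
  have h2 : ContinuousAt (fun q => Lb b (Zm T q)) (qs σ) :=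
    ContinuousAt.comp (f := Zm T) (g := fun z : ℂ => Lb b z) h1 (g7_cont hT hs)
  exact h2.tendsto.mono_left nhdsWithin_le_nhds

end Pool.Agent.Choc.Nu
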