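import Pool.Agent.Lib.MP_2b3e36_an.Nu.G5
import Pool.Agent.Lib.MP_2b3e36_an.Nu.G6
import Pool.Agent.Lib.MP_2b3e36_an.Nu.G7

/-!
C0. The comparison.

By `h2_cmp` on `V (yT T)` (`u` is harmonic, bounded): for `cmp2` `u = h₂ - comb l - ε h₂ - comb g` and
`u = comb l - h₂ - ε h₂ - comb g`, `c = 0`. At the slit everything tends to `0`; at the upper arc as well (all `b ≤ 0`);
at `ζ = qs σ` in `geo`: `h₂ → 1`, `u → 1 - comb l (Zs) - ε - comb g (Zs) ≤ 0` by the hypothesis.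
For `cmp1` `u = ± ((1 - h₁) - Lb 1 - comb l) - ε h₂ - comb g`: slit: `1 - h₁ → 0`, `Lb 1 → 0`; arc: `1 - h₁ → 1`,
`Lb 1 → 1`; geo: `1 - h₁ → 1`. Boundedness of `comb`: `|Lb| ≤ 1`, finite sum. Then evaluate at `q = 0`.
(Induction on the list for: harmonic, bounded, limits of `comb`.)
-/

set_option autoImplicit false

open Complex Set Filter Topology Metric

namespace Pool.Agent.Choc.Nu

theorem c0_comb_nil (z : ℂ) : comb [] z = 0 := by simp [comb]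

theorem c0_comb_cons (p : ℝ × ℝ) (l : List (ℝ × ℝ)) (z : ℂ) :
    comb (p :: l) z = p.1 * Lb p.2 z + comb l z := by simp [comb]

theorem c0_bd (l : List (ℝ × ℝ)) : ∃ M : ℝ, ∀ z : ℂ, z.im < 0 → |comb l z| ≤ M := by
  induction l with
  | nil => exact ⟨0, fun z _ => by simp [c0_comb_nil]⟩
  | cons p l ih =>
    obtain ⟨M, hM⟩ := ih
    refine ⟨|p.1| + M, fun z hz => ?_⟩
    rw [c0_comb_cons]
    have h1 := Lb_bd (b := p.2) hz
    have h2 : |p.1 * Lb p.2 z| ≤ |p.1| := by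
      rw [abs_mul, abs_of_pos h1.1]
      exact mul_le_of_le_one_right (abs_nonneg _) h1.2.le
    exact (abs_add_le _ _).trans (add_le_add h2 (hM z hz))

theorem c0_harm {T : ℝ} (hT : 119 / 100 ≤ T) (l : List (ℝ × ℝ)) :
    InnerProductSpace.HarmonicOnNhd (fun q => comb l (Zm T q)) (V (yT T)) := by
  induction l with
  | nil =>
    have h : (fun q => comb [] (Zm T q)) = fun _ => (0 : ℝ) := by
      funext q
      exact c0_comb_nil _
    rw [h]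
    exact InnerProductSpace.harmonicOnNhd_const 0
  | cons p l ih =>
    have h : (fun q => comb (p :: l) (Zm T q)) =
        (p.1 • fun q => Lb p.2 (Zm T q)) + fun q => comb l (Zm T q) := by
      funext q
      simp only [Pi.add_apply, Pi.smul_apply, smul_eq_mul]
      exact c0_comb_cons _ _ _
    rw [h]
    exact (Lb_harm hT p.2).const_smul.add ih

theorem c0_lim {T : ℝ} {F : Filter ℂ} (w : ℝ → ℝ) (l : List (ℝ × ℝ))
    (h : ∀ p ∈ l, Tendsto (fun q => Lb p.2 (Zm T q)) F (𝓝 (w p.2))) :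
    Tendsto (fun q => comb l (Zm T q)) F (𝓝 (l.map fun p => p.1 * w p.2).sum) := by
  induction l with
  | nil =>
    simp only [c0_comb_nil, List.map_nil, List.sum_nil]
    exact tendsto_const_nhds
  | cons p l ih =>
    simp only [c0_comb_cons, List.map_cons, List.sum_cons]
    exact ((h p (by simp)).const_mul p.1).add (ih fun r hr => h r (by simp [hr]))

theorem c0_lim_zero {T : ℝ} {F : Filter ℂ} (l : List (ℝ × ℝ))
    (h : ∀ p ∈ l, Tendsto (fun q => Lb p.2 (Zm T q)) F (𝓝 0)) :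
    Tendsto (fun q => comb l (Zm T q)) F (𝓝 0) := by
  have h1 := c0_lim (T := T) (F := F) (fun _ => 0) l h
  simpa using h1

theorem c0_lim_geo {T : ℝ} (hT : 119 / 100 ≤ T) (l : List (ℝ × ℝ)) {σ : ℝ} (hσ : 0 < σ) :
    Tendsto (fun q => comb l (Zm T q)) (𝓝[V (yT T)] (qs σ)) (𝓝 (comb l (Zs T σ))) :=
  c0_lim (T := T) (fun b => Lb b (Zs T σ)) l fun p _ => lim_geo hT p.2 hσ

/-- the general comparison -/
theorem c0_gen {T : ℝ} (hT : 119 / 100 ≤ T) {u : ℂ → ℝ}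
    (hu : InnerProductSpace.HarmonicOnNhd u (V (yT T))) {M : ℝ} (hM : ∀ z ∈ V (yT T), u z ≤ M)
    (hs : ∀ ζ ∈ slit (yT T), Tendsto u (𝓝[V (yT T)] ζ) (𝓝 0))
    (ha : ∀ ζ ∈ upperArc, Tendsto u (𝓝[V (yT T)] ζ) (𝓝 0))
    (hg : ∀ σ : ℝ, 0 < σ → qs σ ∈ geo → ∃ v : ℝ, v ≤ 0 ∧ Tendsto u (𝓝[V (yT T)] (qs σ)) (𝓝 v)) :
    u 0 ≤ 0 := by
  refine h2_cmp (yT_pos hT) hu hM (c := 0) ?_ ?_ ?_ 0 (zero_mem_V _)
  · intro ζ hζ ε hε
    exact h2_lt (hs ζ hζ) (by linarith)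
  · intro ζ hζ ε hε
    obtain ⟨σ, hσ, rfl⟩ := geo_param hζ
    obtain ⟨v, hv, h⟩ := hg σ hσ hζ
    exact h2_lt h (by linarith)
  · intro ζ hζ ε hε
    exact h2_lt (ha ζ hζ) (by linarith)

/-- the two sided comparison -/
theorem c0_two {T : ℝ} (hT : 119 / 100 ≤ T) {h₁ h₂ : ℂ → ℝ} (hp : HarmPair (yT T) h₁ h₂)
    {F : ℂ → ℝ} (hF : InnerProductSpace.HarmonicOnNhd F (V (yT T))) {MF : ℝ}
    (hFM : ∀ z ∈ V (yT T), |F z| ≤ MF) {g : List (ℝ × ℝ)} (hg : ∀ p ∈ g, p.2 ≤ 0) {ε : ℝ}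
    (hs : ∀ ζ ∈ slit (yT T), Tendsto F (𝓝[V (yT T)] ζ) (𝓝 0))
    (ha : ∀ ζ ∈ upperArc, Tendsto F (𝓝[V (yT T)] ζ) (𝓝 0))
    (hgeo : ∀ σ : ℝ, 0 < σ → qs σ ∈ geo → ∃ v : ℝ, |v| ≤ ε + comb g (Zs T σ) ∧
      Tendsto F (𝓝[V (yT T)] (qs σ)) (𝓝 v)) :
    |F 0| ≤ ε * h₂ 0 + comb g (Zm T 0) := by
  obtain ⟨Mg, hMg⟩ := c0_bd g
  have key : ∀ s : ℝ, |s| ≤ 1 → s * F 0 - ε * h₂ 0 - comb g (Zm T 0) ≤ 0 := by
    intro s hs1
    have hharm : InnerProductSpace.HarmonicOnNhd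
        (s • F - ε • h₂ - fun q => comb g (Zm T q)) (V (yT T)) :=
      (hF.const_smul.sub hp.harm₂.const_smul).sub (c0_harm hT g)
    have hfun : (s • F - ε • h₂ - fun q => comb g (Zm T q)) =
        fun q => s * F q - ε * h₂ q - comb g (Zm T q) := by
      funext q
      simp only [Pi.sub_apply, Pi.smul_apply, smul_eq_mul]
    rw [hfun] at hharm
    refine c0_gen hT (u := fun q => s * F q - ε * h₂ q - comb g (Zm T q)) hharm
      (M := MF + |ε| + Mg) ?_ ?_ ?_ ?_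
    · intro z hz
      have b1 : |s * F z| ≤ MF := by
        rw [abs_mul]
        have h0 := hFM z hz
        have h1 : |s| * |F z| ≤ 1 * |F z| := mul_le_mul_of_nonneg_right hs1 (abs_nonneg _)
        linarith
      have b2 : |ε * h₂ z| ≤ |ε| := by
        rw [abs_mul, abs_of_nonneg (hp.bd₂ z hz).1]
        exact mul_le_of_le_one_right (abs_nonneg _) (hp.bd₂ z hz).2
      have b3 := hMg _ (Zm_im hT hz)
      have c1 := (abs_le.1 b1).2
      have c2 := (abs_le.1 b2).1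
      have c3 := (abs_le.1 b3).1
      linarith
    · intro ζ hζ
      have t1 := (hs ζ hζ).const_mul s
      have t2 := (hp.slit₂ ζ hζ).const_mul ε
      have t3 := c0_lim_zero (T := T) (F := 𝓝[V (yT T)] ζ) g
        fun p hp => lim_slit hT (le_trans (hg p hp) zero_le_one) hζ
      have t4 := (t1.sub t2).sub t3
      simpa using t4
    · intro ζ hζ
      have t1 := (ha ζ hζ).const_mul s
      have t2 := (hp.arc₂ ζ hζ).const_mul ε
      have t3 := c0_lim_zero (T := T) (F := 𝓝[V (yT T)] ζ) g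
        fun p hp => lim_arc hT (hg p hp) hζ
      have t4 := (t1.sub t2).sub t3
      simpa using t4
    · intro σ hσ hmem
      obtain ⟨v, hv, ht⟩ := hgeo σ hσ hmem
      have t1 := ht.const_mul s
      have t2 := (hp.geo₂ _ hmem).const_mul ε
      have t3 := c0_lim_geo hT g hσ
      refine ⟨_, ?_, (t1.sub t2).sub t3⟩
      have b1 : |s * v| ≤ |v| := by
        rw [abs_mul]
        exact mul_le_of_le_one_left (abs_nonneg _) hs1
      have c1 := (abs_le.1 b1).2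
      linarith
  have k1 := key 1 (by simp)
  have k2 := key (-1) (by simp)
  rw [abs_le]
  constructor <;> linarith

theorem cmp2 {T : ℝ} (hT : 119 / 100 ≤ T) {w₁ w₂ : ℝ} (h : IsOmega (yT T) w₁ w₂)
    {l g : List (ℝ × ℝ)} (hl : ∀ p ∈ l, p.2 ≤ 0) (hg : ∀ p ∈ g, p.2 ≤ 0) {ε : ℝ}
    (hΓ : ∀ σ : ℝ, 0 < σ → |comb l (Zs T σ) - 1| ≤ ε + comb g (Zs T σ)) :
    |w₂ - comb l (Zm T 0)| ≤ ε * w₂ + comb g (Zm T 0) := by
  obtain ⟨h₁, h₂, hp, rfl, rfl⟩ := h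
  obtain ⟨Ml, hMl⟩ := c0_bd l
  have hharm : InnerProductSpace.HarmonicOnNhd (h₂ - fun q => comb l (Zm T q)) (V (yT T)) :=
    hp.harm₂.sub (c0_harm hT l)
  have hfun : (h₂ - fun q => comb l (Zm T q)) = fun q => h₂ q - comb l (Zm T q) := by
    funext q
    simp only [Pi.sub_apply]
  rw [hfun] at hharm
  refine c0_two hT hp (F := fun q => h₂ q - comb l (Zm T q)) hharm (MF := 1 + Ml) ?_ hg ?_ ?_ ?_
  · intro z hz
    have b1 := hp.bd₂ z hz
    have b2 := abs_le.1 (hMl _ (Zm_im hT hz))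
    rw [abs_le]
    constructor <;> linarith [b1.1, b1.2, b2.1, b2.2]
  · intro ζ hζ
    have t2 := c0_lim_zero (T := T) (F := 𝓝[V (yT T)] ζ) l
      fun p hp => lim_slit hT (le_trans (hl p hp) zero_le_one) hζ
    simpa using (hp.slit₂ ζ hζ).sub t2
  · intro ζ hζ
    have t2 := c0_lim_zero (T := T) (F := 𝓝[V (yT T)] ζ) l fun p hp => lim_arc hT (hl p hp) hζ
    simpa using (hp.arc₂ ζ hζ).sub t2
  · intro σ hσ hmem
    refine ⟨_, ?_, (hp.geo₂ _ hmem).sub (c0_lim_geo hT l hσ)⟩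
    rw [abs_sub_comm]
    exact hΓ σ hσ

theorem cmp1 {T : ℝ} (hT : 119 / 100 ≤ T) {w₁ w₂ : ℝ} (h : IsOmega (yT T) w₁ w₂)
    {l g : List (ℝ × ℝ)} (hl : ∀ p ∈ l, p.2 ≤ 0) (hg : ∀ p ∈ g, p.2 ≤ 0) {ε : ℝ}
    (hΓ : ∀ σ : ℝ, 0 < σ → |Lb 1 (Zs T σ) + comb l (Zs T σ) - 1| ≤ ε + comb g (Zs T σ)) :
    |(1 - w₁) - (Lb 1 (Zm T 0) + comb l (Zm T 0))| ≤ ε * w₂ + comb g (Zm T 0) := by
  obtain ⟨h₁, h₂, hp, rfl, rfl⟩ := h
  obtain ⟨Ml, hMl⟩ := c0_bd l
  have hharm : InnerProductSpace.HarmonicOnNhd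
      (((fun _ => (1 : ℝ)) - h₁) - ((fun q => Lb 1 (Zm T q)) + fun q => comb l (Zm T q)))
      (V (yT T)) :=
    ((InnerProductSpace.harmonicOnNhd_const 1).sub hp.harm₁).sub
      ((Lb_harm hT 1).add (c0_harm hT l))
  have hfun : (((fun _ => (1 : ℝ)) - h₁) - ((fun q => Lb 1 (Zm T q)) +
      fun q => comb l (Zm T q))) =
      fun q => (1 - h₁ q) - (Lb 1 (Zm T q) + comb l (Zm T q)) := by
    funext q
    simp only [Pi.sub_apply, Pi.add_apply]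
  rw [hfun] at hharm
  refine c0_two hT hp (F := fun q => (1 - h₁ q) - (Lb 1 (Zm T q) + comb l (Zm T q))) hharm
    (MF := 2 + Ml) ?_ hg ?_ ?_ ?_
  · intro z hz
    have b1 := hp.bd₁ z hz
    have b2 := abs_le.1 (hMl _ (Zm_im hT hz))
    have b3 := Lb_bd (b := 1) (Zm_im hT hz)
    rw [abs_le]
    constructor <;> linarith [b1.1, b1.2, b2.1, b2.2, b3.1, b3.2]
  · intro ζ hζ
    have t1 : Tendsto (fun q => (1 : ℝ) - h₁ q) (𝓝[V (yT T)] ζ) (𝓝 (1 - 1)) :=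
      tendsto_const_nhds.sub (hp.slit₁ ζ hζ)
    have t2 := c0_lim_zero (T := T) (F := 𝓝[V (yT T)] ζ) l
      fun p hp => lim_slit hT (le_trans (hl p hp) zero_le_one) hζ
    have t3 := lim_slit hT (le_refl (1 : ℝ)) hζ
    simpa using t1.sub (t3.add t2)
  · intro ζ hζ
    have t1 : Tendsto (fun q => (1 : ℝ) - h₁ q) (𝓝[V (yT T)] ζ) (𝓝 (1 - 0)) :=
      tendsto_const_nhds.sub (hp.arc₁ ζ hζ)
    have t2 := c0_lim_zero (T := T) (F := 𝓝[V (yT T)] ζ) l fun p hp => lim_arc hT (hl p hp) hζ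
    have t3 := lim_arc_one hT hζ
    simpa using t1.sub (t3.add t2)
  · intro σ hσ hmem
    have t1 : Tendsto (fun q => (1 : ℝ) - h₁ q) (𝓝[V (yT T)] (qs σ)) (𝓝 (1 - 0)) :=
      tendsto_const_nhds.sub (hp.geo₁ _ hmem)
    refine ⟨_, ?_, t1.sub ((lim_geo hT 1 hσ).add (c0_lim_geo hT l hσ))⟩
    rw [sub_zero, abs_sub_comm]
    exact hΓ σ hσ

end Pool.Agent.Choc.Nu
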