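import Pool.Agent.Lib.MP_2b3e36_an.Ex.H2

/-!
# Numerical enclosure of the harmonic measures `ω₁`, `ω₂`: definitions

Coordinates. `mob` maps the unit disc onto the upper half plane, the slit of `V (yT T)` onto the ray
`i [T, ∞)`. With `x = mob q / T` the slit is the ray `i [1, ∞)`, and `N = joN x` is the solution with
positive real part of `N - 1/N = 2 x`: `V (yT T)` is mapped into the first quadrant, the slit to the
imaginary axis, the upper arc to `(0, 1)`. Finally `Z = cos (π N / 2)` maps into the lower half plane:
the slit to `[1, ∞)`, the upper arc to `(0, 1)`, and the corner `-1` to `0`. `Lb b z = - arg (z - b) / π`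
is the harmonic measure of `(-∞, b)` in the lower half plane.
The geodesic is parametrised by `qs σ = nome (-1 / (1 + i σ))`, `σ > 0`.
-/

set_option autoImplicit false

open Complex Set Filter Topology Metric

namespace Pool.Agent.Choc.Nu

noncomputable section

/-- The Möbius map of the unit disc onto the upper half plane. -/
def mob (q : ℂ) : ℂ := I * (1 + q) / (1 - q)

/-- The principal square root. -/
def rt (w : ℂ) : ℂ := exp (log w / 2)

/-- The solution of `N - 1/N = 2 x` in the right half plane. -/
def joN (x : ℂ) : ℂ := x + rt (1 + x ^ 2)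

/-- The domain of `joN`: the plane without the rays `± i [1, ∞)`. -/
def Gx : Set ℂ := {x | x.re ≠ 0 ∨ |x.im| < 1}

/-- The coordinate in the lower half plane, as a function of `x = mob q / T`. -/
def Zx (x : ℂ) : ℂ := cos (Real.pi / 2 * joN x)

/-- The coordinate in the lower half plane, as a function of `q`. -/
def Zm (T : ℝ) (q : ℂ) : ℂ := Zx (mob q / T)

/-- Harmonic measure of `(-∞, b)` in the lower half plane. -/
def Lb (b : ℝ) (z : ℂ) : ℝ := -arg (z - b) / Real.pi

/-- The parametrisation of the geodesic. -/
def qs (σ : ℂ) : ℂ := nome (-1 / (1 + I * σ))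

/-- The coordinate in the lower half plane along the geodesic. -/
def Zs (T : ℝ) (σ : ℂ) : ℂ := Zm T (qs σ)

/-- The value of `y` with `coth (π y / 2) = T`. -/
def yT (T : ℝ) : ℝ := Real.log ((T + 1) / (T - 1)) / Real.pi

/-- Linear combinations of the functions `Lb b`; the list contains pairs (coefficient, `b`). -/
def comb (l : List (ℝ × ℝ)) (z : ℂ) : ℝ := (l.map fun p => p.1 * Lb p.2 z).sum

/-- The strip in which the functions are continued. -/
def strip : Set ℂ := {σ | |σ.im| < 3 / 8}

/-- Holomorphic function on the strip, its real part continues `Lb b (Zs T σ)`, `b ≤ -7/10`. -/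
def gb (T b : ℝ) (σ : ℂ) : ℂ := I / Real.pi * log (Zs T σ - b)

/-- Holomorphic function on the strip, its real part continues `Lb 1 (Zs T σ)`. -/
def g1 (T : ℝ) (σ : ℂ) : ℂ := 1 + I / Real.pi * log (1 - Zs T σ)

/-- Holomorphic function on the strip, its real part continues `Lb 0 (Zs T σ)`. -/
def g0 (T : ℝ) (σ : ℂ) : ℂ := 1 / 2 + I / Real.pi * log (I * dslope (Zs T) 0 σ)

end

end Pool.Agent.Choc.Nu
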