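import Mathlib

/-!
E0. The evaluation engine: complex balls with integer centre and radius, scale `2 ^ 60`.
-/

set_option autoImplicit false

namespace Pool.Agent.Choc.Nu

/-- A complex ball: centre `(re + i im) / 2^60`, radius `rad / 2^60`. -/
structure CB where
  re : ℤ
  im : ℤ
  rad : ℤ

/-- The scale `2 ^ 60`. -/
def SC : ℤ := 1152921504606846976

/-- `π · 2 ^ 60`, rounded. -/
def PIS : ℤ := 3622009729038561421

/-- Absolute value. -/
def ab (x : ℤ) : ℤ := (x.natAbs : ℤ)

def CB.add (a b : CB) : CB := ⟨a.re + b.re, a.im + b.im, a.rad + b.rad⟩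

def CB.sub1 (a : CB) : CB := ⟨a.re - SC, a.im, a.rad⟩

def CB.add1 (a : CB) : CB := ⟨a.re + SC, a.im, a.rad⟩

def CB.mul (a b : CB) : CB :=
  ⟨(a.re * b.re - a.im * b.im) / SC, (a.re * b.im + a.im * b.re) / SC,
    ((ab a.re + ab a.im) * b.rad + (ab b.re + ab b.im) * a.rad + a.rad * b.rad) / SC + 3⟩

/-- multiplication by the rational `p / q`, `0 ≤ p`, `0 < q` -/
def CB.rat (a : CB) (p q : ℤ) : CB := ⟨a.re * p / q, a.im * p / q, a.rad * p / q + 3⟩

/-- multiplication by `i` -/
def CB.mulI (a : CB) : CB := ⟨-a.im, a.re, a.rad⟩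

/-- inverse -/
def CB.inv (a : CB) : Option CB :=
  let n := a.re * a.re + a.im * a.im
  let m := max (ab a.re) (ab a.im)
  if a.rad < m then
    some ⟨SC * SC * a.re / n, -(SC * SC * a.im / n), SC * SC * a.rad / ((m - a.rad) * m) + 3⟩
  else none

/-- Newton iteration for the integer square root -/
def nsq : ℕ → ℤ → ℤ → ℤ
  | 0, _, g => g
  | k + 1, n, g => nsq k n ((g + n / g) / 2)

/-- approximate integer square root (not verified) -/
def isq (n : ℤ) : ℤ := nsq 7 n ((1 : ℤ) <<< (n.toNat.log2 / 2 + 1))

/-- principal square root -/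
def CB.sqrt (a : CB) : Option CB :=
  let r := isq (a.re * a.re + a.im * a.im)
  let s1 := isq ((r + a.re) * SC / 2)
  let s2 := a.im * SC / (2 * s1)
  if 0 < s1 then
    some ⟨s1, s2, (SC * a.rad + ab (SC * a.re - (s1 * s1 - s2 * s2)) +
      ab (SC * a.im - 2 * s1 * s2)) / s1 + 1⟩
  else none

/-- Taylor polynomial of the exponential function -/
def CB.tay (w : CB) : ℕ → ℕ → CB
  | 0, _ => ⟨0, 0, 0⟩
  | n + 1, m => ((w.mul (CB.tay w n (m + 1))).rat 1 m).add1

/-- iterated squaring -/
def CB.sqs : ℕ → CB → CB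
  | 0, a => a
  | k + 1, a => CB.sqs k (a.mul a)

/-- exponential function, `k` halvings of the argument -/
def CB.exp (a : CB) (k : ℕ) : Option CB :=
  let q : ℤ := 2 ^ k
  let w : CB := a.rat 1 q
  if 2 * (ab w.re + ab w.im + w.rad) ≤ SC then
    let t := w.tay 12 1
    some (CB.sqs k ⟨t.re, t.im, t.rad + 700000⟩)
  else none

/-- `arctan (i / 8) / π · 2 ^ 60`, rounded -/
def ATt (i : ℤ) : ℤ :=
  if i = 0 then 0 else if i = 1 then 45636580940690243 else if i = 2 then 89903816322610130
  else if i = 3 then 131663925462936399 else if i = 4 then 170152326516859149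
  else if i = 5 then 204998303132124104 else if i = 6 then 236156099269705190
  else if i = 7 then 263800771170416490 else 288230376151711744

/-- `2 ^ 60 / π`, rounded -/
def IPI : ℤ := 366986312910250153

/-- `arctan (n / d) / π · 2 ^ 60` for `0 ≤ n ≤ d` -/
def atpos (n d : ℤ) : ℤ :=
  let i := (16 * n + d) / (2 * d)
  let x := (8 * n - i * d) * SC / (8 * d + i * n)
  let x2 := x * x / SC
  let y := SC / 7 - x2 * 128102389400760775 / SC
  let y := SC / 5 - x2 * y / SC
  let y := SC / 3 - x2 * y / SC
  let y := SC - x2 * y / SC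
  ATt i + (x * y / SC) * IPI / SC

/-- `- arg (x - i y) / π · 2 ^ 60` for `y > 0` -/
def larg (x y : ℤ) : ℤ :=
  if 0 ≤ x then
    (if x ≤ y then 576460752303423488 - atpos x y else atpos y x)
  else
    (if -x ≤ y then 576460752303423488 + atpos (-x) y else SC - atpos y (-x))

/-- Value and radius of `Lb (b / 1000)` at half the given ball. -/
def CB.lb (a : CB) (b : ℤ) : Option (ℤ × ℤ) :=
  let x := a.re - 2 * b * SC / 1000
  let y := -a.im
  let r := a.rad + 2
  let m := max (ab x) y
  if 0 < y ∧ 2 * r ≤ m then some (larg x y, SC * r / (2 * m) + 5000) else none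

def CB.lbs (a : CB) : List ℤ → Option (List (ℤ × ℤ))
  | [] => some []
  | b :: l => match a.lb b, CB.lbs a l with
    | some p, some q => some (p :: q)
    | _, _ => none

/-- `2 Z` as a function of `x`. -/
def CB.z2 (x : CB) : Option CB :=
  match ((x.mul x).add1).sqrt with
  | none => none
  | some r =>
    match ((x.add r).mul ⟨0, -1811004864519280710, 2⟩).exp 5 with
    | none => none
    | some E => match E.inv with
      | none => none
      | some F => some (E.add F)

/-- `x = mob (qs σ) / T` for `σ = k / D`, `T = TN / TD`. -/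
def xNode (k D TN TD : ℤ) : Option CB :=
  let n := D * D + k * k
  match (CB.mk (PIS * D * k / n) (PIS * D * D / n) 4).exp 3 with
  | none => none
  | some E => match E.sub1.inv with
    | none => none
    | some F => some ((((E.add1).mul F).mulI).rat TD TN)

end Pool.Agent.Choc.Nu
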