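import Pool.Agent.Lib.MP_2b3e36_an.Nu.Defs

/-!
G1. The map `joN` (inverse of `N ↦ (N - 1/N)/2` on the right half plane) and `Zx = cos (π/2 joN)`.

`1 + x^2` has imaginary part `2 Re x Im x` and real part `1 + Re x^2 - Im x^2`: if `Im x ≠ 0` and
`Re x ≠ 0` the imaginary part is not `0`; if `Re x = 0` the real part is `> 0` (as `|Im x| < 1`); if
`Im x = 0` the real part is `≥ 1`. So `1 + x^2 ∈ slitPlane` on `Gx`.
`rt w ^ 2 = w` for `w ≠ 0`; `Re (rt w) > 0` on the slit plane as `|arg w / 2| < π/2`.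
With `R = rt (1 + x^2)`: `(x + R)(R - x) = 1`, so `1/N = R - x`, `N - 1/N = 2x`, and
`Re N + Re (1/N) = 2 Re R > 0`, `Re (1/N) = Re N / |N|^2`: `Re N > 0`. `Im`: `2 Im x = Im N (1 + 1/|N|^2)`.
bound: `2 Re x = Re N - Re N/|N|^2 ≥ Re N - 1/Re N` as `|N|^2 ≥ (Re N)^2`.
`cos (π/2 (a + i b)) = cos (π a/2) cosh (π b/2) - i sin (π a/2) sinh (π b/2)`.
-/

set_option autoImplicit false

open Complex Set Filter Topology Metric

namespace Pool.Agent.Choc.Nu

theorem g1_slit {x : ℂ} (hx : x ∈ Gx) : 1 + x ^ 2 ∈ slitPlane := by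
  have hre : (1 + x ^ 2).re = 1 + (x.re ^ 2 - x.im ^ 2) := by
    simp [pow_two, Complex.mul_re]
  have him : (1 + x ^ 2).im = 2 * x.re * x.im := by
    simp [pow_two, Complex.mul_im]; ring
  rw [Complex.mem_slitPlane_iff, hre, him]
  by_cases h1 : x.re = 0
  · left
    rcases hx with h | h
    · exact absurd h1 h
    · rw [h1]
      have := (sq_lt_one_iff_abs_lt_one x.im).2 h
      nlinarith
  · by_cases h2 : x.im = 0
    · left
      rw [h2]
      have := sq_nonneg x.re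
      nlinarith
    · right
      exact mul_ne_zero (mul_ne_zero two_ne_zero h1) h2

theorem g1_open : IsOpen Gx := by
  have h1 : IsOpen {x : ℂ | x.re ≠ 0} := isOpen_ne_fun Complex.continuous_re continuous_const
  have h2 : IsOpen {x : ℂ | |x.im| < 1} :=
    isOpen_lt (continuous_abs.comp Complex.continuous_im) continuous_const
  have : Gx = {x : ℂ | x.re ≠ 0} ∪ {x : ℂ | |x.im| < 1} := by
    ext x; rfl
  rw [this]
  exact h1.union h2

theorem rt_sq {w : ℂ} (hw : w ≠ 0) : rt w ^ 2 = w := by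
  unfold rt
  rw [pow_two, ← Complex.exp_add, add_halves, Complex.exp_log hw]

theorem rt_re {w : ℂ} (hw : w ∈ slitPlane) : 0 < (rt w).re := by
  unfold rt
  rw [Complex.exp_re]
  refine mul_pos (Real.exp_pos _) ?_
  have h1 : (log w / 2).im = arg w / 2 := by
    have : (log w / 2) = ((1 / 2 : ℝ) : ℂ) * log w := by push_cast; ring
    rw [this, Complex.im_ofReal_mul, Complex.log_im]
    ring
  rw [h1]
  have h2 := Complex.neg_pi_lt_arg w
  have h3 : arg w < Real.pi := lt_of_le_of_ne (Complex.arg_le_pi w)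
    (Complex.mem_slitPlane_iff_arg.1 hw).1
  exact Real.cos_pos_of_mem_Ioo ⟨by linarith, by linarith⟩

/-- the reciprocal of `joN` -/
theorem g1_mul {x : ℂ} (hx : x ∈ Gx) : joN x * (rt (1 + x ^ 2) - x) = 1 := by
  have h := rt_sq (Complex.slitPlane_ne_zero (g1_slit hx))
  unfold joN
  linear_combination h

theorem g1_ne {x : ℂ} (hx : x ∈ Gx) : joN x ≠ 0 := by
  intro h
  have := g1_mul hx
  rw [h] at this
  simp at this

theorem g1_inv {x : ℂ} (hx : x ∈ Gx) : (joN x)⁻¹ = rt (1 + x ^ 2) - x :=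
  inv_eq_of_mul_eq_one_right (g1_mul hx)

theorem g1_inv_re (N : ℂ) : (N⁻¹).re = N.re / ‖N‖ ^ 2 := by
  rw [Complex.inv_re, Complex.normSq_eq_norm_sq]

theorem g1_inv_im (N : ℂ) : (N⁻¹).im = -N.im / ‖N‖ ^ 2 := by
  rw [Complex.inv_im, Complex.normSq_eq_norm_sq]

theorem joN_re {x : ℂ} (hx : x ∈ Gx) : 0 < (joN x).re := by
  have h1 : (joN x).re + ((joN x)⁻¹).re = 2 * (rt (1 + x ^ 2)).re := by
    rw [g1_inv hx]
    simp only [joN, Complex.add_re, Complex.sub_re]
    ring
  have h2 := rt_re (g1_slit hx)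
  rw [g1_inv_re] at h1
  have h3 : 0 < ‖joN x‖ := norm_pos_iff.2 (g1_ne hx)
  by_contra h
  push Not at h
  have : (joN x).re / ‖joN x‖ ^ 2 ≤ 0 := div_nonpos_of_nonpos_of_nonneg h (by positivity)
  linarith

theorem joN_eq {x : ℂ} (hx : x ∈ Gx) : joN x - (joN x)⁻¹ = 2 * x := by
  rw [g1_inv hx]
  unfold joN
  ring

/-- uniqueness -/
theorem joN_unique {x N : ℂ} (hx : x ∈ Gx) (hN : 0 < N.re) (h : N - N⁻¹ = 2 * x) : joN x = N := by
  have hN0 : N ≠ 0 := by
    rintro rfl
    simp at hN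
  have hM0 := g1_ne hx
  have hM := joN_re hx
  have h1 := joN_eq hx
  rw [← h] at h1
  set M := joN x with hMdef
  have h2 : (M - N) * (1 + M * N) = 0 := by
    have h3 : M * N * (M - M⁻¹) = M * N * (N - N⁻¹) := by rw [h1]
    have h4 : M * N * (M - M⁻¹) = M * M * N - N := by
      field_simp
    have h5 : M * N * (N - N⁻¹) = M * N * N - M := by
      field_simp
    rw [h4, h5] at h3
    linear_combination h3
  rcases mul_eq_zero.1 h2 with h3 | h3
  · exact sub_eq_zero.1 h3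
  · exfalso
    have h4 : M = -N⁻¹ := by
      field_simp
      linear_combination h3
    have h5 : M.re = -(N.re / ‖N‖ ^ 2) := by
      rw [h4, Complex.neg_re, g1_inv_re]
    have h6 : 0 ≤ N.re / ‖N‖ ^ 2 := by positivity
    linarith

theorem joN_im {x : ℂ} (hx : x ∈ Gx) : 2 * x.im = (joN x).im * (1 + 1 / ‖joN x‖ ^ 2) := by
  have h := congrArg Complex.im (joN_eq hx)
  rw [Complex.sub_im, g1_inv_im] at h
  have h2 : (2 * x).im = 2 * x.im := by simp
  rw [h2] at h
  rw [← h]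
  ring

theorem joN_diff : DifferentiableOn ℂ joN Gx := by
  intro x hx
  refine DifferentiableAt.differentiableWithinAt ?_
  unfold joN rt
  have h1 : DifferentiableAt ℂ (fun x : ℂ => 1 + x ^ 2) x := by fun_prop
  exact differentiableAt_id.add ((h1.clog (g1_slit hx)).div_const 2).cexp

theorem joN_bound {x : ℂ} (hx : x ∈ Gx) : (joN x).re - 1 / (joN x).re ≤ 2 * x.re := by
  have h := congrArg Complex.re (joN_eq hx)
  rw [Complex.sub_re, g1_inv_re] at h
  have h2 : (2 * x).re = 2 * x.re := by simp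
  rw [h2] at h
  rw [← h]
  have hM := joN_re hx
  have h3 : (joN x).re ^ 2 ≤ ‖joN x‖ ^ 2 := by
    have := Complex.abs_re_le_norm (joN x)
    rw [abs_of_pos hM] at this
    exact pow_le_pow_left₀ hM.le this 2
  have h4 : (joN x).re / ‖joN x‖ ^ 2 ≤ (joN x).re / (joN x).re ^ 2 :=
    div_le_div_of_nonneg_left hM.le (by positivity) h3
  have h5 : (joN x).re / (joN x).re ^ 2 = 1 / (joN x).re := by
    field_simp
  rw [h5] at h4
  linarith

theorem joN_lt_one {x : ℂ} (hx : x ∈ Gx) (h : x.re ≤ 0) : (joN x).re ≤ 1 := by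
  have h1 := joN_bound hx
  have hM := joN_re hx
  by_contra h2
  push Not at h2
  have h3 : 1 / (joN x).re < 1 := by
    rw [div_lt_one hM]
    exact h2
  linarith

theorem joN_zero : joN 0 = 1 := by
  unfold joN rt
  simp

theorem g1_arg (x : ℂ) : (Real.pi / 2 * joN x : ℂ) =
    ((Real.pi / 2 * (joN x).re : ℝ) : ℂ) + ((Real.pi / 2 * (joN x).im : ℝ) : ℂ) * I := by
  conv_lhs => rw [← Complex.re_add_im (joN x)]
  push_cast
  ring

theorem Zx_re {x : ℂ} : (Zx x).re =
    Real.cos (Real.pi / 2 * (joN x).re) * Real.cosh (Real.pi / 2 * (joN x).im) := by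
  unfold Zx
  rw [g1_arg, Complex.cos_add_mul_I, ← Complex.ofReal_cos, ← Complex.ofReal_cosh,
    ← Complex.ofReal_sin, ← Complex.ofReal_sinh]
  simp only [Complex.sub_re, Complex.mul_re, Complex.mul_im, Complex.ofReal_re,
    Complex.ofReal_im, Complex.I_re, Complex.I_im]
  ring

theorem Zx_im {x : ℂ} : (Zx x).im =
    -(Real.sin (Real.pi / 2 * (joN x).re) * Real.sinh (Real.pi / 2 * (joN x).im)) := by
  unfold Zx
  rw [g1_arg, Complex.cos_add_mul_I, ← Complex.ofReal_cos, ← Complex.ofReal_cosh,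
    ← Complex.ofReal_sin, ← Complex.ofReal_sinh]
  simp only [Complex.sub_im, Complex.mul_re, Complex.mul_im, Complex.ofReal_re,
    Complex.ofReal_im, Complex.I_re, Complex.I_im]
  ring

theorem Zx_diff : DifferentiableOn ℂ Zx Gx := by
  unfold Zx
  exact (joN_diff.const_mul _).ccos

theorem g1_im_pos {x : ℂ} (hx : x ∈ Gx) (h : 0 < x.im) : 0 < (joN x).im := by
  have h1 := joN_im hx
  have h2 : 0 < 1 + 1 / ‖joN x‖ ^ 2 := by positivity
  by_contra h3
  push Not at h3
  have := mul_nonpos_of_nonpos_of_nonneg h3 h2.le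
  linarith

theorem g1_im_neg {x : ℂ} (hx : x ∈ Gx) (h : x.im < 0) : (joN x).im < 0 := by
  have h1 := joN_im hx
  have h2 : 0 < 1 + 1 / ‖joN x‖ ^ 2 := by positivity
  by_contra h3
  push Not at h3
  have := mul_nonneg h3 h2.le
  linarith

theorem g1_sin {x : ℂ} (hx : x ∈ Gx) (h2 : (joN x).re < 2) :
    0 < Real.sin (Real.pi / 2 * (joN x).re) := by
  have h := joN_re hx
  have hp := Real.pi_pos
  apply Real.sin_pos_of_pos_of_lt_pi
  · positivity
  · nlinarith

theorem Zx_im_neg {x : ℂ} (hx : x ∈ Gx) (h2 : (joN x).re < 2) (h : 0 < x.im) : (Zx x).im < 0 := by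
  rw [Zx_im]
  have h3 := g1_im_pos hx h
  have h4 : 0 < Real.sinh (Real.pi / 2 * (joN x).im) := by
    rw [Real.sinh_pos_iff]
    have := Real.pi_pos
    positivity
  have := mul_pos (g1_sin hx h2) h4
  linarith

theorem Zx_im_pos {x : ℂ} (hx : x ∈ Gx) (h2 : (joN x).re < 2) (h : x.im < 0) : 0 < (Zx x).im := by
  rw [Zx_im]
  have h3 := g1_im_neg hx h
  have h4 : Real.sinh (Real.pi / 2 * (joN x).im) < 0 := by
    rw [Real.sinh_neg_iff]
    have := Real.pi_pos
    exact mul_neg_of_pos_of_neg (by positivity) h3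
  have := mul_neg_of_pos_of_neg (g1_sin hx h2) h4
  linarith

theorem Zx_real {x : ℂ} (hx : x ∈ Gx) (h : x.im = 0) :
    (joN x).im = 0 ∧ Zx x = (Real.cos (Real.pi / 2 * (joN x).re) : ℝ) := by
  have h1 : (joN x).im = 0 := by
    have h1 := joN_im hx
    have h2 : 0 < 1 + 1 / ‖joN x‖ ^ 2 := by positivity
    rw [h, mul_zero] at h1
    rcases mul_eq_zero.1 h1.symm with h3 | h3
    · exact h3
    · exact absurd h3 h2.ne'
  refine ⟨h1, ?_⟩
  apply Complex.ext
  · rw [Zx_re, h1, mul_zero, Real.cosh_zero, mul_one, Complex.ofReal_re]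
  · rw [Zx_im, h1, mul_zero, Real.sinh_zero, mul_zero, neg_zero, Complex.ofReal_im]

end Pool.Agent.Choc.Nu
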