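import Pool.Agent.Lib.MP_2b3e36_an.Nu.E0
import Pool.Agent.Lib.MP_2b3e36_an.Nu.G1

/-!
E1. Soundness of the complex ball operations of `E0`.

`Mem z a`: `‖S z - (re + i im)‖ ≤ rad` (so `rad ≥ 0`). Floors: `|x/q - ⌊x/q⌋| ≤ 1` in both coordinates changes a
centre by at most `√2 ≤ 2`, the floor in the radius costs `1`; hence the `+ 3`.
mul: `Z₁ = S z₁`, `Z₂ = S z₂`, `‖Z₁ Z₂ - C₁ C₂‖ ≤ ‖C₁‖ r₂ + ‖C₂‖ r₁ + r₁ r₂`, divide by `S`.
inv: `W = S z`, centre `C`, `m = max |re| |im| ≤ ‖C‖`, `r < m`: `‖S²/W - S²/C‖ = S² ‖C - W‖/(‖W‖ ‖C‖) ≤`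
`S² r/((m - r) m)`; `S²/C = S² conj C/n`.
sqrt: `R = rt w`, `R² = w`, `Re R > 0` (`rt_sq`, `rt_re`), `s = s1 + i s2`, `s1 > 0`:
`‖S R - s‖ ‖S R + s‖ = ‖S (S w) - s²‖ ≤ S rad + |S re - (s1² - s2²)| + |S im - 2 s1 s2|` and
`‖S R + s‖ ≥ Re (S R + s) ≥ s1`. (The values of `isq` are irrelevant, `generalize` them.)
exp: `w = z/2^k`, `‖w‖ ≤ 1/2`, `tay` computes `Σ_{j<n} w^j (m-1)!/(m-1+j)!` (prove for the function
`T 0 m = 0`, `T (n+1) m = 1 + w/m T n (m+1)`, and `T n 1 = Σ_{j<n} w^j/j!`), `Complex.exp_bound` with `n = 12`: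
`‖exp w - Σ‖ ≤ (1/2)^12 · 13/(12! · 12)`, times `2^60` is `≤ 636600 ≤ 700000`. Then `k` squarings.
-/

set_option autoImplicit false

open Complex

namespace Pool.Agent.Choc.Nu

/-- The number `z` is in the ball `a`. -/
def CB.Mem (z : ℂ) (a : CB) : Prop := ‖(SC : ℂ) * z - (a.re + a.im * I)‖ ≤ a.rad

theorem rad_nonneg {z : ℂ} {a : CB} (h : a.Mem z) : 0 ≤ a.rad := by
  have h1 : (0 : ℝ) ≤ (a.rad : ℝ) := le_trans (norm_nonneg _) h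
  exact_mod_cast h1

theorem e1_fl (x : ℤ) {q : ℤ} (hq : 0 < q) :
    ((x / q : ℤ) : ℝ) ≤ (x : ℝ) / q ∧ (x : ℝ) / q < ((x / q : ℤ) : ℝ) + 1 := by
  have hq' : (0 : ℝ) < (q : ℝ) := by exact_mod_cast hq
  have h1 : q * (x / q) ≤ x := Int.mul_ediv_self_le hq.ne'
  have h2 : x < q * (x / q) + q := Int.lt_mul_ediv_self_add hq
  have h1' : (q : ℝ) * ((x / q : ℤ) : ℝ) ≤ (x : ℝ) := by exact_mod_cast h1
  have h2' : (x : ℝ) < (q : ℝ) * ((x / q : ℤ) : ℝ) + q := by exact_mod_cast h2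
  constructor
  · rw [le_div_iff₀ hq']
    linarith
  · rw [div_lt_iff₀ hq']
    linarith

/-- floors in both coordinates and in the radius -/
theorem e1_round {W : ℂ} {x y r q q' : ℤ} (hq : 0 < q) (hq' : 0 < q')
    (h : ‖W - (((x : ℝ) / q : ℝ) + ((y : ℝ) / q : ℝ) * I)‖ ≤ (r : ℝ) / q') :
    ‖W - (((x / q : ℤ) : ℂ) + ((y / q : ℤ) : ℂ) * I)‖ ≤ ((r / q' + 3 : ℤ) : ℝ) := by
  obtain ⟨hx1, hx2⟩ := e1_fl x hq
  obtain ⟨hy1, hy2⟩ := e1_fl y hq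
  obtain ⟨hr1, hr2⟩ := e1_fl r hq'
  obtain ⟨u, hu⟩ : ∃ u : ℝ, u = (x : ℝ) / q - ((x / q : ℤ) : ℝ) := ⟨_, rfl⟩
  obtain ⟨v, hv⟩ : ∃ v : ℝ, v = (y : ℝ) / q - ((y / q : ℤ) : ℝ) := ⟨_, rfl⟩
  have h1 : W - (((x / q : ℤ) : ℂ) + ((y / q : ℤ) : ℂ) * I) =
      (W - (((x : ℝ) / q : ℝ) + ((y : ℝ) / q : ℝ) * I)) + ((u : ℂ) + (v : ℂ) * I) := by
    rw [hu, hv]
    push_cast
    ring
  have h2 : ‖(u : ℂ) + (v : ℂ) * I‖ ≤ 2 := by
    refine (norm_add_le _ _).trans ?_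
    rw [norm_mul, Complex.norm_I, mul_one, Complex.norm_real, Complex.norm_real,
      Real.norm_eq_abs, Real.norm_eq_abs, abs_of_nonneg (by linarith), abs_of_nonneg (by linarith)]
    linarith
  rw [h1]
  refine (norm_add_le _ _).trans ?_
  have h3 : ((r / q' + 3 : ℤ) : ℝ) = ((r / q' : ℤ) : ℝ) + 3 := by push_cast; ring
  rw [h3]
  linarith

theorem e1_ab (x : ℤ) : ((ab x : ℤ) : ℝ) = |(x : ℝ)| := by
  unfold ab
  rw [Int.natCast_natAbs, Int.cast_abs]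

theorem e1_SC : (0 : ℝ) < (SC : ℝ) := by
  have : (0 : ℤ) < SC := by unfold SC; norm_num
  exact_mod_cast this

theorem e1_SCz : (0 : ℤ) < SC := by unfold SC; norm_num

theorem e1_nSC : ‖(SC : ℂ)‖ = (SC : ℝ) := by
  rw [Complex.norm_intCast, abs_of_pos e1_SC]

theorem e1_ctr (x y : ℤ) : ‖(x : ℂ) + (y : ℂ) * I‖ ≤ |(x : ℝ)| + |(y : ℝ)| := by
  refine (norm_add_le _ _).trans ?_
  rw [norm_mul, Complex.norm_I, mul_one, Complex.norm_intCast, Complex.norm_intCast]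

theorem e1_re (x y : ℤ) : ((x : ℂ) + (y : ℂ) * I).re = x := by simp

theorem e1_im (x y : ℤ) : ((x : ℂ) + (y : ℂ) * I).im = y := by simp

theorem mem_add {z w : ℂ} {a b : CB} (h : a.Mem z) (h' : b.Mem w) : (a.add b).Mem (z + w) := by
  unfold CB.Mem at *
  have h1 : (SC : ℂ) * (z + w) - (((a.add b).re : ℂ) + ((a.add b).im : ℂ) * I) =
      ((SC : ℂ) * z - (a.re + a.im * I)) + ((SC : ℂ) * w - (b.re + b.im * I)) := by
    show (SC : ℂ) * (z + w) - (((a.re + b.re : ℤ) : ℂ) + ((a.im + b.im : ℤ) : ℂ) * I) = _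
    push_cast
    ring
  rw [h1]
  refine (norm_add_le _ _).trans ?_
  have h2 : (((a.add b).rad : ℤ) : ℝ) = (a.rad : ℝ) + b.rad := by
    show (((a.rad + b.rad : ℤ)) : ℝ) = _
    push_cast
    ring
  rw [h2]
  linarith

theorem mem_add1 {z : ℂ} {a : CB} (h : a.Mem z) : a.add1.Mem (z + 1) := by
  unfold CB.Mem at *
  have h1 : (SC : ℂ) * (z + 1) - ((a.add1.re : ℂ) + (a.add1.im : ℂ) * I) =
      (SC : ℂ) * z - (a.re + a.im * I) := by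
    show (SC : ℂ) * (z + 1) - (((a.re + SC : ℤ) : ℂ) + (a.im : ℂ) * I) = _
    push_cast
    ring
  rw [h1]
  exact h

theorem mem_sub1 {z : ℂ} {a : CB} (h : a.Mem z) : a.sub1.Mem (z - 1) := by
  unfold CB.Mem at *
  have h1 : (SC : ℂ) * (z - 1) - ((a.sub1.re : ℂ) + (a.sub1.im : ℂ) * I) =
      (SC : ℂ) * z - (a.re + a.im * I) := by
    show (SC : ℂ) * (z - 1) - (((a.re - SC : ℤ) : ℂ) + (a.im : ℂ) * I) = _
    push_cast
    ring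
  rw [h1]
  exact h

theorem mem_mulI {z : ℂ} {a : CB} (h : a.Mem z) : a.mulI.Mem (I * z) := by
  unfold CB.Mem at *
  have h1 : (SC : ℂ) * (I * z) - ((a.mulI.re : ℂ) + (a.mulI.im : ℂ) * I) =
      I * ((SC : ℂ) * z - (a.re + a.im * I)) := by
    show (SC : ℂ) * (I * z) - (((-a.im : ℤ) : ℂ) + (a.re : ℂ) * I) = _
    have hI : I * I = -1 := Complex.I_mul_I
    push_cast
    linear_combination (a.im : ℂ) * hI
  rw [h1, norm_mul, Complex.norm_I, one_mul]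
  exact h

theorem mem_mul {z w : ℂ} {a b : CB} (h : a.Mem z) (h' : b.Mem w) : (a.mul b).Mem (z * w) := by
  have hra : (0 : ℝ) ≤ a.rad := by exact_mod_cast rad_nonneg h
  have hrb : (0 : ℝ) ≤ b.rad := by exact_mod_cast rad_nonneg h'
  unfold CB.Mem at h h'
  show ‖(SC : ℂ) * (z * w) - ((((a.re * b.re - a.im * b.im) / SC : ℤ) : ℂ) +
    (((a.re * b.im + a.im * b.re) / SC : ℤ) : ℂ) * I)‖ ≤
    ((((ab a.re + ab a.im) * b.rad + (ab b.re + ab b.im) * a.rad + a.rad * b.rad) / SC + 3 : ℤ) : ℝ)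
  refine e1_round e1_SCz e1_SCz ?_
  have hS := e1_SC
  have hS0 : (SC : ℂ) ≠ 0 := by exact_mod_cast e1_SCz.ne'
  obtain ⟨A, hA⟩ : ∃ A : ℂ, A = (a.re : ℂ) + a.im * I := ⟨_, rfl⟩
  obtain ⟨B, hB⟩ : ∃ B : ℂ, B = (b.re : ℂ) + b.im * I := ⟨_, rfl⟩
  rw [← hA] at h
  rw [← hB] at h'
  have h1 : (SC : ℂ) * (z * w) - ((((a.re * b.re - a.im * b.im : ℤ) : ℝ) / (SC : ℝ) : ℝ) +
      (((a.re * b.im + a.im * b.re : ℤ) : ℝ) / (SC : ℝ) : ℝ) * I) =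
      (((SC : ℂ) * z - A) * ((SC : ℂ) * w - B) + A * ((SC : ℂ) * w - B) +
        ((SC : ℂ) * z - A) * B) / (SC : ℂ) := by
    rw [eq_div_iff hS0, hA, hB]
    have hI : I * I = -1 := Complex.I_mul_I
    push_cast
    field_simp
    linear_combination ((a.im : ℂ) * (b.im : ℂ)) * hI
  rw [h1, norm_div, e1_nSC]
  refine div_le_div_of_nonneg_right ?_ hS.le
  have hAn : ‖A‖ ≤ |(a.re : ℝ)| + |(a.im : ℝ)| := by rw [hA]; exact e1_ctr _ _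
  have hBn : ‖B‖ ≤ |(b.re : ℝ)| + |(b.im : ℝ)| := by rw [hB]; exact e1_ctr _ _
  have h2 : ‖((SC : ℂ) * z - A) * ((SC : ℂ) * w - B) + A * ((SC : ℂ) * w - B) +
        ((SC : ℂ) * z - A) * B‖ ≤ a.rad * b.rad + (|(a.re : ℝ)| + |(a.im : ℝ)|) * b.rad +
        a.rad * (|(b.re : ℝ)| + |(b.im : ℝ)|) := by
    refine (norm_add_le _ _).trans (add_le_add ((norm_add_le _ _).trans (add_le_add ?_ ?_)) ?_)
    · rw [norm_mul]
      exact mul_le_mul h h' (norm_nonneg _) hra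
    · rw [norm_mul]
      exact mul_le_mul hAn h' (norm_nonneg _) (by positivity)
    · rw [norm_mul]
      exact mul_le_mul h hBn (norm_nonneg _) hra
  refine h2.trans (le_of_eq ?_)
  push_cast
  rw [e1_ab, e1_ab, e1_ab, e1_ab]
  ring

theorem mem_rat {z : ℂ} {a : CB} (h : a.Mem z) {p q : ℤ} (hp : 0 ≤ p) (hq : 0 < q) :
    (a.rat p q).Mem (z * (p / q)) := by
  unfold CB.Mem at h
  show ‖(SC : ℂ) * (z * (p / q)) - (((a.re * p / q : ℤ) : ℂ) + ((a.im * p / q : ℤ) : ℂ) * I)‖ ≤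
    ((a.rad * p / q + 3 : ℤ) : ℝ)
  refine e1_round hq hq ?_
  have hq' : (0 : ℝ) < (q : ℝ) := by exact_mod_cast hq
  have hp' : (0 : ℝ) ≤ (p : ℝ) := by exact_mod_cast hp
  have hq0 : (q : ℂ) ≠ 0 := by exact_mod_cast hq.ne'
  have h1 : (SC : ℂ) * (z * (p / q)) - ((((a.re * p : ℤ) : ℝ) / (q : ℝ) : ℝ) +
      (((a.im * p : ℤ) : ℝ) / (q : ℝ) : ℝ) * I) =
      ((SC : ℂ) * z - (a.re + a.im * I)) * (p : ℂ) / (q : ℂ) := by
    rw [eq_div_iff hq0]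
    push_cast
    field_simp
  rw [h1, norm_div, norm_mul, Complex.norm_intCast, Complex.norm_intCast, abs_of_pos hq',
    abs_of_nonneg hp']
  refine div_le_div_of_nonneg_right ?_ hq'.le
  push_cast
  exact mul_le_mul_of_nonneg_right h hp'

theorem mem_inv {z : ℂ} {a b : CB} (h : a.Mem z) (hb : a.inv = some b) : z ≠ 0 ∧ b.Mem z⁻¹ := by
  have hr0z := rad_nonneg h
  have hr0 : (0 : ℝ) ≤ a.rad := by exact_mod_cast hr0z
  unfold CB.Mem at h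
  unfold CB.inv at hb
  dsimp only at hb
  split_ifs at hb with hm
  obtain ⟨m, hmd⟩ : ∃ m : ℤ, m = max (ab a.re) (ab a.im) := ⟨_, rfl⟩
  rw [← hmd] at hm hb
  have hS := e1_SC
  have hS0 : (SC : ℂ) ≠ 0 := by exact_mod_cast e1_SCz.ne'
  obtain ⟨C, hC⟩ : ∃ C : ℂ, C = (a.re : ℂ) + a.im * I := ⟨_, rfl⟩
  rw [← hC] at h
  have hmR : (a.rad : ℝ) < (m : ℝ) := by exact_mod_cast hm
  have hmC : (m : ℝ) ≤ ‖C‖ := by
    have h1 : (m : ℝ) = max |(a.re : ℝ)| |(a.im : ℝ)| := by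
      rw [hmd, Int.cast_max, e1_ab, e1_ab]
    rw [h1]
    refine max_le ?_ ?_
    · have := Complex.abs_re_le_norm C
      rwa [hC, e1_re, ← hC] at this
    · have := Complex.abs_im_le_norm C
      rwa [hC, e1_im, ← hC] at this
  have hW : (m : ℝ) - a.rad ≤ ‖(SC : ℂ) * z‖ := by
    have h1 : ‖C‖ ≤ ‖(SC : ℂ) * z‖ + ‖(SC : ℂ) * z - C‖ := by
      have : C = (SC : ℂ) * z - ((SC : ℂ) * z - C) := by ring
      calc ‖C‖ = ‖(SC : ℂ) * z - ((SC : ℂ) * z - C)‖ := by rw [← this]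
        _ ≤ _ := norm_sub_le _ _
    linarith
  have hWpos : 0 < ‖(SC : ℂ) * z‖ := by linarith
  have hCpos : 0 < ‖C‖ := by linarith
  have hW0 : (SC : ℂ) * z ≠ 0 := norm_pos_iff.1 hWpos
  have hz : z ≠ 0 := by
    rintro rfl
    simp at hW0
  have hC0 : C ≠ 0 := norm_pos_iff.1 hCpos
  refine ⟨hz, ?_⟩
  have hb' := Option.some.inj hb
  rw [← hb']
  show ‖(SC : ℂ) * z⁻¹ - (((SC * SC * a.re / (a.re * a.re + a.im * a.im) : ℤ) : ℂ) +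
    ((-(SC * SC * a.im / (a.re * a.re + a.im * a.im)) : ℤ) : ℂ) * I)‖ ≤
    ((SC * SC * a.rad / ((m - a.rad) * m) + 3 : ℤ) : ℝ)
  have hn : 0 < a.re * a.re + a.im * a.im := by
    have h1 : (a.re : ℝ) * a.re + (a.im : ℝ) * a.im = ‖C‖ ^ 2 := by
      rw [← Complex.normSq_eq_norm_sq, Complex.normSq_apply, hC, e1_re, e1_im]
    have h2 : (0 : ℝ) < (a.re : ℝ) * a.re + (a.im : ℝ) * a.im := by rw [h1]; positivity
    exact_mod_cast h2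
  have hmm : 0 < (m - a.rad) * m := mul_pos (by linarith) (by linarith)
  -- conjugate everything
  have hconj : ‖(SC : ℂ) * z⁻¹ - (((SC * SC * a.re / (a.re * a.re + a.im * a.im) : ℤ) : ℂ) +
      ((-(SC * SC * a.im / (a.re * a.re + a.im * a.im)) : ℤ) : ℂ) * I)‖ =
      ‖(starRingEnd ℂ) ((SC : ℂ) * z⁻¹) -
        (((SC * SC * a.re / (a.re * a.re + a.im * a.im) : ℤ) : ℂ) +
        ((SC * SC * a.im / (a.re * a.re + a.im * a.im) : ℤ) : ℂ) * I)‖ := by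
    rw [← RCLike.norm_conj ((SC : ℂ) * z⁻¹ - _), map_sub]
    congr 2
    rw [map_add, map_mul, Complex.conj_I]
    simp
  rw [hconj]
  refine e1_round hn hmm ?_
  have h3 : ((((SC * SC * a.re : ℤ) : ℝ) / ((a.re * a.re + a.im * a.im : ℤ) : ℝ) : ℝ) : ℂ) +
      ((((SC * SC * a.im : ℤ) : ℝ) / ((a.re * a.re + a.im * a.im : ℤ) : ℝ) : ℝ) : ℂ) * I =
      (starRingEnd ℂ) ((SC : ℂ) * (SC : ℂ) / C) := by
    have hCC : C * (starRingEnd ℂ) C = ((a.re * a.re + a.im * a.im : ℤ) : ℂ) := by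
      rw [Complex.mul_conj, Complex.normSq_apply, hC, e1_re, e1_im]
      push_cast
      ring
    have hcC0 : (starRingEnd ℂ) C ≠ 0 := (map_ne_zero _).2 hC0
    rw [map_div₀, map_mul, map_intCast, eq_div_iff hcC0]
    have hn0 : ((a.re * a.re + a.im * a.im : ℤ) : ℂ) ≠ 0 := by exact_mod_cast hn.ne'
    have h4 : (starRingEnd ℂ) C = ((a.re * a.re + a.im * a.im : ℤ) : ℂ) / C := by
      rw [eq_div_iff hC0, mul_comm]
      exact hCC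
    have h5 : ((((SC * SC * a.re : ℤ) : ℝ) / ((a.re * a.re + a.im * a.im : ℤ) : ℝ) : ℝ) : ℂ) +
      ((((SC * SC * a.im : ℤ) : ℝ) / ((a.re * a.re + a.im * a.im : ℤ) : ℝ) : ℝ) : ℂ) * I =
      (SC : ℂ) * (SC : ℂ) * C / ((a.re * a.re + a.im * a.im : ℤ) : ℂ) := by
      rw [hC]
      push_cast
      ring
    rw [h5, h4]
    field_simp
  rw [h3, ← map_sub, RCLike.norm_conj]
  have h6 : (SC : ℂ) * z⁻¹ - (SC : ℂ) * (SC : ℂ) / C =
      (SC : ℂ) * (SC : ℂ) * (-((SC : ℂ) * z - C)) / (((SC : ℂ) * z) * C) := by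
    field_simp
    ring
  rw [h6, norm_div, norm_mul, norm_mul, norm_mul, norm_neg, e1_nSC]
  have h7 : (((m - a.rad) * m : ℤ) : ℝ) ≤ ‖(SC : ℂ) * z‖ * ‖C‖ := by
    push_cast
    exact mul_le_mul hW hmC (by linarith) hWpos.le
  have h8 : (0 : ℝ) < (((m - a.rad) * m : ℤ) : ℝ) := by exact_mod_cast hmm
  have h9 : (((SC * SC * a.rad : ℤ)) : ℝ) = (SC : ℝ) * SC * a.rad := by push_cast; ring
  rw [h9]
  exact div_le_div₀ (by positivity) (mul_le_mul_of_nonneg_left h (by positivity)) h8 h7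

theorem mem_sqrt {w : ℂ} {a b : CB} (h : a.Mem w) (hb : a.sqrt = some b) (hw : w ∈ slitPlane) :
    b.Mem (rt w) := by
  unfold CB.Mem at h
  unfold CB.sqrt at hb
  dsimp only at hb
  obtain ⟨s1, hs1⟩ : ∃ s : ℤ, s = isq ((isq (a.re * a.re + a.im * a.im) + a.re) * SC / 2) := ⟨_, rfl⟩
  rw [← hs1] at hb
  obtain ⟨s2, hs2⟩ : ∃ s : ℤ, s = a.im * SC / (2 * s1) := ⟨_, rfl⟩
  rw [← hs2] at hb
  clear hs1 hs2
  split_ifs at hb with hpos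
  have hb' := Option.some.inj hb
  rw [← hb']
  have hw0 : w ≠ 0 := Complex.slitPlane_ne_zero hw
  obtain ⟨R, hR⟩ : ∃ R : ℂ, R = rt w := ⟨_, rfl⟩
  have hR2 : R ^ 2 = w := by rw [hR]; exact rt_sq hw0
  have hRre : 0 < R.re := by rw [hR]; exact rt_re hw
  rw [← hR]
  obtain ⟨s, hs⟩ : ∃ s : ℂ, s = (s1 : ℂ) + (s2 : ℂ) * I := ⟨_, rfl⟩
  show ‖(SC : ℂ) * R - ((s1 : ℂ) + (s2 : ℂ) * I)‖ ≤
    (((SC * a.rad + ab (SC * a.re - (s1 * s1 - s2 * s2)) + ab (SC * a.im - 2 * s1 * s2)) / s1 + 1 : ℤ) : ℝ)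
  rw [← hs]
  have hS := e1_SC
  have hp : (0 : ℝ) < (s1 : ℝ) := by exact_mod_cast hpos
  have h1 : (s1 : ℝ) ≤ ‖(SC : ℂ) * R + s‖ := by
    refine le_trans ?_ (Complex.re_le_norm _)
    have : ((SC : ℂ) * R + s).re = (SC : ℝ) * R.re + s1 := by
      rw [Complex.add_re, hs, e1_re, Complex.mul_re, Complex.intCast_re, Complex.intCast_im]
      ring
    rw [this]
    have := mul_pos hS hRre
    linarith
  have h2 : ‖(SC : ℂ) * R - s‖ * ‖(SC : ℂ) * R + s‖ ≤ (SC : ℝ) * a.rad +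
      |((SC * a.re - (s1 * s1 - s2 * s2) : ℤ) : ℝ)| + |((SC * a.im - 2 * s1 * s2 : ℤ) : ℝ)| := by
    rw [← norm_mul]
    have h3 : ((SC : ℂ) * R - s) * ((SC : ℂ) * R + s) =
        (SC : ℂ) * ((SC : ℂ) * w - (a.re + a.im * I)) +
        (((SC * a.re - (s1 * s1 - s2 * s2) : ℤ) : ℂ) + ((SC * a.im - 2 * s1 * s2 : ℤ) : ℂ) * I) := by
      rw [hs, ← hR2]
      have hI : I * I = -1 := Complex.I_mul_I
      push_cast
      linear_combination (-(s2 : ℂ) * s2) * hI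
    rw [h3]
    refine (norm_add_le _ _).trans ?_
    rw [norm_mul, e1_nSC]
    have h4 := e1_ctr (SC * a.re - (s1 * s1 - s2 * s2)) (SC * a.im - 2 * s1 * s2)
    have h5 : (SC : ℝ) * ‖(SC : ℂ) * w - (a.re + a.im * I)‖ ≤ (SC : ℝ) * a.rad :=
      mul_le_mul_of_nonneg_left h hS.le
    linarith
  obtain ⟨Tz, hTz⟩ : ∃ t : ℤ, t = SC * a.rad + ab (SC * a.re - (s1 * s1 - s2 * s2)) +
    ab (SC * a.im - 2 * s1 * s2) := ⟨_, rfl⟩
  rw [← hTz]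
  have h6 : ‖(SC : ℂ) * R - s‖ * (s1 : ℝ) ≤ (Tz : ℝ) := by
    have h7 : (Tz : ℝ) = (SC : ℝ) * a.rad +
      |((SC * a.re - (s1 * s1 - s2 * s2) : ℤ) : ℝ)| + |((SC * a.im - 2 * s1 * s2 : ℤ) : ℝ)| := by
      rw [hTz, Int.cast_add, Int.cast_add, e1_ab, e1_ab, Int.cast_mul]
    rw [h7]
    exact (mul_le_mul_of_nonneg_left h1 (norm_nonneg _)).trans h2
  obtain ⟨-, h8⟩ := e1_fl Tz hpos
  rw [Int.cast_add, Int.cast_one]
  refine le_trans ?_ h8.le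
  rw [le_div_iff₀ hp]
  exact h6

/-- the Taylor polynomials in Horner form -/
noncomputable def e1_T (ζ : ℂ) : ℕ → ℕ → ℂ
  | 0, _ => 0
  | n + 1, m => ζ * e1_T ζ n (m + 1) * (((1 : ℤ) : ℂ) / ((m : ℤ) : ℂ)) + 1

theorem e1_tay {ζ : ℂ} {w : CB} (h : w.Mem ζ) : ∀ (n m : ℕ), 0 < m →
    (w.tay n m).Mem (e1_T ζ n m) := by
  intro n
  induction n with
  | zero =>
    intro m _
    unfold CB.Mem
    show ‖(SC : ℂ) * (0 : ℂ) - (((0 : ℤ) : ℂ) + ((0 : ℤ) : ℂ) * I)‖ ≤ ((0 : ℤ) : ℝ)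
    simp
  | succ n ih =>
    intro m hm
    exact mem_add1 (mem_rat (mem_mul h (ih (m + 1) (Nat.succ_pos m))) zero_le_one
      (by exact_mod_cast hm))

theorem e1_T12 (ζ : ℂ) : e1_T ζ 12 1 = ∑ m ∈ Finset.range 12, ζ ^ m / (m.factorial : ℂ) := by
  simp only [e1_T, Finset.sum_range_succ, Finset.sum_range_zero, Nat.factorial]
  push_cast
  ring

theorem e1_sqs : ∀ (k : ℕ) {a : CB} {v : ℂ}, a.Mem v → (CB.sqs k a).Mem (v ^ (2 ^ k)) := by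
  intro k
  induction k with
  | zero =>
    intro a v h
    simpa [CB.sqs] using h
  | succ k ih =>
    intro a v h
    have h1 := ih (mem_mul h h)
    have h2 : (v * v) ^ (2 ^ k) = v ^ (2 ^ (k + 1)) := by
      rw [← pow_two, ← pow_mul, pow_succ, mul_comm]
    rw [h2] at h1
    exact h1

theorem e1_exp_core {ζ : ℂ} {w : CB} (h : w.Mem ζ)
    (hw : 2 * (ab w.re + ab w.im + w.rad) ≤ SC) :
    (CB.mk (w.tay 12 1).re (w.tay 12 1).im ((w.tay 12 1).rad + 700000)).Mem (Complex.exp ζ) := by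
  have hS := e1_SC
  have hn : ‖ζ‖ ≤ 1 / 2 := by
    have h1 : ‖(SC : ℂ) * ζ‖ ≤ |(w.re : ℝ)| + |(w.im : ℝ)| + w.rad := by
      have h2 : (SC : ℂ) * ζ = ((SC : ℂ) * ζ - (w.re + w.im * I)) + (w.re + w.im * I) := by ring
      rw [h2]
      refine (norm_add_le _ _).trans ?_
      have h3 := e1_ctr w.re w.im
      have h4 : ‖(SC : ℂ) * ζ - (w.re + w.im * I)‖ ≤ w.rad := h
      linarith
    have h5 : 2 * (|(w.re : ℝ)| + |(w.im : ℝ)| + w.rad) ≤ (SC : ℝ) := by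
      have h6 : ((2 * (ab w.re + ab w.im + w.rad) : ℤ) : ℝ) ≤ (SC : ℝ) := by exact_mod_cast hw
      push_cast at h6
      rw [e1_ab, e1_ab] at h6
      exact h6
    rw [norm_mul, e1_nSC] at h1
    have h7 : (SC : ℝ) * ‖ζ‖ ≤ (SC : ℝ) * (1 / 2) := by linarith
    exact le_of_mul_le_mul_left h7 hS
  have ht := e1_tay h 12 1 one_pos
  rw [e1_T12] at ht
  have hb := Complex.exp_bound (x := ζ) (by linarith) (n := 12) (by norm_num)
  have hb2 : (SC : ℝ) * ‖Complex.exp ζ - ∑ m ∈ Finset.range 12, ζ ^ m / (m.factorial : ℂ)‖ ≤ 700000 := by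
    have h1 : ‖ζ‖ ^ 12 ≤ (1 / 2 : ℝ) ^ 12 := pow_le_pow_left₀ (norm_nonneg _) hn 12
    have h2 : ‖ζ‖ ^ 12 * (((Nat.succ 12 : ℕ) : ℝ) * (((Nat.factorial 12 : ℕ) : ℝ) * ((12 : ℕ) : ℝ))⁻¹) ≤
        (1 / 2 : ℝ) ^ 12 * (((Nat.succ 12 : ℕ) : ℝ) * (((Nat.factorial 12 : ℕ) : ℝ) * ((12 : ℕ) : ℝ))⁻¹) :=
      mul_le_mul_of_nonneg_right h1 (by positivity)
    have h3 : (SC : ℝ) * ((1 / 2 : ℝ) ^ 12 *
        (((Nat.succ 12 : ℕ) : ℝ) * (((Nat.factorial 12 : ℕ) : ℝ) * ((12 : ℕ) : ℝ))⁻¹)) ≤ 700000 := by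
      have : (SC : ℝ) = 1152921504606846976 := by unfold SC; norm_num
      rw [this]
      norm_num [Nat.factorial]
    exact (mul_le_mul_of_nonneg_left (hb.trans h2) hS.le).trans h3
  unfold CB.Mem at ht ⊢
  have h4 : (SC : ℂ) * Complex.exp ζ - (((w.tay 12 1).re : ℂ) + ((w.tay 12 1).im : ℂ) * I) =
      (SC : ℂ) * (Complex.exp ζ - ∑ m ∈ Finset.range 12, ζ ^ m / (m.factorial : ℂ)) +
      ((SC : ℂ) * (∑ m ∈ Finset.range 12, ζ ^ m / (m.factorial : ℂ)) -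
        (((w.tay 12 1).re : ℂ) + ((w.tay 12 1).im : ℂ) * I)) := by ring
  show ‖(SC : ℂ) * Complex.exp ζ - (((w.tay 12 1).re : ℂ) + ((w.tay 12 1).im : ℂ) * I)‖ ≤
    (((w.tay 12 1).rad + 700000 : ℤ) : ℝ)
  rw [h4]
  refine (norm_add_le _ _).trans ?_
  rw [norm_mul, e1_nSC, Int.cast_add]
  have h5 : ((700000 : ℤ) : ℝ) = 700000 := by norm_num
  rw [h5]
  linarith

theorem mem_exp {z : ℂ} {a b : CB} (h : a.Mem z) {k : ℕ} (hb : a.exp k = some b) :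
    b.Mem (exp z) := by
  unfold CB.exp at hb
  dsimp only at hb
  split_ifs at hb with hw
  have hb' := Option.some.inj hb
  rw [← hb']
  have hq : (0 : ℤ) < 2 ^ k := by positivity
  have h1 : (a.rat 1 (2 ^ k)).Mem (z * (((1 : ℤ) : ℂ) / ((2 ^ k : ℤ) : ℂ))) :=
    mem_rat h zero_le_one hq
  have h2 := e1_sqs k (e1_exp_core h1 hw)
  have h3 : Complex.exp (z * (((1 : ℤ) : ℂ) / ((2 ^ k : ℤ) : ℂ))) ^ (2 ^ k) = Complex.exp z := by
    rw [← Complex.exp_nat_mul]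
    congr 1
    have h4 : (2 : ℂ) ^ k ≠ 0 := pow_ne_zero _ two_ne_zero
    push_cast
    field_simp
  rw [h3] at h2
  exact h2

/-- enlarging the radius -/
theorem mem_mono {z : ℂ} {a b : CB} (h : a.Mem z) (h1 : a.re = b.re) (h2 : a.im = b.im)
    (h3 : a.rad ≤ b.rad) : b.Mem z := by
  unfold CB.Mem at *
  rw [← h1, ← h2]
  refine h.trans ?_
  exact_mod_cast h3

end Pool.Agent.Choc.Nu
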