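import Pool.Agent.Lib.MP_2b3e36_an.Nu.E0
import Pool.Agent.Lib.MP_2b3e36_an.Nu.Defs

/-!
E2. Soundness of `atpos` and `larg`.

`0 ≤ n ≤ d`, `i = ⌊(16 n + d)/(2d)⌋ ∈ {0, .., 8}`, `|8 n - i d| ≤ d/2`; `arctan (n/d) = arctan (i/8) + arctan ξ`,
`ξ = (8n - i d)/(8d + i n)`, `|ξ| ≤ 1/16` (`Real.arctan_add`, or `Real.arctan_sub`..).
Series: `|arctan ξ - (ξ - ξ³/3 + ξ⁵/5 - ξ⁷/7 + ξ⁹/9)| ≤ |ξ|^11/10` (`Real.hasSum_arctan`, or the derivative: the
difference has derivative `1/(1+ξ²) - (1 - ξ² + ξ⁴ - ξ⁶ + ξ⁸) = - ξ^10/(1+ξ²)`).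
Rounding: `x = S ξ + δ`, `|δ| ≤ 1`; `x2 = S ξ² + δ'`, `|δ'| ≤ 2`; every Horner step
`y ↦ ⌊S/m⌋ - ⌊x2 y/S⌋` has error `≤ 3` (with `|y/S| ≤ 1`, `|x2/S| ≤ 1/200`), the last steps `x y/S`, `· IPI/S` too.
Constants: `|S arctan (i/8)/π - ATt i| ≤ 2` and `|S/π - IPI| ≤ 1` (`Real.pi_gt_d20`, `Real.pi_lt_d20`);
`arctan (i/8)` for `i ≤ 4` by the series with 30 terms (general truncation bound), for `i = 5, 6, 7` from
`arctan (1/2) + arctan ((i/8 - 1/2)/(1 + i/16))`, `arctan 1 = π/4`. Total error `≤ 2 + 10 + 2000 ≤ 4096`, since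
`S (1/16)^11/10/π ≤ 2100`.
larg: for `y > 0`, `- arg (x - i y) = π/2 - arctan (x/y)`; with `arctan (x/y) = π/2 - arctan (y/x)` for `x > 0` and
`= - π/2 - arctan (y/x)` for `x < 0`, arctan odd.
-/

set_option autoImplicit false

open Complex

namespace Pool.Agent.Choc.Nu

/-- The partial sums of the arctangent series. -/
noncomputable def e2_P (n : ℕ) (t : ℝ) : ℝ :=
  ∑ k ∈ Finset.range n, (-1) ^ k * t ^ (2 * k + 1) / ((2 * k + 1 : ℕ) : ℝ)

theorem e2_P_deriv (n : ℕ) (t : ℝ) :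
    HasDerivAt (e2_P n) ((1 - (-t ^ 2) ^ n) / (1 + t ^ 2)) t := by
  have h1 : HasDerivAt (e2_P n) (∑ k ∈ Finset.range n, (-t ^ 2) ^ k) t := by
    unfold e2_P
    refine HasDerivAt.fun_sum fun k _ => ?_
    have h2 : HasDerivAt (fun t : ℝ => t ^ (2 * k + 1)) (((2 * k + 1 : ℕ) : ℝ) * t ^ (2 * k)) t := by
      simpa using hasDerivAt_pow (2 * k + 1) t
    have h3 := (h2.const_mul ((-1 : ℝ) ^ k)).div_const ((2 * k + 1 : ℕ) : ℝ)
    have h4 : (-1 : ℝ) ^ k * (((2 * k + 1 : ℕ) : ℝ) * t ^ (2 * k)) / ((2 * k + 1 : ℕ) : ℝ) =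
        (-t ^ 2) ^ k := by
      have h5 : ((2 * k + 1 : ℕ) : ℝ) ≠ 0 := by positivity
      have h6 : (-t ^ 2) ^ k = (-1) ^ k * t ^ (2 * k) := by
        rw [neg_pow, ← pow_mul]
      rw [h6]
      field_simp
    rw [h4] at h3
    exact h3
  have h2 : (∑ k ∈ Finset.range n, (-t ^ 2) ^ k) = (1 - (-t ^ 2) ^ n) / (1 + t ^ 2) := by
    have hne : (-t ^ 2 : ℝ) ≠ 1 := by nlinarith [sq_nonneg t]
    rw [geom_sum_eq hne]
    have h3 : (1 + t ^ 2 : ℝ) ≠ 0 := by positivity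
    have h4 : (-t ^ 2 - 1 : ℝ) ≠ 0 := by nlinarith [sq_nonneg t]
    rw [div_eq_div_iff h4 h3]
    ring
  rw [h2] at h1
  exact h1

theorem e2_series (n : ℕ) (t : ℝ) :
    |Real.arctan t - e2_P n t| ≤ |t| ^ (2 * n + 1) / ((2 * n + 1 : ℕ) : ℝ) := by
  have hd : ∀ t : ℝ, HasDerivAt (fun t => Real.arctan t - e2_P n t) ((-t ^ 2) ^ n / (1 + t ^ 2)) t := by
    intro t
    have h1 := (Real.hasDerivAt_arctan t).sub (e2_P_deriv n t)
    have h2 : 1 / (1 + t ^ 2) - (1 - (-t ^ 2) ^ n) / (1 + t ^ 2) = (-t ^ 2) ^ n / (1 + t ^ 2) := by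
      ring
    rw [h2] at h1
    exact h1
  have hp : ∀ t : ℝ, HasDerivAt (fun t : ℝ => t ^ (2 * n + 1) / ((2 * n + 1 : ℕ) : ℝ)) (t ^ (2 * n)) t := by
    intro t
    have h2 : HasDerivAt (fun t : ℝ => t ^ (2 * n + 1)) (((2 * n + 1 : ℕ) : ℝ) * t ^ (2 * n)) t := by
      simpa using hasDerivAt_pow (2 * n + 1) t
    have h3 := h2.div_const ((2 * n + 1 : ℕ) : ℝ)
    have h5 : ((2 * n + 1 : ℕ) : ℝ) ≠ 0 := by positivity
    have h4 : ((2 * n + 1 : ℕ) : ℝ) * t ^ (2 * n) / ((2 * n + 1 : ℕ) : ℝ) = t ^ (2 * n) := by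
      field_simp
    rw [h4] at h3
    exact h3
  have habs : ∀ t : ℝ, |(-t ^ 2) ^ n / (1 + t ^ 2)| ≤ t ^ (2 * n) := by
    intro t
    rw [abs_div, abs_pow, abs_neg, abs_of_nonneg (sq_nonneg t), ← pow_mul,
      abs_of_pos (by positivity : (0 : ℝ) < 1 + t ^ 2)]
    refine div_le_self (by rw [pow_mul]; positivity) ?_
    nlinarith [sq_nonneg t]
  have hm1 : Monotone (fun t : ℝ => t ^ (2 * n + 1) / ((2 * n + 1 : ℕ) : ℝ) -
      (Real.arctan t - e2_P n t)) := by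
    refine monotone_of_hasDerivAt_nonneg (fun t => (hp t).sub (hd t)) ?_
    intro t
    have := habs t
    rw [abs_le] at this
    show (0 : ℝ) ≤ t ^ (2 * n) - (-t ^ 2) ^ n / (1 + t ^ 2)
    linarith [this.2]
  have hm2 : Monotone (fun t : ℝ => t ^ (2 * n + 1) / ((2 * n + 1 : ℕ) : ℝ) +
      (Real.arctan t - e2_P n t)) := by
    refine monotone_of_hasDerivAt_nonneg (fun t => (hp t).add (hd t)) ?_
    intro t
    have := habs t
    rw [abs_le] at this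
    show (0 : ℝ) ≤ t ^ (2 * n) + (-t ^ 2) ^ n / (1 + t ^ 2)
    linarith [this.1]
  have h0 : e2_P n 0 = 0 := by
    unfold e2_P
    refine Finset.sum_eq_zero fun k _ => ?_
    simp
  have hz1 : (0 : ℝ) ^ (2 * n + 1) / ((2 * n + 1 : ℕ) : ℝ) - (Real.arctan 0 - e2_P n 0) = 0 := by
    rw [h0, Real.arctan_zero]
    simp
  have hz2 : (0 : ℝ) ^ (2 * n + 1) / ((2 * n + 1 : ℕ) : ℝ) + (Real.arctan 0 - e2_P n 0) = 0 := by
    rw [h0, Real.arctan_zero]
    simp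
  rcases le_total 0 t with ht | ht
  · have h1 := hm1 ht
    have h2 := hm2 ht
    dsimp only at h1 h2
    rw [hz1] at h1
    rw [hz2] at h2
    rw [abs_of_nonneg ht, abs_le]
    constructor <;> linarith
  · have h1 := hm1 ht
    have h2 := hm2 ht
    dsimp only at h1 h2
    rw [hz1] at h1
    rw [hz2] at h2
    have h3 : |t| ^ (2 * n + 1) = -t ^ (2 * n + 1) := by
      rw [abs_of_nonpos ht, Odd.neg_pow ⟨n, rfl⟩]
    rw [h3, neg_div, abs_le]
    constructor <;> linarith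

theorem e2_SC : (SC : ℝ) = 1152921504606846976 := by unfold SC; norm_num

/-- numerical bound for a constant -/
theorem e2_const {x A : ℝ} (h : |Real.arctan x - A| ≤ 1 / 10 ^ 18) {c : ℝ}
    (h1 : c * 3.14159265358979323847 ≤ 1152921504606846976 * (A - 1 / 10 ^ 18))
    (h2 : 1152921504606846976 * (A + 1 / 10 ^ 18) ≤ (c + 2) * 3.14159265358979323846)
    (hc : 0 ≤ c) :
    c ≤ (SC : ℝ) * (Real.arctan x / Real.pi) ∧ (SC : ℝ) * (Real.arctan x / Real.pi) ≤ c + 2 := by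
  have hp1 := Real.pi_gt_d20
  have hp2 := Real.pi_lt_d20
  have hpi := Real.pi_pos
  rw [abs_le] at h
  rw [e2_SC, ← mul_div_assoc]
  constructor
  · rw [le_div_iff₀ hpi]
    have h3 : c * Real.pi ≤ c * 3.14159265358979323847 := mul_le_mul_of_nonneg_left hp2.le hc
    linarith [h.1]
  · rw [div_le_iff₀ hpi]
    have h3 : (c + 2) * 3.14159265358979323846 ≤ (c + 2) * Real.pi :=
      mul_le_mul_of_nonneg_left hp1.le (by linarith)
    linarith [h.2]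

theorem e2_K1 : |(SC : ℝ) * (Real.arctan (1 / 8) / Real.pi) - 45636580940690243| ≤ 1 := by
  have h : |Real.arctan (1 / 8) - e2_P 9 (1 / 8)| ≤ 1 / 10 ^ 18 := by
    refine (e2_series 9 (1 / 8)).trans ?_
    rw [abs_of_pos (by norm_num)]
    norm_num
  obtain ⟨h1, h2⟩ := e2_const h (c := 45636580940690242)
    (by unfold e2_P; norm_num [Finset.sum_range_succ])
    (by unfold e2_P; norm_num [Finset.sum_range_succ]) (by norm_num)
  rw [abs_le]
  constructor <;> linarith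

theorem e2_K2 : |(SC : ℝ) * (Real.arctan (2 / 8) / Real.pi) - 89903816322610130| ≤ 1 := by
  have h : |Real.arctan (2 / 8) - e2_P 14 (2 / 8)| ≤ 1 / 10 ^ 18 := by
    refine (e2_series 14 (2 / 8)).trans ?_
    rw [abs_of_pos (by norm_num)]
    norm_num
  obtain ⟨h1, h2⟩ := e2_const h (c := 89903816322610129)
    (by unfold e2_P; norm_num [Finset.sum_range_succ])
    (by unfold e2_P; norm_num [Finset.sum_range_succ]) (by norm_num)
  rw [abs_le]
  constructor <;> linarith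

theorem e2_K3 : |(SC : ℝ) * (Real.arctan (3 / 8) / Real.pi) - 131663925462936399| ≤ 1 := by
  have h : |Real.arctan (3 / 8) - e2_P 19 (3 / 8)| ≤ 1 / 10 ^ 18 := by
    refine (e2_series 19 (3 / 8)).trans ?_
    rw [abs_of_pos (by norm_num)]
    norm_num
  obtain ⟨h1, h2⟩ := e2_const h (c := 131663925462936398)
    (by unfold e2_P; norm_num [Finset.sum_range_succ])
    (by unfold e2_P; norm_num [Finset.sum_range_succ]) (by norm_num)
  rw [abs_le]
  constructor <;> linarith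

theorem e2_K4 : |(SC : ℝ) * (Real.arctan (4 / 8) / Real.pi) - 170152326516859149| ≤ 1 := by
  have h : |Real.arctan (4 / 8) - e2_P 27 (4 / 8)| ≤ 1 / 10 ^ 18 := by
    refine (e2_series 27 (4 / 8)).trans ?_
    rw [abs_of_pos (by norm_num)]
    norm_num
  obtain ⟨h1, h2⟩ := e2_const h (c := 170152326516859148)
    (by unfold e2_P; norm_num [Finset.sum_range_succ])
    (by unfold e2_P; norm_num [Finset.sum_range_succ]) (by norm_num)
  rw [abs_le]
  constructor <;> linarith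

theorem e2_half : |Real.arctan (1 / 2) - e2_P 28 (1 / 2)| ≤ 1 / 10 ^ 18 / 2 := by
  refine (e2_series 28 (1 / 2)).trans ?_
  rw [abs_of_pos (by norm_num)]
  norm_num

theorem e2_sum {x y A B : ℝ} (h1 : |x - A| ≤ 1 / 10 ^ 18 / 2) (h2 : |y - B| ≤ 1 / 10 ^ 18 / 2) :
    |(x + y) - (A + B)| ≤ 1 / 10 ^ 18 := by
  rw [abs_le] at h1 h2 ⊢
  constructor <;> linarith [h1.1, h1.2, h2.1, h2.2]

theorem e2_K5 : |(SC : ℝ) * (Real.arctan (5 / 8) / Real.pi) - 204998303132124104| ≤ 1 := by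
  have h0 : |Real.arctan (2 / 21) - e2_P 9 (2 / 21)| ≤ 1 / 10 ^ 18 / 2 := by
    refine (e2_series 9 (2 / 21)).trans ?_
    rw [abs_of_pos (by norm_num)]
    norm_num
  have h := e2_sum e2_half h0
  rw [Real.arctan_add (by norm_num),
    show ((1 / 2 : ℝ) + 2 / 21) / (1 - 1 / 2 * (2 / 21)) = 5 / 8 by norm_num] at h
  obtain ⟨h1, h2⟩ := e2_const h (c := 204998303132124103)
    (by unfold e2_P; norm_num [Finset.sum_range_succ])
    (by unfold e2_P; norm_num [Finset.sum_range_succ]) (by norm_num)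
  rw [abs_le]
  constructor <;> linarith

theorem e2_K6 : |(SC : ℝ) * (Real.arctan (6 / 8) / Real.pi) - 236156099269705190| ≤ 1 := by
  have h0 : |Real.arctan (2 / 11) - e2_P 12 (2 / 11)| ≤ 1 / 10 ^ 18 / 2 := by
    refine (e2_series 12 (2 / 11)).trans ?_
    rw [abs_of_pos (by norm_num)]
    norm_num
  have h := e2_sum e2_half h0
  rw [Real.arctan_add (by norm_num),
    show ((1 / 2 : ℝ) + 2 / 11) / (1 - 1 / 2 * (2 / 11)) = 6 / 8 by norm_num] at h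
  obtain ⟨h1, h2⟩ := e2_const h (c := 236156099269705189)
    (by unfold e2_P; norm_num [Finset.sum_range_succ])
    (by unfold e2_P; norm_num [Finset.sum_range_succ]) (by norm_num)
  rw [abs_le]
  constructor <;> linarith

theorem e2_K7 : |(SC : ℝ) * (Real.arctan (7 / 8) / Real.pi) - 263800771170416490| ≤ 1 := by
  have h0 : |Real.arctan (6 / 23) - e2_P 15 (6 / 23)| ≤ 1 / 10 ^ 18 / 2 := by
    refine (e2_series 15 (6 / 23)).trans ?_
    rw [abs_of_pos (by norm_num)]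
    norm_num
  have h := e2_sum e2_half h0
  rw [Real.arctan_add (by norm_num),
    show ((1 / 2 : ℝ) + 6 / 23) / (1 - 1 / 2 * (6 / 23)) = 7 / 8 by norm_num] at h
  obtain ⟨h1, h2⟩ := e2_const h (c := 263800771170416489)
    (by unfold e2_P; norm_num [Finset.sum_range_succ])
    (by unfold e2_P; norm_num [Finset.sum_range_succ]) (by norm_num)
  rw [abs_le]
  constructor <;> linarith

theorem e2_K {i : ℤ} (h0 : 0 ≤ i) (h8 : i ≤ 8) :
    |(SC : ℝ) * (Real.arctan ((i : ℝ) / 8) / Real.pi) - ATt i| ≤ 1 := by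
  interval_cases i
  · simp [ATt]
  · simpa [ATt] using e2_K1
  · simpa [ATt] using e2_K2
  · simpa [ATt] using e2_K3
  · simpa [ATt] using e2_K4
  · simpa [ATt] using e2_K5
  · simpa [ATt] using e2_K6
  · simpa [ATt] using e2_K7
  · have h1 : ((8 : ℤ) : ℝ) / 8 = 1 := by norm_num
    rw [h1, Real.arctan_one, e2_SC]
    have h2 : (1152921504606846976 : ℝ) * (Real.pi / 4 / Real.pi) = 288230376151711744 := by
      field_simp [Real.pi_pos.ne']
      norm_num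
    rw [h2]
    norm_num [ATt]

theorem e2_IPI : |(IPI : ℝ) - (SC : ℝ) / Real.pi| ≤ 1 := by
  have hp1 := Real.pi_gt_d20
  have hp2 := Real.pi_lt_d20
  have hpi := Real.pi_pos
  have h0 : (IPI : ℝ) = 366986312910250153 := by unfold IPI; norm_num
  rw [e2_SC, h0]
  have h1 : (1152921504606846976 : ℝ) / Real.pi ≤ 366986312910250154 := by
    rw [div_le_iff₀ hpi]
    linarith
  have h2 : (366986312910250152 : ℝ) ≤ 1152921504606846976 / Real.pi := by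
    rw [le_div_iff₀ hpi]
    linarith
  rw [abs_le]
  constructor <;> linarith

theorem e2_fl (x : ℤ) : ((x / SC : ℤ) : ℝ) ≤ (x : ℝ) / SC ∧ (x : ℝ) / SC < ((x / SC : ℤ) : ℝ) + 1 := by
  have hq : (0 : ℤ) < SC := by unfold SC; norm_num
  have hq' : (0 : ℝ) < (SC : ℝ) := by exact_mod_cast hq
  have h1 : SC * (x / SC) ≤ x := Int.mul_ediv_self_le hq.ne'
  have h2 : x < SC * (x / SC) + SC := Int.lt_mul_ediv_self_add hq
  have h1' : (SC : ℝ) * ((x / SC : ℤ) : ℝ) ≤ (x : ℝ) := by exact_mod_cast h1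
  have h2' : (x : ℝ) < (SC : ℝ) * ((x / SC : ℤ) : ℝ) + SC := by exact_mod_cast h2
  constructor
  · rw [le_div_iff₀ hq']
    linarith
  · rw [div_lt_iff₀ hq']
    linarith

/-- one Horner step -/
theorem e2_step {t f K : ℝ} {x2 Y c : ℤ} (ht : t ^ 2 ≤ 1 / 256) (hx2 : |(x2 : ℝ) - SC * t ^ 2| ≤ 2)
    (hY : |(Y : ℝ) - SC * f| ≤ 4) (hf : |f| ≤ 2 / 5) (hc : |(c : ℝ) - SC * K| ≤ 1) :
    |((c - x2 * Y / SC : ℤ) : ℝ) - SC * (K - t ^ 2 * f)| ≤ 4 := by
  obtain ⟨h1, h2⟩ := e2_fl (x2 * Y)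
  have hS : (0 : ℝ) < (SC : ℝ) := by rw [e2_SC]; norm_num
  have hS2 : (4 : ℝ) / SC ≤ 1 / 10 := by rw [e2_SC]; norm_num
  obtain ⟨u, hu⟩ : ∃ u : ℝ, u = (x2 : ℝ) - SC * t ^ 2 := ⟨_, rfl⟩
  obtain ⟨v, hv⟩ : ∃ v : ℝ, v = (Y : ℝ) - SC * f := ⟨_, rfl⟩
  rw [← hu] at hx2
  rw [← hv] at hY
  have h3 : ((x2 * Y : ℤ) : ℝ) / SC = SC * (t ^ 2 * f) + (u * ((Y : ℝ) / SC) + t ^ 2 * v) := by
    push_cast
    rw [hu, hv]
    field_simp
    ring
  have h4 : |(Y : ℝ) / SC| ≤ 1 / 2 := by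
    have h5 : (Y : ℝ) / SC = f + v / SC := by rw [hv]; field_simp; ring
    rw [h5]
    refine (abs_add_le _ _).trans ?_
    rw [abs_div, abs_of_pos hS]
    have h6 : |v| / (SC : ℝ) ≤ 4 / SC := by gcongr
    linarith
  have h5 : |u * ((Y : ℝ) / SC)| ≤ 1 := by
    rw [abs_mul]
    calc |u| * |(Y : ℝ) / SC| ≤ 2 * (1 / 2) := by gcongr
      _ = 1 := by norm_num
  have h6 : |t ^ 2 * v| ≤ 1 / 64 := by
    rw [abs_mul, abs_of_nonneg (sq_nonneg t)]
    calc t ^ 2 * |v| ≤ 1 / 256 * 4 := by gcongr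
      _ = 1 / 64 := by norm_num
  rw [h3] at h1 h2
  rw [Int.cast_sub]
  rw [abs_le] at h5 h6 hc ⊢
  constructor
  · linarith [h5.1, h5.2, h6.1, h6.2, hc.1, hc.2]
  · linarith [h5.1, h5.2, h6.1, h6.2, hc.1, hc.2]

theorem e2_P5 (t : ℝ) :
    e2_P 5 t = t * (1 - t ^ 2 * (1 / 3 - t ^ 2 * (1 / 5 - t ^ 2 * (1 / 7 - t ^ 2 * (1 / 9))))) := by
  unfold e2_P
  simp only [Finset.sum_range_succ, Finset.sum_range_zero]
  norm_num
  ring

/-- the evaluation of the series with floors -/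
theorem e2_horner {t : ℝ} {x : ℤ} (ht : |t| ≤ 1 / 16) (hx : |(x : ℝ) - SC * t| ≤ 1) :
    |(((x * (SC - (x * x / SC) * (SC / 3 - (x * x / SC) * (SC / 5 - (x * x / SC) *
      (SC / 7 - (x * x / SC) * 128102389400760775 / SC) / SC) / SC) / SC) / SC) * IPI / SC : ℤ) : ℝ) -
      SC * (Real.arctan t / Real.pi)| ≤ 2000 := by
  have hS : (0 : ℝ) < (SC : ℝ) := by rw [e2_SC]; norm_num
  have ht2 : t ^ 2 ≤ 1 / 256 := by
    have h1 : t ^ 2 = |t| ^ 2 := (sq_abs t).symm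
    rw [h1]
    calc |t| ^ 2 ≤ (1 / 16) ^ 2 := by gcongr
      _ = 1 / 256 := by norm_num
  have ht0 : 0 ≤ t ^ 2 := sq_nonneg t
  obtain ⟨x2, hx2d⟩ : ∃ x2 : ℤ, x2 = x * x / SC := ⟨_, rfl⟩
  rw [← hx2d]
  have hx2 : |(x2 : ℝ) - SC * t ^ 2| ≤ 2 := by
    obtain ⟨h1, h2⟩ := e2_fl (x * x)
    rw [← hx2d] at h1 h2
    obtain ⟨u, hu⟩ : ∃ u : ℝ, u = (x : ℝ) - SC * t := ⟨_, rfl⟩
    rw [← hu] at hx
    have h3 : ((x * x : ℤ) : ℝ) / SC = SC * t ^ 2 + (2 * (t * u) + u * u / SC) := by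
      push_cast
      rw [hu]
      field_simp
      ring
    have h4 : |t * u| ≤ 1 / 16 := by
      rw [abs_mul]
      calc |t| * |u| ≤ 1 / 16 * 1 := by gcongr
        _ = 1 / 16 := by norm_num
    have h5 : |u * u / SC| ≤ 1 / 16 := by
      rw [abs_div, abs_mul, abs_of_pos hS]
      calc |u| * |u| / (SC : ℝ) ≤ 1 * 1 / SC := by gcongr
        _ ≤ 1 / 16 := by rw [e2_SC]; norm_num
    rw [h3] at h1 h2
    rw [abs_le] at h4 h5 ⊢
    constructor
    · linarith [h4.1, h4.2, h5.1, h5.2]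
    · linarith [h4.1, h4.2, h5.1, h5.2]
  have hc7 : |((SC / 7 : ℤ) : ℝ) - SC * (1 / 7)| ≤ 1 := by
    have h1 : (SC / 7 : ℤ) = 164703072086692425 := by unfold SC; norm_num
    rw [h1, e2_SC]; norm_num
  have hc5 : |((SC / 5 : ℤ) : ℝ) - SC * (1 / 5)| ≤ 1 := by
    have h1 : (SC / 5 : ℤ) = 230584300921369395 := by unfold SC; norm_num
    rw [h1, e2_SC]; norm_num
  have hc3 : |((SC / 3 : ℤ) : ℝ) - SC * (1 / 3)| ≤ 1 := by
    have h1 : (SC / 3 : ℤ) = 384307168202282325 := by unfold SC; norm_num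
    rw [h1, e2_SC]; norm_num
  have hc1 : |((SC : ℤ) : ℝ) - SC * 1| ≤ 1 := by
    rw [mul_one, sub_self, abs_zero]; norm_num
  have hy0 : |((128102389400760775 : ℤ) : ℝ) - SC * (1 / 9)| ≤ 4 := by
    rw [e2_SC, abs_le]; constructor <;> norm_num
  obtain ⟨f1, hf1⟩ : ∃ f1 : ℝ, f1 = 1 / 7 - t ^ 2 * (1 / 9) := ⟨_, rfl⟩
  obtain ⟨f2, hf2⟩ : ∃ f2 : ℝ, f2 = 1 / 5 - t ^ 2 * f1 := ⟨_, rfl⟩
  obtain ⟨f3, hf3⟩ : ∃ f3 : ℝ, f3 = 1 / 3 - t ^ 2 * f2 := ⟨_, rfl⟩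
  obtain ⟨f4, hf4⟩ : ∃ f4 : ℝ, f4 = 1 - t ^ 2 * f3 := ⟨_, rfl⟩
  have b1 : 0 ≤ f1 ∧ f1 ≤ 1 / 7 := by rw [hf1]; constructor <;> linarith
  have b2 : 0 ≤ f2 ∧ f2 ≤ 1 / 5 := by
    rw [hf2]; constructor <;> nlinarith [mul_nonneg ht0 b1.1, mul_le_mul ht2 b1.2 b1.1 (by norm_num)]
  have b3 : 0 ≤ f3 ∧ f3 ≤ 1 / 3 := by
    rw [hf3]; constructor <;> nlinarith [mul_nonneg ht0 b2.1, mul_le_mul ht2 b2.2 b2.1 (by norm_num)]
  have b4 : 0 ≤ f4 ∧ f4 ≤ 1 := by
    rw [hf4]; constructor <;> nlinarith [mul_nonneg ht0 b3.1, mul_le_mul ht2 b3.2 b3.1 (by norm_num)]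
  have s1 := e2_step ht2 hx2 hy0 (by rw [abs_le]; constructor <;> norm_num) hc7
  rw [← hf1] at s1
  obtain ⟨y1, hy1⟩ : ∃ y : ℤ, y = SC / 7 - x2 * 128102389400760775 / SC := ⟨_, rfl⟩
  rw [← hy1] at s1 ⊢
  have s2 := e2_step ht2 hx2 s1 (by rw [abs_le]; constructor <;> linarith [b1.1, b1.2]) hc5
  rw [← hf2] at s2
  obtain ⟨y2, hy2⟩ : ∃ y : ℤ, y = SC / 5 - x2 * y1 / SC := ⟨_, rfl⟩
  rw [← hy2] at s2 ⊢
  have s3 := e2_step ht2 hx2 s2 (by rw [abs_le]; constructor <;> linarith [b2.1, b2.2]) hc3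
  rw [← hf3] at s3
  obtain ⟨y3, hy3⟩ : ∃ y : ℤ, y = SC / 3 - x2 * y2 / SC := ⟨_, rfl⟩
  rw [← hy3] at s3 ⊢
  have s4 := e2_step ht2 hx2 s3 (by rw [abs_le]; constructor <;> linarith [b3.1, b3.2]) hc1
  rw [← hf4] at s4
  obtain ⟨y4, hy4⟩ : ∃ y : ℤ, y = SC - x2 * y3 / SC := ⟨_, rfl⟩
  rw [← hy4] at s4 ⊢
  -- z
  obtain ⟨z, hz⟩ : ∃ z : ℤ, z = x * y4 / SC := ⟨_, rfl⟩
  rw [← hz]
  have hzb : |(z : ℝ) - SC * (t * f4)| ≤ 3 := by
    obtain ⟨h1, h2⟩ := e2_fl (x * y4)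
    rw [← hz] at h1 h2
    obtain ⟨u, hu⟩ : ∃ u : ℝ, u = (x : ℝ) - SC * t := ⟨_, rfl⟩
    obtain ⟨v, hv⟩ : ∃ v : ℝ, v = (y4 : ℝ) - SC * f4 := ⟨_, rfl⟩
    rw [← hu] at hx
    rw [← hv] at s4
    have h3 : ((x * y4 : ℤ) : ℝ) / SC = SC * (t * f4) + (t * v + u * f4 + u * v / SC) := by
      push_cast
      rw [hu, hv]
      field_simp
      ring
    have h4 : |t * v| ≤ 1 / 4 := by
      rw [abs_mul]
      calc |t| * |v| ≤ 1 / 16 * 4 := by gcongr
        _ = 1 / 4 := by norm_num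
    have h5 : |u * f4| ≤ 1 := by
      rw [abs_mul, abs_of_nonneg b4.1]
      calc |u| * f4 ≤ 1 * 1 := by gcongr <;> first | exact b4.2 | exact b4.1
        _ = 1 := by norm_num
    have h6 : |u * v / SC| ≤ 1 / 4 := by
      rw [abs_div, abs_mul, abs_of_pos hS]
      calc |u| * |v| / (SC : ℝ) ≤ 1 * 4 / SC := by gcongr
        _ ≤ 1 / 4 := by rw [e2_SC]; norm_num
    rw [h3] at h1 h2
    rw [abs_le] at h4 h5 h6 ⊢
    constructor
    · linarith [h4.1, h4.2, h5.1, h5.2, h6.1, h6.2]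
    · linarith [h4.1, h4.2, h5.1, h5.2, h6.1, h6.2]
  obtain ⟨w, hw⟩ : ∃ w : ℤ, w = z * IPI / SC := ⟨_, rfl⟩
  rw [← hw]
  have hwb : |(w : ℝ) - SC * (t * f4) / Real.pi| ≤ 5 := by
    obtain ⟨h1, h2⟩ := e2_fl (z * IPI)
    rw [← hw] at h1 h2
    obtain ⟨u, hu⟩ : ∃ u : ℝ, u = (z : ℝ) - SC * (t * f4) := ⟨_, rfl⟩
    obtain ⟨v, hv⟩ : ∃ v : ℝ, v = (IPI : ℝ) - SC / Real.pi := ⟨_, rfl⟩
    have hI := e2_IPI
    rw [← hu] at hzb
    rw [← hv] at hI
    have h3 : ((z * IPI : ℤ) : ℝ) / SC = SC * (t * f4) / Real.pi + (u * ((IPI : ℝ) / SC) + (t * f4) * v) := by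
      push_cast
      rw [hu, hv]
      field_simp
      ring
    have h4 : |u * ((IPI : ℝ) / SC)| ≤ 3 := by
      have h0 : (IPI : ℝ) = 366986312910250153 := by unfold IPI; norm_num
      rw [h0, e2_SC, abs_mul, abs_of_pos (by norm_num : (0 : ℝ) < 366986312910250153 / 1152921504606846976)]
      calc |u| * (366986312910250153 / 1152921504606846976 : ℝ) ≤ 3 * 1 := by
            gcongr
            norm_num
        _ = 3 := by norm_num
    have h5 : |(t * f4) * v| ≤ 1 := by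
      rw [abs_mul, abs_mul, abs_of_nonneg b4.1]
      calc |t| * f4 * |v| ≤ 1 / 16 * 1 * 1 := by gcongr <;> first | exact b4.2 | exact b4.1
        _ ≤ 1 := by norm_num
    rw [h3] at h1 h2
    rw [abs_le] at h4 h5 ⊢
    constructor
    · linarith [h4.1, h4.2, h5.1, h5.2]
    · linarith [h4.1, h4.2, h5.1, h5.2]
  have hser : |Real.arctan t - t * f4| ≤ 1 / (16 ^ 11 * 11) := by
    have h1 := e2_series 5 t
    rw [e2_P5, ← hf1, ← hf2, ← hf3, ← hf4] at h1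
    refine h1.trans ?_
    have h2 : |t| ^ (2 * 5 + 1) ≤ (1 / 16) ^ (2 * 5 + 1) := by gcongr
    calc |t| ^ (2 * 5 + 1) / ((2 * 5 + 1 : ℕ) : ℝ) ≤ (1 / 16) ^ (2 * 5 + 1) / ((2 * 5 + 1 : ℕ) : ℝ) := by gcongr
      _ = 1 / (16 ^ 11 * 11) := by norm_num
  have hser2 : |SC * (t * f4) / Real.pi - SC * (Real.arctan t / Real.pi)| ≤ 1990 := by
    have h1 : SC * (t * f4) / Real.pi - SC * (Real.arctan t / Real.pi) =
        -((SC : ℝ) / Real.pi * (Real.arctan t - t * f4)) := by ring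
    rw [h1, abs_neg, abs_mul, abs_of_pos (div_pos hS Real.pi_pos)]
    have h2 : (SC : ℝ) / Real.pi ≤ SC / 3 := by
      gcongr
      exact Real.pi_gt_three.le
    calc (SC : ℝ) / Real.pi * |Real.arctan t - t * f4| ≤ SC / 3 * (1 / (16 ^ 11 * 11)) := by gcongr
      _ ≤ 1990 := by rw [e2_SC]; norm_num
  calc |(w : ℝ) - SC * (Real.arctan t / Real.pi)|
      ≤ |(w : ℝ) - SC * (t * f4) / Real.pi| + |SC * (t * f4) / Real.pi - SC * (Real.arctan t / Real.pi)| :=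
        abs_sub_le _ _ _
    _ ≤ 5 + 1990 := add_le_add hwb hser2
    _ ≤ 2000 := by norm_num

theorem atpos_bd {n d : ℤ} (hn : 0 ≤ n) (hd : 0 < d) (hnd : n ≤ d) :
    |(SC : ℝ) * (Real.arctan ((n : ℝ) / d) / Real.pi) - atpos n d| ≤ 4096 := by
  have hS : (0 : ℝ) < (SC : ℝ) := by rw [e2_SC]; norm_num
  obtain ⟨i, hi⟩ : ∃ i : ℤ, i = (16 * n + d) / (2 * d) := ⟨_, rfl⟩
  have h2d : (0 : ℤ) < 2 * d := by linarith
  have a1 : 2 * d * i ≤ 16 * n + d := by rw [hi]; exact Int.mul_ediv_self_le h2d.ne'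
  have a2 : 16 * n + d < 2 * d * i + 2 * d := by rw [hi]; exact Int.lt_mul_ediv_self_add h2d
  have i0 : 0 ≤ i := by
    by_contra hc
    push Not at hc
    have : i ≤ -1 := by omega
    nlinarith
  have i8 : i ≤ 8 := by
    by_contra hc
    push Not at hc
    have : 9 ≤ i := by omega
    nlinarith
  have hq : 0 < 8 * d + i * n := by nlinarith [mul_nonneg i0 hn]
  have hqR : (0 : ℝ) < 8 * (d : ℝ) + i * n := by exact_mod_cast hq
  have hdR : (0 : ℝ) < (d : ℝ) := by exact_mod_cast hd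
  have hnR : (0 : ℝ) ≤ (n : ℝ) := by exact_mod_cast hn
  have hndR : (n : ℝ) ≤ (d : ℝ) := by exact_mod_cast hnd
  have i0R : (0 : ℝ) ≤ (i : ℝ) := by exact_mod_cast i0
  have i8R : (i : ℝ) ≤ 8 := by exact_mod_cast i8
  have a1R : 2 * (d : ℝ) * i ≤ 16 * n + d := by exact_mod_cast a1
  have a2R : 16 * (n : ℝ) + d < 2 * d * i + 2 * d := by exact_mod_cast a2
  obtain ⟨t, ht⟩ : ∃ t : ℝ, t = (8 * (n : ℝ) - i * d) / (8 * d + i * n) := ⟨_, rfl⟩
  have htb : |t| ≤ 1 / 16 := by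
    rw [ht, abs_div, abs_of_pos hqR, div_le_iff₀ hqR, abs_le]
    have h1 : 0 ≤ (i : ℝ) * n := mul_nonneg i0R hnR
    constructor <;> nlinarith
  have hadd : Real.arctan ((n : ℝ) / d) = Real.arctan ((i : ℝ) / 8) + Real.arctan t := by
    have h1 : (i : ℝ) / 8 * t < 1 := by
      have h2 : |(i : ℝ) / 8 * t| ≤ 1 * (1 / 16) := by
        rw [abs_mul, abs_of_nonneg (by positivity : (0 : ℝ) ≤ (i : ℝ) / 8)]
        gcongr
        linarith
      have h3 := (abs_le.mp h2).2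
      linarith
    rw [Real.arctan_add h1]
    congr 1
    have h4 : 1 - (i : ℝ) / 8 * t ≠ 0 := by linarith
    rw [div_eq_div_iff hdR.ne' h4, ht]
    field_simp
    ring
  obtain ⟨x, hx⟩ : ∃ x : ℤ, x = (8 * n - i * d) * SC / (8 * d + i * n) := ⟨_, rfl⟩
  have hxb : |(x : ℝ) - SC * t| ≤ 1 := by
    have h1 : (8 * d + i * n) * x ≤ (8 * n - i * d) * SC := by rw [hx]; exact Int.mul_ediv_self_le hq.ne'
    have h2 : (8 * n - i * d) * SC < (8 * d + i * n) * x + (8 * d + i * n) := by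
      rw [hx]; exact Int.lt_mul_ediv_self_add hq
    have h1R : (8 * (d : ℝ) + i * n) * x ≤ (8 * (n : ℝ) - i * d) * SC := by exact_mod_cast h1
    have h2R : (8 * (n : ℝ) - i * d) * SC < (8 * (d : ℝ) + i * n) * x + (8 * (d : ℝ) + i * n) := by
      exact_mod_cast h2
    have h3 : SC * t = (8 * (n : ℝ) - i * d) * SC / (8 * d + i * n) := by rw [ht]; ring
    have h4 : (x : ℝ) ≤ SC * t := by
      rw [h3, le_div_iff₀ hqR]; linarith
    have h5 : SC * t < (x : ℝ) + 1 := by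
      rw [h3, div_lt_iff₀ hqR]; linarith
    rw [abs_le]
    constructor <;> linarith
  have hh := e2_horner htb hxb
  have hk := e2_K i0 i8
  have hat : atpos n d = ATt i + (x * (SC - (x * x / SC) * (SC / 3 - (x * x / SC) * (SC / 5 - (x * x / SC) *
      (SC / 7 - (x * x / SC) * 128102389400760775 / SC) / SC) / SC) / SC) / SC) * IPI / SC := by
    rw [hx, hi]
    rfl
  rw [hat, hadd, Int.cast_add]
  rw [abs_le] at hh hk ⊢
  rw [add_div, mul_add]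
  constructor <;> linarith [hh.1, hh.2, hk.1, hk.2]

theorem e2_arg {x y : ℝ} (hy : 0 < y) :
    -arg ((x : ℂ) - y * I) = Real.pi / 2 - Real.arctan (x / y) := by
  obtain ⟨θ, hθ⟩ : ∃ θ : ℝ, θ = Real.arctan (x / y) := ⟨_, rfl⟩
  have h1 : θ < Real.pi / 2 := by rw [hθ]; exact Real.arctan_lt_pi_div_two _
  have h2 : -(Real.pi / 2) < θ := by rw [hθ]; exact Real.neg_pi_div_two_lt_arctan _
  have hc : 0 < Real.cos θ := Real.cos_pos_of_mem_Ioo ⟨h2, h1⟩
  have ht : Real.tan θ = x / y := by rw [hθ, Real.tan_arctan]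
  have hx : x = y / Real.cos θ * Real.sin θ := by
    have h3 : Real.sin θ / Real.cos θ = x / y := by rw [← Real.tan_eq_sin_div_cos, ht]
    rw [div_eq_div_iff hc.ne' hy.ne'] at h3
    field_simp
    linarith
  have hr : 0 < y / Real.cos θ := div_pos hy hc
  have h4 : (x : ℂ) - y * I = ((y / Real.cos θ : ℝ) : ℂ) *
      (Complex.cos ((θ - Real.pi / 2 : ℝ) : ℂ) + Complex.sin ((θ - Real.pi / 2 : ℝ) : ℂ) * I) := by
    rw [← Complex.ofReal_cos, ← Complex.ofReal_sin, Real.cos_sub_pi_div_two, Real.sin_sub_pi_div_two]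
    have h5 : (x : ℂ) = ((y / Real.cos θ : ℝ) : ℂ) * ((Real.sin θ : ℝ) : ℂ) := by
      rw [← Complex.ofReal_mul, ← hx]
    have h6 : (y : ℂ) = ((y / Real.cos θ : ℝ) : ℂ) * ((Real.cos θ : ℝ) : ℂ) := by
      rw [← Complex.ofReal_mul]
      congr 1
      field_simp
    rw [h5]
    nth_rewrite 1 [h6]
    push_cast
    ring
  have h5 : arg ((x : ℂ) - y * I) = θ - Real.pi / 2 := by
    rw [h4]
    refine Complex.arg_mul_cos_add_sin_mul_I hr ⟨?_, ?_⟩
    · linarith [Real.pi_pos]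
    · linarith [Real.pi_pos]
  rw [h5, hθ]
  ring

theorem larg_bd {x y : ℤ} (hy : 0 < y) :
    |(SC : ℝ) * (-arg ((x : ℂ) - y * I) / Real.pi) - larg x y| ≤ 4096 := by
  have hyR : (0 : ℝ) < (y : ℝ) := by exact_mod_cast hy
  have hpi := Real.pi_pos
  have h0 : -arg ((x : ℂ) - y * I) = Real.pi / 2 - Real.arctan ((x : ℝ) / y) := by
    have := e2_arg (x := (x : ℝ)) hyR
    push_cast at this
    exact this
  rw [h0]
  have hhalf : ∀ a : ℝ, (SC : ℝ) * ((Real.pi / 2 - a) / Real.pi) = 576460752303423488 - SC * (a / Real.pi) := by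
    intro a
    rw [e2_SC]
    field_simp
    ring
  unfold larg
  split_ifs with c1 c2 c3
  · have h := atpos_bd c1 hy c2
    rw [hhalf]
    push_cast
    rw [abs_le] at h ⊢
    constructor <;> linarith [h.1, h.2]
  · push Not at c2
    have hx : 0 < x := lt_trans hy c2
    have hxR : (0 : ℝ) < (x : ℝ) := by exact_mod_cast hx
    have h := atpos_bd hy.le hx c2.le
    have h1 : Real.arctan ((y : ℝ) / x) = Real.pi / 2 - Real.arctan ((x : ℝ) / y) := by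
      rw [← Real.arctan_inv_of_pos (by positivity), inv_div]
    rw [← h1]
    exact h
  · push Not at c1
    have h := atpos_bd (n := -x) (by linarith) hy c3
    have h1 : Real.arctan (((-x : ℤ) : ℝ) / y) = -Real.arctan ((x : ℝ) / y) := by
      rw [← Real.arctan_neg]
      congr 1
      push_cast
      ring
    rw [h1] at h
    rw [hhalf]
    push_cast
    rw [neg_div, mul_neg] at h
    rw [abs_le] at h ⊢
    constructor <;> linarith [h.1, h.2]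
  · push Not at c1 c3
    have hx : 0 < -x := by linarith
    have hxR : (0 : ℝ) < (((-x : ℤ)) : ℝ) := by exact_mod_cast hx
    have h := atpos_bd hy.le hx c3.le
    have h1 : Real.arctan ((y : ℝ) / ((-x : ℤ) : ℝ)) = Real.pi / 2 + Real.arctan ((x : ℝ) / y) := by
      have h2 : Real.arctan ((((-x : ℤ) : ℝ) / y)⁻¹) = Real.pi / 2 - Real.arctan (((-x : ℤ) : ℝ) / y) :=
        Real.arctan_inv_of_pos (by positivity)
      have h3 : Real.arctan (((-x : ℤ) : ℝ) / y) = -Real.arctan ((x : ℝ) / y) := by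
        rw [← Real.arctan_neg]
        congr 1
        push_cast
        ring
      rw [inv_div, h3] at h2
      rw [h2]
      ring
    rw [h1] at h
    rw [hhalf]
    have h4 : (SC : ℝ) * ((Real.pi / 2 + Real.arctan ((x : ℝ) / y)) / Real.pi) =
        576460752303423488 + SC * (Real.arctan ((x : ℝ) / y) / Real.pi) := by
      rw [e2_SC]
      field_simp
      ring
    rw [h4] at h
    rw [Int.cast_sub, e2_SC]
    rw [e2_SC] at h
    rw [abs_le] at h ⊢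
    constructor <;> linarith [h.1, h.2]

end Pool.Agent.Choc.Nu
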