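import Pool.Agent.Lib.MP_2b3e36_an.Nu.E1
import Pool.Agent.Lib.MP_2b3e36_an.Nu.E2
import Pool.Agent.Lib.MP_2b3e36_an.Nu.G2

/-!
E3. Soundness of `lb`, `lbs`, `z2`, `xNode`.

lb: `c = 2 S (Z - b/1000)` is within `r = rad + 2` of `x - i y` (floor of `2 b S/1000`), `0 < y`,
`2 r ≤ m = max |x| y ≤ ‖x - i y‖`. `Z - b/1000` and `x - i y` are both in the open lower half plane, so
`arg (Z - b/1000) - arg (x - iy) = arg (1 + u)` with `1 + u = c/(x - iy)`, `‖u‖ ≤ r/m ≤ 1/2` (the difference of the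
arguments is in `(-π, π)`), `|arg (1+u)| ≤ ‖log (1+u)‖ ≤ 3/2 ‖u‖` (`Complex.norm_log_one_add_half_le_self`), so
`S |Lb - ..| ≤ S (3/(2π)) r/m ≤ S r/(2m)`, floor costs `1`, `larg_bd` costs `4096`; total `≤ S r/(2m) + 5000`.
z2: `Zx ξ = cos (π/2 N) = (exp (i π N/2) + exp (-i π N/2))/2`, `E = exp (-i π/2 · N)`; the constant ball
`⟨0, -1811004864519280710, 2⟩` contains `- i π/2` (`2^60 π/2 = 1811004864519280710.55`).
xNode: `σ = k/D`, `nome (-1/(1+iσ)) = exp (- π i/(1 + iσ)) = exp (-(π (σ + i)/(1+σ²)))`, with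
`E = exp (π (σ+i)/(1+σ²))`, `q = 1/E`: `mob q = i (1+q)/(1-q) = i (E+1)/(E-1)`. `π σ/(1+σ²) = π D k/(D²+k²)`,
`π/(1+σ²) = π D²/(D²+k²)`, `|S π - PIS| ≤ 1`, the factors are `≤ 1`, so radius `4 ≥ √2 · 2`.
-/

set_option autoImplicit false

open Complex

namespace Pool.Agent.Choc.Nu

theorem E3_arg {c W u : ℂ} (hc : c.im < 0) (hW : W.im < 0) (hu : ‖u‖ ≤ 1 / 2)
    (h : c = W * (1 + u)) : |arg c - arg W| ≤ 3 / 2 * ‖u‖ := by
  have hpi := Real.pi_pos
  have hpi1 := Real.pi_gt_d4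
  have hW0 : W ≠ 0 := by
    intro h0
    rw [h0] at hW
    simp at hW
  have hu0 : 1 + u ≠ 0 := by
    intro h0
    rw [h0, mul_zero] at h
    rw [h] at hc
    simp at hc
  have hlog := norm_log_one_add_half_le_self hu
  have harg : |arg (1 + u)| ≤ 3 / 2 * ‖u‖ := by
    rw [← log_im]
    exact (abs_im_le_norm _).trans hlog
  have h1 : (arg c : Real.Angle) = ((arg W + arg (1 + u) : ℝ) : Real.Angle) := by
    rw [h, arg_mul_coe_angle hW0 hu0]
    push_cast
    rfl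
  rw [Real.Angle.angle_eq_iff_two_pi_dvd_sub] at h1
  obtain ⟨k, hk⟩ := h1
  have c1 := neg_pi_lt_arg c
  have c2 := arg_neg_iff.2 hc
  have w1 := neg_pi_lt_arg W
  have w2 := arg_neg_iff.2 hW
  have hb := abs_le.1 harg
  have hk0 : k = 0 := by
    have h3 : -(2 : ℝ) < 2 * k := by
      by_contra hcon
      push Not at hcon
      have : Real.pi * (2 * k) ≤ Real.pi * (-2) := mul_le_mul_of_nonneg_left hcon hpi.le
      linarith
    have h4 : (2 : ℝ) * k < 2 := by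
      by_contra hcon
      push Not at hcon
      have : Real.pi * 2 ≤ Real.pi * (2 * k) := mul_le_mul_of_nonneg_left hcon hpi.le
      linarith
    have h5 : (-1 : ℝ) < k := by linarith
    have h6 : (k : ℝ) < 1 := by linarith
    have h5' : -1 < k := by exact_mod_cast h5
    have h6' : k < 1 := by exact_mod_cast h6
    omega
  rw [hk0] at hk
  have h7 : arg c - arg W = arg (1 + u) := by
    rw [Int.cast_zero, mul_zero] at hk
    linarith
  rw [h7]
  exact harg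

theorem lb_sound {Z : ℂ} {a : CB} (h : a.Mem (2 * Z)) (hZ : Z.im < 0) {b v r : ℤ}
    (hb : a.lb b = some (v, r)) : |(SC : ℝ) * Lb ((b : ℝ) / 1000) Z - v| ≤ r := by
  unfold CB.lb at hb
  simp only at hb
  split_ifs at hb with hcond
  rw [Option.some.injEq, Prod.mk.injEq] at hb
  obtain ⟨hv, hr⟩ := hb
  set x : ℤ := a.re - 2 * b * SC / 1000 with hx
  set y : ℤ := -a.im with hy
  set m : ℤ := max (ab x) y with hm
  set ρ : ℤ := a.rad + 2 with hρ
  obtain ⟨hy0, h2⟩ := hcond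
  have hpi := Real.pi_pos
  have hpi1 := Real.pi_gt_d4
  have hSC : (0 : ℝ) < (SC : ℝ) := by unfold SC; norm_num
  have hrad := rad_nonneg h
  have hm0 : 0 < m := lt_of_lt_of_le hy0 (le_max_right _ _)
  have hm0' : (0 : ℝ) < m := by exact_mod_cast hm0
  have hρ0 : (0 : ℝ) ≤ ρ := by
    have : 0 ≤ ρ := by omega
    exact_mod_cast this
  have h2' : 2 * (ρ : ℝ) ≤ m := by exact_mod_cast h2
  set W : ℂ := (x : ℂ) - y * I with hW
  have hWim : W.im = -(y : ℝ) := by rw [hW]; simp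
  have hWre : W.re = (x : ℝ) := by rw [hW]; simp
  have hWneg : W.im < 0 := by
    rw [hWim]
    have : (0 : ℝ) < y := by exact_mod_cast hy0
    linarith
  have hWm : (m : ℝ) ≤ ‖W‖ := by
    have h3 : |(x : ℝ)| ≤ ‖W‖ := by rw [← hWre]; exact abs_re_le_norm W
    have h4 : (y : ℝ) ≤ ‖W‖ := by
      have := (neg_le_abs _).trans (abs_im_le_norm W)
      rwa [hWim, neg_neg] at this
    rw [hm]
    push_cast
    apply max_le _ h4
    have : ((ab x : ℤ) : ℝ) = |(x : ℝ)| := by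
      unfold ab
      rw [Nat.cast_natAbs]
      simp
    rw [this]
    exact h3
  have hW0 : 0 < ‖W‖ := lt_of_lt_of_le hm0' hWm
  have hWne : W ≠ 0 := norm_pos_iff.1 hW0
  set c : ℂ := ((2 * SC : ℝ) : ℂ) * (Z - (((b : ℝ) / 1000 : ℝ) : ℂ)) with hc
  have hcim : c.im < 0 := by
    rw [hc, im_ofReal_mul, sub_im, ofReal_im, sub_zero]
    exact mul_neg_of_pos_of_neg (by linarith) hZ
  have hfl : |2 * (b : ℝ) * SC / 1000 - ((2 * b * SC / 1000 : ℤ) : ℝ)| ≤ 1 := by
    have e1 := Int.ediv_mul_le (2 * b * SC) (show (1000 : ℤ) ≠ 0 by norm_num)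
    have e2 := Int.lt_ediv_add_one_mul_self (2 * b * SC) (show (0 : ℤ) < 1000 by norm_num)
    have e1' : ((2 * b * SC / 1000 : ℤ) : ℝ) * 1000 ≤ 2 * (b : ℝ) * SC := by exact_mod_cast e1
    have e2' : 2 * (b : ℝ) * SC < (((2 * b * SC / 1000 : ℤ) : ℝ) + 1) * 1000 := by exact_mod_cast e2
    rw [abs_le]
    constructor <;> linarith
  have hdiff : c - W = ((SC : ℂ) * (2 * Z) - (a.re + a.im * I)) -
      ((2 * (b : ℝ) * SC / 1000 - ((2 * b * SC / 1000 : ℤ) : ℝ) : ℝ) : ℂ) := by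
    rw [hc, hW, hx, hy]
    push_cast
    ring
  have hcW : ‖c - W‖ ≤ ρ := by
    rw [hdiff]
    refine (norm_sub_le _ _).trans ?_
    rw [norm_real, Real.norm_eq_abs]
    have h3 : ‖(SC : ℂ) * (2 * Z) - (a.re + a.im * I)‖ ≤ a.rad := h
    have h4 : (ρ : ℝ) = a.rad + 2 := by rw [hρ]; push_cast; ring
    linarith
  set u : ℂ := (c - W) / W with hu
  have hcu : c = W * (1 + u) := by
    rw [hu]
    field_simp
    ring
  have hun : ‖u‖ ≤ ρ / m := by
    rw [hu, norm_div, div_le_div_iff₀ hW0 hm0']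
    exact mul_le_mul hcW hWm hm0'.le hρ0
  have hu2 : ‖u‖ ≤ 1 / 2 := by
    refine hun.trans ?_
    rw [div_le_div_iff₀ hm0' (by norm_num)]
    linarith
  have harg := E3_arg hcim hWneg hu2 hcu
  have hargc : arg c = arg (Z - (((b : ℝ) / 1000 : ℝ) : ℂ)) := by
    rw [hc, arg_real_mul _ (by linarith)]
  have hlarg := larg_bd (x := x) (y := y) hy0
  rw [← hW] at hlarg
  have hLb : Lb ((b : ℝ) / 1000) Z = -arg c / Real.pi := by
    unfold Lb
    rw [hargc]
  have hstep : |(SC : ℝ) * Lb ((b : ℝ) / 1000) Z - (SC : ℝ) * (-arg W / Real.pi)| ≤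
      SC * (ρ / (2 * m)) := by
    rw [hLb]
    have e1 : (SC : ℝ) * (-arg c / Real.pi) - (SC : ℝ) * (-arg W / Real.pi) =
        -(SC / Real.pi * (arg c - arg W)) := by
      field_simp
      ring
    rw [e1, abs_neg, abs_mul, abs_of_pos (div_pos hSC hpi)]
    calc (SC : ℝ) / Real.pi * |arg c - arg W| ≤ SC / Real.pi * (3 / 2 * (ρ / m)) := by
          apply mul_le_mul_of_nonneg_left _ (div_pos hSC hpi).le
          linarith
      _ = SC * (ρ / (2 * m)) * (3 / Real.pi) := by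
          field_simp
      _ ≤ SC * (ρ / (2 * m)) * 1 := by
          apply mul_le_mul_of_nonneg_left _ (by positivity)
          rw [div_le_one hpi]
          linarith
      _ = _ := mul_one _
  have hr2 : (SC : ℝ) * (ρ / (2 * m)) ≤ ((SC * ρ / (2 * m) : ℤ) : ℝ) + 1 := by
    have hm2 : (0 : ℤ) < 2 * m := by omega
    have e2 := Int.lt_ediv_add_one_mul_self (SC * ρ) hm2
    have e2' : (SC : ℝ) * ρ < (((SC * ρ / (2 * m) : ℤ) : ℝ) + 1) * (2 * m) := by exact_mod_cast e2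
    rw [← mul_div_assoc, div_le_iff₀ (by linarith)]
    exact e2'.le
  rw [← hv, ← hr]
  push_cast
  have e3 : (SC : ℝ) * Lb ((b : ℝ) / 1000) Z - (larg x y : ℝ) =
      ((SC : ℝ) * Lb ((b : ℝ) / 1000) Z - (SC : ℝ) * (-arg W / Real.pi)) +
      ((SC : ℝ) * (-arg W / Real.pi) - (larg x y : ℝ)) := by ring
  rw [e3]
  refine (abs_add_le _ _).trans ?_
  linarith

theorem lbs_sound {Z : ℂ} {a : CB} (h : a.Mem (2 * Z)) (hZ : Z.im < 0) {bs : List ℤ}
    {vs : List (ℤ × ℤ)} (hb : a.lbs bs = some vs) :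
    List.Forall₂ (fun (b : ℤ) (p : ℤ × ℤ) => |(SC : ℝ) * Lb ((b : ℝ) / 1000) Z - p.1| ≤ p.2) bs vs := by
  induction bs generalizing vs with
  | nil =>
    simp only [CB.lbs, Option.some.injEq] at hb
    subst hb
    exact List.Forall₂.nil
  | cons b l ih =>
    rw [CB.lbs] at hb
    split at hb
    · rename_i p q hp hq
      rw [Option.some.injEq] at hb
      subst hb
      exact List.Forall₂.cons (lb_sound h hZ (v := p.1) (r := p.2) hp) (ih hq)
    · exact absurd hb (by simp)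

theorem E3_const : (CB.mk 0 (-1811004864519280710) 2).Mem (-(Real.pi / 2 * I)) := by
  show ‖(SC : ℂ) * (-(Real.pi / 2 * I)) -
    (((0 : ℤ) : ℂ) + (((-1811004864519280710 : ℤ)) : ℂ) * I)‖ ≤ ((2 : ℤ) : ℝ)
  have e : (SC : ℂ) * (-(Real.pi / 2 * I)) -
      (((0 : ℤ) : ℂ) + (((-1811004864519280710 : ℤ)) : ℂ) * I) =
      (((1811004864519280710 : ℝ) - SC * (Real.pi / 2) : ℝ) : ℂ) * I := by
    push_cast
    ring
  rw [e, norm_mul, norm_I, mul_one, norm_real, Real.norm_eq_abs, abs_le]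
  have h1 := Real.pi_gt_d20
  have h2 := Real.pi_lt_d20
  have h3 : (SC : ℝ) = 1152921504606846976 := by unfold SC; norm_num
  rw [h3]
  push_cast
  constructor <;> linarith

theorem z2_sound {x : ℂ} {a b : CB} (h : a.Mem x) (hx : x ∈ Gx) (hb : a.z2 = some b) :
    b.Mem (2 * Zx x) := by
  unfold CB.z2 at hb
  split at hb
  · exact absurd hb (by simp)
  rename_i r hr
  split at hb
  · exact absurd hb (by simp)
  rename_i E hE
  split at hb
  · exact absurd hb (by simp)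
  rename_i F hF
  rw [Option.some.injEq] at hb
  subst hb
  have h1 : ((a.mul a).add1).Mem (1 + x ^ 2) := by
    have := mem_add1 (mem_mul h h)
    have e : x * x + 1 = 1 + x ^ 2 := by ring
    rwa [e] at this
  have h2 : r.Mem (rt (1 + x ^ 2)) := mem_sqrt h1 hr (g1_slit hx)
  have h3 : (a.add r).Mem (joN x) := mem_add h h2
  have h4 := mem_exp (mem_mul h3 E3_const) hE
  have h5 := mem_inv h4 hF
  have h6 := mem_add h4 h5.2
  have e : exp (joN x * -(Real.pi / 2 * I)) + (exp (joN x * -(Real.pi / 2 * I)))⁻¹ =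
      2 * Zx x := by
    rw [← exp_neg]
    show _ = 2 * cos (Real.pi / 2 * joN x)
    rw [Complex.cos]
    have e1 : -(joN x * -(Real.pi / 2 * I)) = Real.pi / 2 * joN x * I := by ring
    have e2 : joN x * -(Real.pi / 2 * I) = -(Real.pi / 2 * joN x) * I := by ring
    rw [e1, e2]
    ring
  rwa [e] at h6

theorem E3_floor (p q : ℤ) (hq : 0 < q) : |(p : ℝ) / q - ((p / q : ℤ) : ℝ)| ≤ 1 := by
  have e1 := Int.ediv_mul_le p (ne_of_gt hq)
  have e2 := Int.lt_ediv_add_one_mul_self p hq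
  have hq' : (0 : ℝ) < q := by exact_mod_cast hq
  have e1' : ((p / q : ℤ) : ℝ) * q ≤ p := by exact_mod_cast e1
  have e2' : (p : ℝ) < (((p / q : ℤ) : ℝ) + 1) * q := by exact_mod_cast e2
  rw [abs_le]
  constructor
  · have : ((p / q : ℤ) : ℝ) ≤ p / q := by rwa [le_div_iff₀ hq']
    linarith
  · have : (p : ℝ) / q < ((p / q : ℤ) : ℝ) + 1 := by rwa [div_lt_iff₀ hq']
    linarith

theorem E3_pis : |(SC : ℝ) * Real.pi - PIS| ≤ 1 := by
  have h1 := Real.pi_gt_d20
  have h2 := Real.pi_lt_d20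
  have h3 : (SC : ℝ) = 1152921504606846976 := by unfold SC; norm_num
  have h4 : (PIS : ℝ) = 3622009729038561421 := by unfold PIS; norm_num
  rw [h3, h4, abs_le]
  constructor <;> linarith

theorem E3_coord {k n : ℤ} (hk : 0 ≤ k) (hn : 0 < n) (hkn : k ≤ n) :
    |(SC : ℝ) * (Real.pi * k / n) - ((PIS * k / n : ℤ) : ℝ)| ≤ 2 := by
  have h1 := E3_floor (PIS * k) n hn
  have hn' : (0 : ℝ) < n := by exact_mod_cast hn
  have hk' : (0 : ℝ) ≤ k := by exact_mod_cast hk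
  have hkn' : (k : ℝ) ≤ n := by exact_mod_cast hkn
  have h2 : |(SC : ℝ) * (Real.pi * k / n) - ((PIS * k : ℤ) : ℝ) / n| ≤ 1 := by
    have e : (SC : ℝ) * (Real.pi * k / n) - ((PIS * k : ℤ) : ℝ) / n =
        ((SC : ℝ) * Real.pi - PIS) * (k / n) := by
      push_cast
      field_simp
    rw [e, abs_mul, abs_of_nonneg (div_nonneg hk' hn'.le)]
    calc |(SC : ℝ) * Real.pi - PIS| * (k / n) ≤ 1 * 1 := by
          apply mul_le_mul E3_pis _ (by positivity) (by norm_num)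
          rwa [div_le_one hn']
      _ = 1 := by norm_num
  have e : (SC : ℝ) * (Real.pi * k / n) - ((PIS * k / n : ℤ) : ℝ) =
      ((SC : ℝ) * (Real.pi * k / n) - ((PIS * k : ℤ) : ℝ) / n) +
      (((PIS * k : ℤ) : ℝ) / n - ((PIS * k / n : ℤ) : ℝ)) := by ring
  rw [e]
  refine (abs_add_le _ _).trans ?_
  linarith

theorem E3_mem_of {z : ℂ} {x y : ℝ} (hz : z = (x : ℂ) + (y : ℂ) * I) {p q : ℤ}
    (hx : |(SC : ℝ) * x - (p : ℝ)| ≤ 2) (hy : |(SC : ℝ) * y - (q : ℝ)| ≤ 2) :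
    (CB.mk p q 4).Mem z := by
  unfold CB.Mem
  simp only
  have e : (SC : ℂ) * z - ((p : ℂ) + (q : ℂ) * I) =
      (((SC : ℝ) * x - (p : ℝ) : ℝ) : ℂ) + (((SC : ℝ) * y - (q : ℝ) : ℝ) : ℂ) * I := by
    rw [hz]
    push_cast
    ring
  rw [e]
  refine (norm_add_le _ _).trans ?_
  rw [norm_mul, norm_I, mul_one, norm_real, norm_real, Real.norm_eq_abs, Real.norm_eq_abs]
  have h4 : (((4 : ℤ)) : ℝ) = 4 := by norm_num
  rw [h4]
  linarith

theorem E3_qs {k D n : ℤ} (hD : 0 < D) (hn : n = D * D + k * k) (hn0 : 0 < n) :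
    qs (((k : ℝ) / D : ℝ) : ℂ) = (exp (((Real.pi * ((D * k : ℤ) : ℝ) / n : ℝ) : ℂ) +
      ((Real.pi * ((D * D : ℤ) : ℝ) / n : ℝ) : ℂ) * I))⁻¹ := by
  have h0 : qs (((k : ℝ) / D : ℝ) : ℂ) =
      exp (Real.pi * I * (-1 / (1 + I * (((k : ℝ) / D : ℝ) : ℂ)))) := rfl
  rw [h0, ← exp_neg]
  refine congrArg exp ?_
  have hne : (1 + I * (((k : ℝ) / D : ℝ) : ℂ)) ≠ 0 := by
    intro h0
    have := congrArg re h0
    simp at this
  have hDC : (D : ℂ) ≠ 0 := by exact_mod_cast hD.ne'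
  have hnC : (n : ℂ) ≠ 0 := by exact_mod_cast hn0.ne'
  have hnC' : (n : ℂ) = D * D + k * k := by rw [hn]; push_cast; ring
  have e1 : (-1 : ℂ) / (1 + I * (((k : ℝ) / D : ℝ) : ℂ)) = -(D * (D - I * k)) / n := by
    rw [div_eq_div_iff hne hnC, hnC']
    push_cast
    field_simp
    linear_combination -(k : ℂ) ^ 2 * I_sq
  rw [e1]
  push_cast
  field_simp
  linear_combination (k : ℂ) * I_sq

theorem E3_mob {w : ℂ} (hw0 : w ≠ 0) (hw1 : w - 1 ≠ 0) {TN TD : ℤ} (hN : 0 < TN) (hTD : 0 < TD) :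
    mob w⁻¹ / ((((TN : ℝ) / TD : ℝ)) : ℂ) = I * ((w + 1) * (w - 1)⁻¹) * (TD / TN) := by
  unfold mob
  have hTNC : (TN : ℂ) ≠ 0 := by exact_mod_cast hN.ne'
  have hTDC : (TD : ℂ) ≠ 0 := by exact_mod_cast hTD.ne'
  have h1E : 1 - w⁻¹ ≠ 0 := by
    intro h0
    apply hw1
    have h00 := congrArg (fun v => w * v) h0
    simp only [mul_zero, mul_sub, mul_one, mul_inv_cancel₀ hw0] at h00
    exact h00
  push_cast
  field_simp

theorem E3_opt {o : Option CB} {TN TD : ℤ} {a : CB}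
    (h : CB.z2.match_1 (fun _ => Option CB) o (fun _ => none)
      (fun E => CB.z2.match_1 (fun _ => Option CB) E.sub1.inv (fun _ => none)
        (fun F => some ((((E.add1).mul F).mulI).rat TD TN))) =
      some a) : ∃ E F : CB, o = some E ∧ E.sub1.inv = some F ∧
        (((E.add1).mul F).mulI).rat TD TN = a := by
  cases o with
  | none => exact absurd h (by simp)
  | some E =>
    simp only at h
    revert h
    generalize hF : E.sub1.inv = o'
    intro h
    cases o' with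
    | none => exact absurd h (by simp)
    | some F => exact ⟨E, F, rfl, hF, Option.some.inj h⟩

theorem E3_fun : xNode = fun k D TN TD =>
    (have n := D * D + k * k
     CB.z2.match_1 (fun _ => Option CB) ((CB.mk (PIS * D * k / n) (PIS * D * D / n) 4).exp 3)
      (fun _ => none)
      (fun E => CB.z2.match_1 (fun _ => Option CB) E.sub1.inv (fun _ => none)
        (fun F => some ((((E.add1).mul F).mulI).rat TD TN)))) := by
  delta xNode
  rfl

theorem E3_node {k D TN TD : ℤ} {a : CB} (ha : xNode k D TN TD = some a) : ∃ E F : CB,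
    (CB.mk (PIS * D * k / (D * D + k * k)) (PIS * D * D / (D * D + k * k)) 4).exp 3 = some E ∧
    E.sub1.inv = some F ∧ (((E.add1).mul F).mulI).rat TD TN = a := by
  rw [E3_fun] at ha
  exact E3_opt ha

theorem E3_final {k D n TN TD : ℤ} (hk : 0 < k) (hD : 0 < D) (hN : 0 < TN) (hTD : 0 < TD)
    (hn : n = D * D + k * k) {E F : CB}
    (hE : (CB.mk (PIS * D * k / n) (PIS * D * D / n) 4).exp 3 = some E)
    (hF : E.sub1.inv = some F) :
    ((((E.add1).mul F).mulI).rat TD TN).Mem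
      (mob (qs (((k : ℝ) / D : ℝ) : ℂ)) / ((((TN : ℝ) / TD : ℝ)) : ℂ)) := by
  have hn0 : 0 < n := by rw [hn]; positivity
  have c1 := E3_coord (k := D * k) (n := n) (by positivity) hn0 (by rw [hn]; nlinarith)
  have c2 := E3_coord (k := D * D) (n := n) (by positivity) hn0 (by rw [hn]; nlinarith)
  rw [← mul_assoc] at c1 c2
  have hmem := E3_mem_of rfl c1 c2
  have h1 := mem_exp hmem hE
  have h2 := mem_inv (mem_sub1 h1) hF
  have h3 := mem_rat (mem_mulI (mem_mul (mem_add1 h1) h2.2)) hTD.le hN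
  rw [E3_qs hD hn hn0, E3_mob (exp_ne_zero _) h2.1 hN hTD]
  exact h3

theorem xNode_sound {k D TN TD : ℤ} (hk : 0 < k) (hD : 0 < D) (hN : 0 < TN) (hTD : 0 < TD) {a : CB}
    (ha : xNode k D TN TD = some a) :
    a.Mem (mob (qs (((k : ℝ) / D : ℝ) : ℂ)) / ((((TN : ℝ) / TD : ℝ)) : ℂ)) := by
  obtain ⟨E, F, hE, hF, rfl⟩ := E3_node ha
  exact E3_final hk hD hN hTD rfl hE hF

end Pool.Agent.Choc.Nu
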