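import Pool.Agent.Lib.MP_2b3e36_an.Nu.G1
import Pool.Agent.Lib.MP_2b3e36_an.Nu.G2

/-!
G4. The coordinate `Zm T` on `V (yT T)`.

`exp (π yT) = (T+1)/(T-1)`, so the slit is `{q real : (T-1)/(T+1) ≤ q < 1}`.
good: `q ∈ V`, `‖q‖ < 1`, `x = mob q / T`, `Im x > 0` by `mob_im_pos`. In `Gx`: if `Re x = 0` then `Im q = 0`
(`mob_re`), `q` real in `(-1, 1)`, not in the slit, so `q < (T-1)/(T+1)` (if `q > 0` then `q = exp (-π t)` with
`t > yT`), hence `(1+q)/(1-q) < T` and `0 < Im x < 1`.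
`Re joN < 2`: if `q = 0`: `Re x = 0`, `joN_lt_one`. Otherwise `q = nome τ` with `-1 ≤ Re τ < 1` (log),
`Im τ > 0`. If `Re τ ≥ 0` then `sin (π Re τ) ≥ 0`, `Re x ≤ 0`, use `joN_lt_one`. If `Re τ < 0`:
`q ∉ Bset` gives `‖τ+1/2‖ > 1/2`, i.e. `|τ|^2 + Re τ > 0`, i.e. `Re (-1/τ) = - Re τ/|τ|^2 < 1`; `region` with
`c = 1`: `Re x ≤ 2/(π T)`, `joN_bound`: `u - 1/u ≤ 4/(π T) ≤ 1.1` for `u = Re N`, so `u < 2`
(`2 - 1/2 = 1.5 > 1.1`, monotonicity).
Harmonic: `Lb b (Zm T q) = - Im (log (Zm T q - b))/π`, `Zm T q - b` has negative imaginary part, is in the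
slit plane, so `log (Zm T q - b)` is holomorphic on the open set `V`.
-/

set_option autoImplicit false

open Complex Set Filter Topology Metric

namespace Pool.Agent.Choc.Nu

theorem g4_one_lt {T : ℝ} (hT : 119 / 100 ≤ T) : 1 < (T + 1) / (T - 1) := by
  rw [one_lt_div (by linarith)]
  linarith

theorem yT_pos {T : ℝ} (hT : 119 / 100 ≤ T) : 0 < yT T := by
  unfold yT
  exact div_pos (Real.log_pos (g4_one_lt hT)) Real.pi_pos

theorem exp_yT {T : ℝ} (hT : 119 / 100 ≤ T) : Real.exp (Real.pi * yT T) = (T + 1) / (T - 1) := by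
  have h1 := g4_one_lt hT
  unfold yT
  rw [mul_div_cancel₀ _ Real.pi_ne_zero, Real.exp_log (by linarith)]

theorem g4_ne_one {q : ℂ} (hq : ‖q‖ < 1) : q ≠ 1 := by
  rintro rfl
  rw [norm_one] at hq
  exact lt_irrefl _ hq

theorem g4_normSq {q : ℂ} (hq : ‖q‖ < 1) : 0 < normSq (1 - q) :=
  normSq_pos.2 (sub_ne_zero.2 (g4_ne_one hq).symm)

/-- a real point outside the slit -/
theorem g4_real {T r : ℝ} (hT : 119 / 100 ≤ T) (h1 : r < 1)
    (hs : ((r : ℝ) : ℂ) ∉ slit (yT T)) : r < (T - 1) / (T + 1) := by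
  by_contra hc
  push Not at hc
  have h3 : 0 < (T - 1) / (T + 1) := div_pos (by linarith) (by linarith)
  have hr : 0 < r := lt_of_lt_of_le h3 hc
  apply hs
  refine ⟨-Real.log r / Real.pi, div_pos (neg_pos.2 (Real.log_neg hr h1)) Real.pi_pos, ?_, ?_⟩
  · unfold yT
    refine div_le_div_of_nonneg_right ?_ Real.pi_pos.le
    have h4 : Real.log ((T - 1) / (T + 1)) ≤ Real.log r := Real.log_le_log h3 hc
    have h5 : Real.log ((T + 1) / (T - 1)) = -Real.log ((T - 1) / (T + 1)) := by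
      rw [← Real.log_inv, inv_div]
    rw [h5]
    linarith
  · unfold nome
    have h6 : (Real.pi : ℂ) * I * (((-Real.log r / Real.pi : ℝ) : ℂ) * I) = ((Real.log r : ℝ) : ℂ) := by
      have hpi : (Real.pi : ℂ) ≠ 0 := by exact_mod_cast Real.pi_ne_zero
      push_cast
      field_simp
      rw [Complex.I_sq]
      ring
    rw [h6, ← Complex.ofReal_exp, Real.exp_log hr]

theorem g4_re {T : ℝ} (q : ℂ) : (mob q / T).re = (mob q).re / T := Complex.div_ofReal_re _ _

theorem g4_im {T : ℝ} (q : ℂ) : (mob q / T).im = (mob q).im / T := Complex.div_ofReal_im _ _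

theorem g4_mem {T : ℝ} (hT : 119 / 100 ≤ T) {q : ℂ} (hq : q ∈ V (yT T)) : mob q / T ∈ Gx := by
  obtain ⟨h1, -, h3⟩ := hq
  have hT0 : 0 < T := by linarith
  have hns := g4_normSq h1
  show (mob q / T).re ≠ 0 ∨ |(mob q / T).im| < 1
  by_cases hre : (mob q / T).re = 0
  · right
    rw [g4_re, div_eq_zero_iff] at hre
    have hre2 : (mob q).re = 0 := by
      rcases hre with h | h
      · exact h
      · exact absurd h hT0.ne'
    rw [mob_re, div_eq_zero_iff] at hre2
    have hqi : q.im = 0 := by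
      rcases hre2 with h | h
      · linarith
      · exact absurd h hns.ne'
    obtain ⟨r, hr⟩ : ∃ r : ℝ, q = (r : ℂ) := ⟨q.re, by
      apply Complex.ext
      · simp
      · simp [hqi]⟩
    subst hr
    have hr1 : |r| < 1 := by
      rw [Complex.norm_real, Real.norm_eq_abs] at h1
      exact h1
    obtain ⟨hr2, hr3⟩ := abs_lt.1 hr1
    have h4 := g4_real hT hr3 h3
    rw [lt_div_iff₀ (by linarith)] at h4
    have h5 : (mob (r : ℂ)).im = (1 + r) / (1 - r) := by
      rw [mob_im]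
      have h6 : normSq (1 - (r : ℂ)) = (1 - r) ^ 2 := by
        have : (1 - (r : ℂ)) = ((1 - r : ℝ) : ℂ) := by push_cast; rfl
        rw [this, Complex.normSq_ofReal]
        ring
      have h7 : ‖(r : ℂ)‖ ^ 2 = r ^ 2 := by
        rw [Complex.norm_real, Real.norm_eq_abs, sq_abs]
      rw [h6, h7]
      have h8 : (1 - r) ≠ 0 := by linarith
      field_simp
      ring
    rw [g4_im, h5]
    have h9 : 0 < (1 + r) / (1 - r) := div_pos (by linarith) (by linarith)
    rw [abs_of_pos (div_pos h9 hT0), div_lt_one hT0, div_lt_iff₀ (by linarith)]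
    nlinarith
  · exact Or.inl hre

theorem g4_two {T : ℝ} (hT : 119 / 100 ≤ T) {q : ℂ} (hq : q ∈ V (yT T)) :
    (joN (mob q / T)).re < 2 := by
  have hG := g4_mem hT hq
  obtain ⟨h1, h2, -⟩ := hq
  have hT0 : 0 < T := by linarith
  have hns := g4_normSq h1
  by_cases him : 0 ≤ q.im
  · have h3 : (mob q / T).re ≤ 0 := by
      rw [g4_re, mob_re]
      refine div_nonpos_of_nonpos_of_nonneg (div_nonpos_of_nonpos_of_nonneg ?_ hns.le) hT0.le
      linarith
    have := joN_lt_one hG h3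
    linarith
  push Not at him
  have hq0 : q ≠ 0 := by
    rintro rfl
    simp at him
  have harg1 : q.arg < 0 := Complex.arg_neg_iff.2 him
  have harg2 := Complex.neg_pi_lt_arg q
  have hlog : Real.log ‖q‖ < 0 := Real.log_neg (norm_pos_iff.2 hq0) h1
  have hpi := Real.pi_pos
  obtain ⟨τ, hτ⟩ : ∃ τ : ℂ, τ = ⟨q.arg / Real.pi, -Real.log ‖q‖ / Real.pi⟩ := ⟨_, rfl⟩
  have hre : τ.re = q.arg / Real.pi := by rw [hτ]
  have himt : τ.im = -Real.log ‖q‖ / Real.pi := by rw [hτ]
  have hn : nome τ = q := by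
    unfold nome
    have h3 : (Real.pi : ℂ) * I * τ = Complex.log q := by
      apply Complex.ext
      · rw [Complex.log_re]
        simp [himt]
        field_simp
      · rw [Complex.log_im]
        simp [hre]
        field_simp
    rw [h3, Complex.exp_log hq0]
  have hre1 : τ.re < 0 := by
    rw [hre]
    exact div_neg_of_neg_of_pos harg1 hpi
  have hre2 : -1 < τ.re := by
    rw [hre, lt_div_iff₀ hpi]
    linarith
  have himt2 : 0 < τ.im := by
    rw [himt]
    exact div_pos (by linarith) hpi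
  have hB : 1 / 2 < ‖τ + 1 / 2‖ := by
    by_contra hc
    push Not at hc
    exact h2 ⟨τ, himt2, hc, hn⟩
  have hB2 : 0 < τ.re + normSq τ := by
    have h3 : (1 / 2 : ℝ) ^ 2 < ‖τ + 1 / 2‖ ^ 2 := by
      exact pow_lt_pow_left₀ hB (by norm_num) two_ne_zero
    rw [← Complex.normSq_eq_norm_sq, Complex.normSq_apply] at h3
    rw [Complex.normSq_apply]
    have h4 : (τ + 1 / 2).re = τ.re + 1 / 2 := by simp
    have h5 : (τ + 1 / 2).im = τ.im := by simp
    rw [h4, h5] at h3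
    nlinarith
  have hns2 : 0 < normSq τ := by linarith
  have hc : (-1 / τ).re ≤ 1 := by
    have h3 : (-1 / τ).re = -τ.re / normSq τ := by
      rw [Complex.div_re]
      simp
    rw [h3, div_le_one hns2]
    linarith
  have hreg := region (by linarith : -2 < τ.re) hre1 hc
  rw [hn, mul_one] at hreg
  have hxre : (mob q / T).re ≤ 2 / Real.pi / T := by
    rw [g4_re]
    exact div_le_div_of_nonneg_right hreg hT0.le
  have hb := joN_bound hG
  have hpos := joN_re hG
  by_contra hcon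
  push Not at hcon
  have h6 : 1 / (joN (mob q / T)).re ≤ 1 / 2 := one_div_le_one_div_of_le (by norm_num) hcon
  have h7 : 2 / Real.pi / T ≤ 7 / 10 := by
    rw [div_le_iff₀ hT0, div_le_iff₀ hpi]
    nlinarith [Real.pi_gt_three]
  linarith

theorem V_good {T : ℝ} (hT : 119 / 100 ≤ T) {q : ℂ} (hq : q ∈ V (yT T)) :
    mob q / T ∈ Gx ∧ 0 < (mob q / T).im ∧ (joN (mob q / T)).re < 2 := by
  refine ⟨g4_mem hT hq, ?_, g4_two hT hq⟩
  rw [g4_im]
  exact div_pos (mob_im_pos hq.1) (by linarith)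

theorem Zm_im {T : ℝ} (hT : 119 / 100 ≤ T) {q : ℂ} (hq : q ∈ V (yT T)) : (Zm T q).im < 0 := by
  obtain ⟨h1, h2, h3⟩ := V_good hT hq
  exact Zx_im_neg h1 h3 h2

theorem Lb_bd {b : ℝ} {z : ℂ} (hz : z.im < 0) : 0 < Lb b z ∧ Lb b z < 1 := by
  have h0 : (z - b).im < 0 := by
    rw [Complex.sub_im, Complex.ofReal_im, sub_zero]
    exact hz
  have h1 : arg (z - b) < 0 := Complex.arg_neg_iff.2 h0
  have h2 := Complex.neg_pi_lt_arg (z - b)
  unfold Lb
  refine ⟨div_pos (by linarith) Real.pi_pos, ?_⟩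
  rw [div_lt_one Real.pi_pos]
  linarith

theorem g4_Zm_diff {T : ℝ} (hT : 119 / 100 ≤ T) : DifferentiableOn ℂ (Zm T) (V (yT T)) := by
  have h1 : DifferentiableOn ℂ (fun q : ℂ => mob q / T) (V (yT T)) := by
    intro q hq
    exact ((mob_diffAt (g4_ne_one hq.1)).div_const _).differentiableWithinAt
  exact Zx_diff.comp h1 (fun q hq => g4_mem hT hq)

theorem Lb_harm {T : ℝ} (hT : 119 / 100 ≤ T) (b : ℝ) :
    InnerProductSpace.HarmonicOnNhd (fun q => Lb b (Zm T q)) (V (yT T)) := by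
  intro q hq
  have ha : AnalyticAt ℂ (Zm T) q :=
    (g4_Zm_diff hT).analyticAt ((V_isOpen (yT_pos hT)).mem_nhds hq)
  have him : (Zm T q - b).im < 0 := by
    rw [Complex.sub_im, Complex.ofReal_im, sub_zero]
    exact Zm_im hT hq
  have hslit : Zm T q - b ∈ slitPlane := Complex.mem_slitPlane_iff.2 (Or.inr him.ne)
  have h1 : AnalyticAt ℂ (fun v : ℂ => log (Zm T v - b) * ((-1 / Real.pi : ℝ) : ℂ)) q := by
    refine AnalyticAt.mul (AnalyticAt.clog ?_ hslit) analyticAt_const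
    exact ha.sub analyticAt_const
  have h2 := h1.harmonicAt_im
  have h3 : (fun z : ℂ => (log (Zm T z - b) * ((-1 / Real.pi : ℝ) : ℂ)).im) =
      fun z => Lb b (Zm T z) := by
    funext z
    rw [Complex.im_mul_ofReal, Complex.log_im]
    unfold Lb
    ring
  rw [h3] at h2
  exact h2

end Pool.Agent.Choc.Nu
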