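import Pool.Agent.Lib.MP_2b3e36_an.Nu.G4

/-!
G5. The limit at the slit is `0`.

`ζ = exp (-π t)`, `0 < t ≤ yT T`: `mob ζ = i coth (π t/2)`, so `x → i ξ` with `ξ ≥ 1` real, as `q → ζ`.
Let `R = rt (1 + x^2)`: `(Re R)^2 = (|1+x^2| + Re (1+x^2))/2` (from `R^2 = 1+x^2`, `|R|^2 = |1+x^2|`), tends to
`(|1-ξ^2| + (1-ξ^2))/2 = 0`. So `Re N = Re x + Re R → 0` (and `Re N > 0`). `|N| ≤ |x| + |R|` and
`|1/N| = |R - x| ≤ |x| + |R|` stay bounded by a constant `C`, so with `n1 = Re N → 0`, `|n2| = |Im N|` stays in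
`[1/(2C), C]`. Hence (`Zx_re`, `Zx_im`) `Im Z → 0` and `Re Z ≥ 1 + δ` eventually, with a `δ > 0`
(`cos (π n1/2) → 1`, `cosh (π n2/2) ≥ cosh (π/(4C)) > 1`). As `Re Z - b ≥ δ > 0`,
`|arg (Z - b)| ≤ |Im Z|/(Re Z - b)·..→ 0` (e.g. `arg = arcsin (im/|.|)` or continuity of `arg` on the compact set
or: `|arg w| ≤ π/2 · |Im w|/|w|` for `Re w > 0`).
-/

set_option autoImplicit false

open Complex Set Filter Topology Metric

namespace Pool.Agent.Choc.Nu

theorem G5_xi {T t : ℝ} (hT : 119 / 100 ≤ T) (h0 : 0 < t) (ht : t ≤ yT T) :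
    nome (t * I) ≠ 1 ∧ ∃ ξ : ℝ, 1 ≤ ξ ∧ mob (nome (t * I)) / T = ξ * I := by
  have hT0 : 0 < T := lt_of_lt_of_le (by norm_num) hT
  have hT1 : 1 < T := lt_of_lt_of_le (by norm_num) hT
  have hre : ((t : ℂ) * I).re = 0 := by simp
  have him : ((t : ℂ) * I).im = t := by simp
  have hτ : ((t : ℂ) * I).im ≠ 0 ∨ (-2 < ((t : ℂ) * I).re ∧ ((t : ℂ) * I).re < 0) := by
    left
    rw [him]
    exact h0.ne'
  refine ⟨nome_ne_one hτ, (mob (nome (t * I))).im / T, ?_, ?_⟩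
  · have h1 := mob_nome_im hτ
    rw [him, hre, mul_zero, Real.cos_zero] at h1
    have hpos := cosh_sub_pos hτ
    rw [him, hre, mul_zero, Real.cos_zero] at hpos
    rw [one_le_div hT0, h1, le_div_iff₀ hpos]
    have hE : 1 < Real.exp (Real.pi * t) := by
      rw [Real.one_lt_exp_iff]
      exact mul_pos Real.pi_pos h0
    have hE' : 0 < Real.exp (-(Real.pi * t)) := Real.exp_pos _
    have hEE : Real.exp (Real.pi * t) * Real.exp (-(Real.pi * t)) = 1 := by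
      rw [← Real.exp_add, add_neg_cancel, Real.exp_zero]
    have hle : Real.exp (Real.pi * t) ≤ (T + 1) / (T - 1) := by
      rw [← exp_yT hT, Real.exp_le_exp]
      exact mul_le_mul_of_nonneg_left ht Real.pi_pos.le
    rw [le_div_iff₀ (by linarith)] at hle
    rw [Real.cosh_eq, Real.sinh_eq]
    generalize Real.exp (Real.pi * t) = E at *
    generalize Real.exp (-(Real.pi * t)) = F at *
    have key : (E - F) / 2 - T * ((E + F) / 2 - 1)
        = F / 2 * ((E - 1) * ((E + 1) - T * (E - 1))) := by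
      linear_combination (-(E + 1) / 2 + T * (E - 2) / 2 + (1 - E * F) / 2 * 0) * 0
        + (T * E / 2 - E / 2 - T) * hEE
    have h2 : 0 ≤ F / 2 * ((E - 1) * ((E + 1) - T * (E - 1))) := by
      refine mul_nonneg (by linarith) (mul_nonneg (by linarith) ?_)
      linarith
    linarith
  · apply Complex.ext
    · rw [Complex.div_ofReal_re, mob_nome_re hτ, hre, mul_zero, Real.sin_zero]
      simp
    · rw [Complex.div_ofReal_im]
      simp

theorem G5_re_sq (R : ℂ) : R.re ^ 2 = (‖R ^ 2‖ + (R ^ 2).re) / 2 := by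
  rw [norm_pow, ← Complex.normSq_eq_norm_sq, Complex.normSq_apply, sq R, Complex.mul_re]
  ring

theorem G5_arg {w : ℂ} (h : 0 < w.re) : arg w = Real.arcsin (w.im / ‖w‖) :=
  Complex.arg_of_re_nonneg h.le

theorem lim_slit {T : ℝ} (hT : 119 / 100 ≤ T) {b : ℝ} (hb : b ≤ 1) {ζ : ℂ}
    (hζ : ζ ∈ slit (yT T)) :
    Tendsto (fun q => Lb b (Zm T q)) (𝓝[V (yT T)] ζ) (𝓝 0) := by
  obtain ⟨t, ht0, htT, rfl⟩ := hζ
  obtain ⟨hne, ξ, hξ, hx⟩ := G5_xi hT ht0 htT
  generalize nome (t * I) = ζ at hne hx ⊢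
  have hξ0 : 0 < ξ := lt_of_lt_of_le one_pos hξ
  -- the limit of `x`
  have hxc : Tendsto (fun q => mob q / (T : ℂ)) (𝓝[V (yT T)] ζ) (𝓝 (ξ * I)) := by
    have h1 : ContinuousAt (fun q => mob q / (T : ℂ)) ζ :=
      (mob_diffAt hne).continuousAt.div_const _
    have h2 := h1.tendsto
    rw [hx] at h2
    exact h2.mono_left nhdsWithin_le_nhds
  have hV : ∀ᶠ q in 𝓝[V (yT T)] ζ, q ∈ V (yT T) := self_mem_nhdsWithin
  have hwc : Tendsto (fun q => 1 + (mob q / (T : ℂ)) ^ 2) (𝓝[V (yT T)] ζ)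
      (𝓝 (1 + (ξ * I) ^ 2)) := tendsto_const_nhds.add (hxc.pow 2)
  have hw0 : (1 : ℂ) + (ξ * I) ^ 2 = ((1 - ξ ^ 2 : ℝ) : ℂ) := by
    rw [mul_pow, Complex.I_sq]
    push_cast
    ring
  rw [hw0] at hwc
  -- the real part of the root
  have hRre : Tendsto (fun q => (rt (1 + (mob q / (T : ℂ)) ^ 2)).re) (𝓝[V (yT T)] ζ) (𝓝 0) := by
    have h1 : Tendsto (fun q => √((‖1 + (mob q / (T : ℂ)) ^ 2‖ +
        (1 + (mob q / (T : ℂ)) ^ 2).re) / 2)) (𝓝[V (yT T)] ζ)
        (𝓝 (√((‖((1 - ξ ^ 2 : ℝ) : ℂ)‖ + ((1 - ξ ^ 2 : ℝ) : ℂ).re) / 2))) := by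
      refine (Real.continuous_sqrt.tendsto _).comp ?_
      exact (hwc.norm.add ((Complex.continuous_re.tendsto _).comp hwc)).div_const 2
    have h2 : √((‖((1 - ξ ^ 2 : ℝ) : ℂ)‖ + ((1 - ξ ^ 2 : ℝ) : ℂ).re) / 2) = 0 := by
      rw [Complex.norm_real, Complex.ofReal_re, Real.norm_eq_abs, abs_of_nonpos (by nlinarith)]
      simp
    rw [h2] at h1
    refine h1.congr' ?_
    filter_upwards [hV] with q hq
    obtain ⟨hG, -, -⟩ := V_good hT hq
    have h3 := rt_re (g1_slit hG)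
    have h4 := rt_sq (Complex.slitPlane_ne_zero (g1_slit hG))
    rw [← h4, ← G5_re_sq, h4, Real.sqrt_sq h3.le]
  have hn1 : Tendsto (fun q => (joN (mob q / (T : ℂ))).re) (𝓝[V (yT T)] ζ) (𝓝 0) := by
    have h1 : Tendsto (fun q => (mob q / (T : ℂ)).re) (𝓝[V (yT T)] ζ) (𝓝 0) := by
      have h2 := (Complex.continuous_re.tendsto _).comp hxc
      have h3 : ((ξ : ℂ) * I).re = 0 := by simp
      rw [h3] at h2
      exact h2
    have h4 := h1.add hRre
    rw [add_zero] at h4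
    exact h4
  -- bounds for the modulus
  obtain ⟨C, hC0, hC⟩ : ∃ C : ℝ, 0 < C ∧ ∀ᶠ q in 𝓝[V (yT T)] ζ,
      ‖mob q / (T : ℂ)‖ + √‖1 + (mob q / (T : ℂ)) ^ 2‖ < C := by
    have h1 : Tendsto (fun q => ‖mob q / (T : ℂ)‖ + √‖1 + (mob q / (T : ℂ)) ^ 2‖)
        (𝓝[V (yT T)] ζ) (𝓝 (‖(ξ : ℂ) * I‖ + √‖((1 - ξ ^ 2 : ℝ) : ℂ)‖)) :=
      hxc.norm.add ((Real.continuous_sqrt.tendsto _).comp hwc.norm)
    refine ⟨‖(ξ : ℂ) * I‖ + √‖((1 - ξ ^ 2 : ℝ) : ℂ)‖ + 1, by positivity, ?_⟩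
    exact h1.eventually_lt_const (by linarith)
  have hN : ∀ᶠ q in 𝓝[V (yT T)] ζ, ‖joN (mob q / (T : ℂ))‖ < C ∧
      1 / C < ‖joN (mob q / (T : ℂ))‖ := by
    filter_upwards [hV, hC] with q hq hq2
    obtain ⟨hG, -, -⟩ := V_good hT hq
    have h4 := rt_sq (Complex.slitPlane_ne_zero (g1_slit hG))
    generalize mob q / (T : ℂ) = x at *
    have h5 : ‖rt (1 + x ^ 2)‖ = √‖1 + x ^ 2‖ := by
      rw [← h4, norm_pow, h4, Real.sqrt_sq (norm_nonneg _)]
    have h6 : ‖joN x‖ < C := by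
      refine lt_of_le_of_lt ?_ hq2
      rw [← h5]
      exact norm_add_le _ _
    have h7 : joN x * (rt (1 + x ^ 2) - x) = 1 := by
      unfold joN
      linear_combination h4
    have h8 : ‖joN x‖ * ‖rt (1 + x ^ 2) - x‖ = 1 := by
      rw [← norm_mul, h7, norm_one]
    have h9 : ‖rt (1 + x ^ 2) - x‖ < C := by
      have h9' := norm_sub_le (rt (1 + x ^ 2)) x
      rw [h5] at h9'
      linarith
    refine ⟨h6, ?_⟩
    rw [div_lt_iff₀ hC0]
    have h10 : 0 < ‖joN x‖ := by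
      rcases (norm_nonneg (joN x)).eq_or_lt with h | h
      · rw [← h, zero_mul] at h8
        exact absurd h8 (by norm_num)
      · exact h
    calc (1 : ℝ) = ‖joN x‖ * ‖rt (1 + x ^ 2) - x‖ := h8.symm
      _ < ‖joN x‖ * C := mul_lt_mul_of_pos_left h9 h10
  have hn2 : ∀ᶠ q in 𝓝[V (yT T)] ζ, 1 / (2 * C) ≤ |(joN (mob q / (T : ℂ))).im| ∧
      |(joN (mob q / (T : ℂ))).im| ≤ C := by
    have h1 : ∀ᶠ q in 𝓝[V (yT T)] ζ, ((joN (mob q / (T : ℂ))).re) ^ 2 < (1 / (2 * C)) ^ 2 := by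
      have h2 := hn1.pow 2
      rw [zero_pow two_ne_zero] at h2
      exact h2.eventually_lt_const (by positivity)
    filter_upwards [h1, hN] with q hq1 hq2
    generalize joN (mob q / (T : ℂ)) = N at *
    refine ⟨?_, (Complex.abs_im_le_norm N).trans hq2.1.le⟩
    refine abs_le_of_sq_le_sq' ?_ (abs_nonneg _) |>.2
    have h3 : ‖N‖ ^ 2 = N.re ^ 2 + N.im ^ 2 := by
      rw [← Complex.normSq_eq_norm_sq, Complex.normSq_apply]
      ring
    have h4 : (1 / C) ^ 2 < ‖N‖ ^ 2 := by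
      have h5 : 0 < 1 / C := by positivity
      nlinarith [hq2.2]
    have h6 : (1 / C) ^ 2 = 4 * (1 / (2 * C)) ^ 2 := by
      field_simp
      ring
    rw [sq_abs]
    nlinarith [sq_nonneg (1 / (2 * C))]
  -- the imaginary part of `Z`
  have hpi := Real.pi_pos
  have hIm : Tendsto (fun q => (Zm T q).im) (𝓝[V (yT T)] ζ) (𝓝 0) := by
    have h1 : Tendsto (fun q => |Real.sin (Real.pi / 2 * (joN (mob q / (T : ℂ))).re)| *
        Real.cosh (Real.pi / 2 * C)) (𝓝[V (yT T)] ζ) (𝓝 0) := by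
      have h2 : Tendsto (fun q => Real.pi / 2 * (joN (mob q / (T : ℂ))).re) (𝓝[V (yT T)] ζ)
          (𝓝 (Real.pi / 2 * 0)) := hn1.const_mul _
      rw [mul_zero] at h2
      have h3 := ((Real.continuous_sin.tendsto 0).comp h2).abs.mul_const
        (Real.cosh (Real.pi / 2 * C))
      rw [Real.sin_zero, abs_zero, zero_mul] at h3
      exact h3
    refine squeeze_zero_norm' ?_ h1
    filter_upwards [hn2] with q hq
    have h2 : (Zm T q).im = -(Real.sin (Real.pi / 2 * (joN (mob q / (T : ℂ))).re) *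
        Real.sinh (Real.pi / 2 * (joN (mob q / (T : ℂ))).im)) := Zx_im
    rw [h2, norm_neg, norm_mul, Real.norm_eq_abs, Real.norm_eq_abs]
    refine mul_le_mul_of_nonneg_left ?_ (abs_nonneg _)
    rw [Real.abs_sinh]
    refine (Real.sinh_lt_cosh _).le.trans ?_
    rw [Real.cosh_le_cosh, abs_abs, abs_mul, abs_of_pos (by positivity : 0 < Real.pi / 2 * C),
      abs_of_pos (by positivity : 0 < Real.pi / 2)]
    exact mul_le_mul_of_nonneg_left hq.2 (by positivity)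
  -- the real part of `Z`
  obtain ⟨δ, hδ, hRe⟩ : ∃ δ : ℝ, 0 < δ ∧ ∀ᶠ q in 𝓝[V (yT T)] ζ, 1 + δ < (Zm T q).re := by
    have hK : 1 < Real.cosh (Real.pi / 2 * (1 / (2 * C))) := by
      rw [Real.one_lt_cosh]
      positivity
    generalize hKdef : Real.cosh (Real.pi / 2 * (1 / (2 * C))) = K at hK
    refine ⟨(K - 1) / 2, by linarith, ?_⟩
    have h2 : Tendsto (fun q => Real.pi / 2 * (joN (mob q / (T : ℂ))).re) (𝓝[V (yT T)] ζ)
        (𝓝 (Real.pi / 2 * 0)) := hn1.const_mul _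
    rw [mul_zero] at h2
    have h3 := (Real.continuous_cos.tendsto 0).comp h2
    rw [Real.cos_zero] at h3
    have h4 : ∀ᶠ q in 𝓝[V (yT T)] ζ,
        0 < Real.cos (Real.pi / 2 * (joN (mob q / (T : ℂ))).re) :=
      h3.eventually_const_lt one_pos
    have h5 : ∀ᶠ q in 𝓝[V (yT T)] ζ,
        1 + (K - 1) / 2 < Real.cos (Real.pi / 2 * (joN (mob q / (T : ℂ))).re) * K := by
      have h6 := h3.mul_const K
      rw [one_mul] at h6
      exact h6.eventually_const_lt (by linarith)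
    filter_upwards [h4, h5, hn2] with q hq4 hq5 hq2
    have h7 : (Zm T q).re = Real.cos (Real.pi / 2 * (joN (mob q / (T : ℂ))).re) *
        Real.cosh (Real.pi / 2 * (joN (mob q / (T : ℂ))).im) := Zx_re
    rw [h7]
    refine lt_of_lt_of_le hq5 (mul_le_mul_of_nonneg_left ?_ hq4.le)
    rw [← hKdef, Real.cosh_le_cosh, abs_mul, abs_mul,
      abs_of_pos (by positivity : 0 < Real.pi / 2),
      abs_of_pos (by positivity : 0 < 1 / (2 * C))]
    exact mul_le_mul_of_nonneg_left hq2.1 (by positivity)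
  -- conclusion
  have h1 : Tendsto (fun q => (Zm T q - b).im / ‖Zm T q - b‖) (𝓝[V (yT T)] ζ) (𝓝 0) := by
    have h2 : Tendsto (fun q => |(Zm T q).im| / δ) (𝓝[V (yT T)] ζ) (𝓝 0) := by
      have h3 := hIm.abs.div_const δ
      rw [abs_zero, zero_div] at h3
      exact h3
    refine squeeze_zero_norm' ?_ h2
    filter_upwards [hRe] with q hq
    have h4 : (Zm T q - (b : ℂ)).im = (Zm T q).im := by
      rw [Complex.sub_im, Complex.ofReal_im, sub_zero]
    have h5 : (Zm T q - (b : ℂ)).re = (Zm T q).re - b := by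
      rw [Complex.sub_re, Complex.ofReal_re]
    have h6 : δ ≤ ‖Zm T q - (b : ℂ)‖ := by
      refine le_trans ?_ (Complex.re_le_norm _)
      rw [h5]
      linarith
    rw [norm_div, Real.norm_eq_abs, norm_norm, h4]
    exact div_le_div_of_nonneg_left (abs_nonneg _) hδ h6
  have h2 : Tendsto (fun q => -Real.arcsin ((Zm T q - b).im / ‖Zm T q - b‖) / Real.pi)
      (𝓝[V (yT T)] ζ) (𝓝 0) := by
    have h3 := ((Real.continuous_arcsin.tendsto 0).comp h1).neg.div_const Real.pi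
    rw [Real.arcsin_zero, neg_zero, zero_div] at h3
    exact h3
  refine h2.congr' ?_
  filter_upwards [hRe] with q hq
  have h5 : 0 < (Zm T q - (b : ℂ)).re := by
    rw [Complex.sub_re, Complex.ofReal_re]
    linarith
  unfold Lb
  rw [G5_arg h5]

end Pool.Agent.Choc.Nu
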