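import Pool.Agent.Lib.MP_2b3e36_an.Nu.Defs

/-!
I0. Taylor coefficients and the real part.

coeff: `f` holomorphic on the ball of radius `ρ` about a real point `m`, `|Re f - c| ≤ A` there. For `0 < r < ρ`
the Taylor coefficients `a_k`, `k ≥ 1`, satisfy `|a_k| ≤ 2 A/r^k`: `2π a_k r^k = ∫ f(m + r e^{iθ}) e^{-ikθ} dθ` and
`0 = ∫ conj f(m + r e^{iθ}) e^{-ikθ} dθ` (conjugate of `∫ f e^{ikθ} = 0`, Cauchy), `∫ e^{-ikθ} = 0`, so
`2π a_k r^k = ∫ 2 (Re f - c) e^{-ikθ} dθ`. Let `r → ρ`.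
-/

set_option autoImplicit false

open Complex Set Filter Topology Metric

namespace Pool.Agent.Choc.Nu

theorem i0_neg (g : ℂ → ℂ) (m : ℂ) {r : ℝ} (hr : 0 < r) (k : ℕ) :
    (∮ z in C(m, r), (1 / (z - m) ^ (k + 1)) • g z) =
      I * ((r : ℂ) ^ k)⁻¹ * ∫ θ in (0 : ℝ)..2 * Real.pi,
        exp (-((k : ℂ) * θ * I)) * g (circleMap m r θ) := by
  unfold circleIntegral
  rw [← intervalIntegral.integral_const_mul]
  refine intervalIntegral.integral_congr fun θ _ => ?_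
  have hr' : (r : ℂ) ≠ 0 := by exact_mod_cast hr.ne'
  simp only [deriv_circleMap, smul_eq_mul, circleMap_sub_center]
  have h0 : circleMap 0 r θ = r * exp (θ * I) := by simp [circleMap]
  rw [h0]
  have he : exp (θ * I) ≠ 0 := exp_ne_zero _
  have h1 : exp (-((k : ℂ) * θ * I)) = (exp (θ * I) ^ k)⁻¹ := by
    rw [← exp_nat_mul, ← exp_neg]
    ring_nf
  rw [h1]
  field_simp
  ring

theorem i0_pos (g : ℂ → ℂ) (m : ℂ) {r : ℝ} (k : ℕ) :
    (∮ z in C(m, r), ((z - m) ^ k) • g z) =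
      I * (r : ℂ) ^ (k + 1) * ∫ θ in (0 : ℝ)..2 * Real.pi,
        exp ((((k + 1 : ℕ) : ℂ) * θ * I)) * g (circleMap m r θ) := by
  unfold circleIntegral
  rw [← intervalIntegral.integral_const_mul]
  refine intervalIntegral.integral_congr fun θ _ => ?_
  simp only [deriv_circleMap, smul_eq_mul, circleMap_sub_center]
  have h0 : circleMap 0 r θ = r * exp (θ * I) := by simp [circleMap]
  rw [h0]
  have h1 : exp ((((k + 1 : ℕ) : ℂ) * θ * I)) = exp (θ * I) ^ (k + 1) := by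
    rw [← exp_nat_mul]
    ring_nf
  rw [h1]
  ring

theorem i0_conj (h : ℝ → ℂ) : (∫ θ in (0 : ℝ)..2 * Real.pi, starRingEnd ℂ (h θ)) =
    starRingEnd ℂ (∫ θ in (0 : ℝ)..2 * Real.pi, h θ) := by
  have hp : (0 : ℝ) ≤ 2 * Real.pi := by positivity
  rw [intervalIntegral.integral_of_le hp, intervalIntegral.integral_of_le hp, integral_conj]

/-- the bound on a smaller circle -/
theorem i0_bound {f : ℂ → ℂ} {m : ℂ} {ρ c A r : ℝ} (hr : 0 < r) (hrρ : r < ρ)
    (hf : DifferentiableOn ℂ f (ball m ρ)) (hA : ∀ z ∈ ball m ρ, |(f z).re - c| ≤ A) (k : ℕ)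
    (hk : 1 ≤ k) : ‖((k.factorial : ℂ))⁻¹ * iteratedDeriv k f m‖ * r ^ k ≤ 2 * A := by
  obtain ⟨j, rfl⟩ : ∃ j, k = j + 1 := ⟨k - 1, by omega⟩
  set E : ℝ → ℂ := fun θ => exp (-(((j + 1 : ℕ) : ℂ) * θ * I)) with hE
  set F : ℝ → ℂ := fun θ => f (circleMap m r θ) with hF
  have hcl : closedBall m r ⊆ ball m ρ := closedBall_subset_ball hrρ
  have hd : DifferentiableOn ℂ f (closedBall m r) := hf.mono hcl
  have hmem : ∀ θ : ℝ, circleMap m r θ ∈ ball m ρ := fun θ =>
    hcl (circleMap_mem_closedBall m hr.le θ)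
  have hr' : (r : ℂ) ≠ 0 := by exact_mod_cast hr.ne'
  have hpi : (2 * (Real.pi : ℂ) * I) ≠ 0 := two_pi_I_ne_zero
  have hfac : (((j + 1).factorial : ℕ) : ℂ) ≠ 0 := by exact_mod_cast (Nat.factorial_ne_zero _)
  -- first integral
  have a1 : (∫ θ in (0 : ℝ)..2 * Real.pi, E θ * F θ) =
      2 * Real.pi * ((((j + 1).factorial : ℕ) : ℂ)⁻¹ * iteratedDeriv (j + 1) f m) *
        (r : ℂ) ^ (j + 1) := by
    have h1 := i0_neg f m hr (j + 1)
    have h2 := DifferentiableOn.circleIntegral_one_div_sub_center_pow_smul hr (j + 1) hd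
    rw [h1] at h2
    have h3 : (∫ θ in (0 : ℝ)..2 * Real.pi, E θ * F θ) =
        (∫ θ in (0 : ℝ)..2 * Real.pi,
          exp (-(((j + 1 : ℕ) : ℂ) * θ * I)) * f (circleMap m r θ)) := rfl
    rw [h3]
    rw [smul_eq_mul] at h2
    have hI : I * ((r : ℂ) ^ (j + 1))⁻¹ ≠ 0 := mul_ne_zero I_ne_zero (inv_ne_zero (pow_ne_zero _ hr'))
    apply mul_left_cancel₀ hI
    rw [h2]
    field_simp
  -- second integral
  have a2 : (∫ θ in (0 : ℝ)..2 * Real.pi, E θ * starRingEnd ℂ (F θ)) = 0 := by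
    have h1 := i0_pos f m (r := r) j
    have h2 : (∮ z in C(m, r), ((z - m) ^ j) • f z) = 0 := by
      have hd2 : DifferentiableOn ℂ (fun z => ((z - m) ^ j) • f z) (closedBall m r) := by
        have h4 : DifferentiableOn ℂ (fun z : ℂ => (z - m) ^ j) (closedBall m r) := by fun_prop
        exact h4.smul hd
      exact (hd2.mono closure_ball_subset_closedBall).diffContOnCl.circleIntegral_eq_zero hr.le
    rw [h2] at h1
    have hI : I * (r : ℂ) ^ (j + 1) ≠ 0 := mul_ne_zero I_ne_zero (pow_ne_zero _ hr')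
    have h3 := (mul_eq_zero.1 h1.symm).resolve_left hI
    have h5 : (fun θ : ℝ => E θ * starRingEnd ℂ (F θ)) = fun θ : ℝ =>
        starRingEnd ℂ (exp ((((j + 1 : ℕ) : ℂ) * θ * I)) * f (circleMap m r θ)) := by
      funext θ
      rw [map_mul, ← exp_conj]
      simp only [hE, hF, map_mul, conj_I, conj_ofReal, map_natCast]
      ring_nf
    rw [h5, i0_conj, h3, map_zero]
  -- third integral
  have a3 : (∫ θ in (0 : ℝ)..2 * Real.pi, E θ * (1 : ℂ)) = 0 := by
    have h1 := i0_neg (fun _ => (1 : ℂ)) m hr (j + 1)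
    have h2 := DifferentiableOn.circleIntegral_one_div_sub_center_pow_smul hr (j + 1)
      (f := fun _ => (1 : ℂ)) (c := m) (differentiableOn_const _)
    rw [h1] at h2
    have h4 : iteratedDeriv (j + 1) (fun _ : ℂ => (1 : ℂ)) m = 0 := by
      simp [iteratedDeriv_const]
    rw [h4, smul_zero] at h2
    have hI : I * ((r : ℂ) ^ (j + 1))⁻¹ ≠ 0 := mul_ne_zero I_ne_zero (inv_ne_zero (pow_ne_zero _ hr'))
    exact (mul_eq_zero.1 h2).resolve_left hI
  have hFc : Continuous F := hf.continuousOn.comp_continuous (continuous_circleMap m r) hmem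
  have hEc : Continuous E := by
    simp only [hE]
    fun_prop
  have hFc' : Continuous fun θ => starRingEnd ℂ (F θ) := continuous_conj.comp hFc
  have i1 : IntervalIntegrable (fun θ => E θ * F θ) MeasureTheory.volume 0 (2 * Real.pi) :=
    (hEc.mul hFc).intervalIntegrable _ _
  have i2 : IntervalIntegrable (fun θ => E θ * starRingEnd ℂ (F θ)) MeasureTheory.volume 0
      (2 * Real.pi) := (hEc.mul hFc').intervalIntegrable _ _
  have i3 : IntervalIntegrable (fun θ => (2 * (c : ℂ)) * (E θ * 1)) MeasureTheory.volume 0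
      (2 * Real.pi) := (continuous_const.mul (hEc.mul continuous_const)).intervalIntegrable _ _
  have hsum : (∫ θ in (0 : ℝ)..2 * Real.pi,
      (E θ * F θ + E θ * starRingEnd ℂ (F θ) - (2 * (c : ℂ)) * (E θ * 1))) =
      2 * Real.pi * ((((j + 1).factorial : ℕ) : ℂ)⁻¹ * iteratedDeriv (j + 1) f m) *
        (r : ℂ) ^ (j + 1) := by
    rw [intervalIntegral.integral_sub (i1.add i2) i3, intervalIntegral.integral_add i1 i2,
      intervalIntegral.integral_const_mul, a1, a2, a3]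
    ring
  have hnorm : ‖∫ θ in (0 : ℝ)..2 * Real.pi,
      (E θ * F θ + E θ * starRingEnd ℂ (F θ) - (2 * (c : ℂ)) * (E θ * 1))‖ ≤
      (2 * A) * |2 * Real.pi - 0| := by
    refine intervalIntegral.norm_integral_le_of_norm_le_const fun θ _ => ?_
    have h1 : E θ * F θ + E θ * starRingEnd ℂ (F θ) - (2 * (c : ℂ)) * (E θ * 1) =
        E θ * ((2 * ((F θ).re - c) : ℝ) : ℂ) := by
      have h2 := add_conj (F θ)
      have h3 : E θ * F θ + E θ * starRingEnd ℂ (F θ) = E θ * (F θ + starRingEnd ℂ (F θ)) := by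
        ring
      rw [h3, h2]
      push_cast
      ring
    have h4 : ‖E θ‖ = 1 := by
      have h5 : E θ = exp (((-(((j + 1 : ℕ) : ℝ) * θ) : ℝ) : ℂ) * I) := by
        simp only [hE]
        push_cast
        ring_nf
      rw [h5, norm_exp_ofReal_mul_I]
    rw [h1, norm_mul, h4, one_mul, norm_real, Real.norm_eq_abs, abs_mul, abs_two]
    exact mul_le_mul_of_nonneg_left (hA _ (hmem θ)) (by norm_num)
  rw [hsum] at hnorm
  have hpos : (0 : ℝ) < 2 * Real.pi := by positivity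
  rw [norm_mul, norm_mul, norm_mul, norm_pow, norm_real, norm_real, Real.norm_eq_abs,
    Real.norm_eq_abs, abs_of_pos hr, abs_of_pos Real.pi_pos, sub_zero, abs_of_pos hpos] at hnorm
  have h2 : ‖(2 : ℂ)‖ = 2 := by simp
  rw [h2] at hnorm
  have h6 : 2 * Real.pi * (‖((((j + 1).factorial : ℕ) : ℂ))⁻¹ * iteratedDeriv (j + 1) f m‖ *
      r ^ (j + 1)) ≤ 2 * Real.pi * (2 * A) := by
    linarith
  exact le_of_mul_le_mul_left h6 hpos

/-- bound of the Taylor coefficients by the real part -/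
theorem coeff_bound {f : ℂ → ℂ} {m : ℂ} {ρ c A : ℝ} (hρ : 0 < ρ)
    (hf : DifferentiableOn ℂ f (ball m ρ)) (hA : ∀ z ∈ ball m ρ, |(f z).re - c| ≤ A) :
    ∃ a : ℕ → ℂ, (∀ k, 1 ≤ k → ‖a k‖ ≤ 2 * A / ρ ^ k) ∧
      ∀ z ∈ ball (0 : ℂ) ρ, HasSum (fun k => a k * z ^ k) (f (m + z)) := by
  refine ⟨fun k => ((k.factorial : ℂ))⁻¹ * iteratedDeriv k f m, fun k hk => ?_, fun z hz => ?_⟩
  · rw [le_div_iff₀ (pow_pos hρ k)]
    have hlim : Tendsto (fun r : ℝ => ‖((k.factorial : ℂ))⁻¹ * iteratedDeriv k f m‖ * r ^ k)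
        (𝓝[<] ρ) (𝓝 (‖((k.factorial : ℂ))⁻¹ * iteratedDeriv k f m‖ * ρ ^ k)) := by
      have h1 : Continuous fun r : ℝ => ‖((k.factorial : ℂ))⁻¹ * iteratedDeriv k f m‖ * r ^ k := by
        fun_prop
      exact (h1.tendsto ρ).mono_left nhdsWithin_le_nhds
    refine le_of_tendsto hlim ?_
    filter_upwards [Ioo_mem_nhdsLT hρ] with r hr
    exact i0_bound hr.1 hr.2 hf hA k hk
  · have hz' : m + z ∈ ball m ρ := by
      rw [mem_ball_iff_norm] at hz ⊢
      simpa using hz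
    have h := hasSum_taylorSeries_on_ball hf hz'
    have hfun : (fun k : ℕ => ((k.factorial : ℂ))⁻¹ * iteratedDeriv k f m * z ^ k) =
        fun n : ℕ => ((n.factorial : ℂ))⁻¹ • (m + z - m) ^ n • iteratedDeriv n f m := by
      funext k
      rw [smul_eq_mul, smul_eq_mul, add_sub_cancel_left]
      ring
    simp only
    rw [hfun]
    exact h

end Pool.Agent.Choc.Nu
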