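import Pool.Agent.Lib.MP_2b3e36_an.Nu.I0

/-!
I1. Interpolation of the real part of a holomorphic function in a strip.

interp: `φ(x) = Re f(m + x)`, `m = a + 3h/2`, for `|x| ≤ 3h/2`: `φ(x) = P(x) + R(x)`, `P` the real cubic Taylor
polynomial, `|R(x)| ≤ Σ_{k≥4} 2A (3h/(2ρ))^k = 2 A t^4/(1-t) =: R`, `t = 3h/(2ρ) < 1`. The values of `P` at the four
nodes `-3h/2, -h/2, h/2, 3h/2` are in `[lo - R, hi + R]`. Lagrange: for `|x| ≤ 3h/2` the sum of the absolute values of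
the four basis polynomials is at most `5/3` (true value `1.6312`), so
`P(x) ≤ (hi + R) + (1/2)(5/3 - 1)(hi - lo + 2R) = hi + R + (hi - lo + 2R)/3`, total
`φ(x) ≤ hi + (hi - lo)/3 + (8/3) R`, and `(8/3) R = (16/3) A t^4/(1-t) = 27 A (h/ρ)^4/(1 - 3h/(2ρ))`.
-/

set_option autoImplicit false

open Complex Set Filter Topology Metric

namespace Pool.Agent.Choc.Nu

theorem i1_cub_pos {p0 p1 p2 p3 lo hi y : ℝ}
    (h1 : lo ≤ p0 ∧ p0 ≤ hi) (h2 : lo ≤ p1 ∧ p1 ≤ hi) (h3 : lo ≤ p2 ∧ p2 ≤ hi)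
    (h4 : lo ≤ p3 ∧ p3 ≤ hi) (hy : 1 / 2 ≤ y) (hy' : y ≤ 3 / 2) :
    lo - (hi - lo) / 3 ≤ p0 * (-(y ^ 2 - 1 / 4) * (y - 3 / 2) / 6)
        + p1 * ((y ^ 2 - 9 / 4) * (y - 1 / 2) / 2)
        + p2 * (-(y ^ 2 - 9 / 4) * (y + 1 / 2) / 2)
        + p3 * ((y ^ 2 - 1 / 4) * (y + 3 / 2) / 6) ∧
      p0 * (-(y ^ 2 - 1 / 4) * (y - 3 / 2) / 6)
        + p1 * ((y ^ 2 - 9 / 4) * (y - 1 / 2) / 2)
        + p2 * (-(y ^ 2 - 9 / 4) * (y + 1 / 2) / 2)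
        + p3 * ((y ^ 2 - 1 / 4) * (y + 3 / 2) / 6) ≤ hi + (hi - lo) / 3 := by
  have q1 : 0 ≤ y ^ 2 - 1 / 4 := by nlinarith
  have q2 : y ^ 2 - 9 / 4 ≤ 0 := by nlinarith
  have a0 : 0 ≤ -(y ^ 2 - 1 / 4) * (y - 3 / 2) / 6 := by
    have := mul_nonneg q1 (sub_nonneg.2 hy'); linarith
  have a1 : 0 ≤ -((y ^ 2 - 9 / 4) * (y - 1 / 2) / 2) := by
    have := mul_nonneg (neg_nonneg.2 q2) (sub_nonneg.2 hy); linarith
  have a2 : 0 ≤ -(y ^ 2 - 9 / 4) * (y + 1 / 2) / 2 := by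
    have := mul_nonneg (neg_nonneg.2 q2) (by linarith : (0 : ℝ) ≤ y + 1 / 2); linarith
  have a3 : 0 ≤ (y ^ 2 - 1 / 4) * (y + 3 / 2) / 6 := by
    have := mul_nonneg q1 (by linarith : (0 : ℝ) ≤ y + 3 / 2); linarith
  have a4 : -((y ^ 2 - 9 / 4) * (y - 1 / 2) / 2) ≤ 1 / 3 := by
    nlinarith [mul_nonneg (sq_nonneg (y - 105 / 100)) (by linarith : (0 : ℝ) ≤ y + 16 / 10)]
  have hs : (-(y ^ 2 - 1 / 4) * (y - 3 / 2) / 6) + ((y ^ 2 - 9 / 4) * (y - 1 / 2) / 2)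
      + (-(y ^ 2 - 9 / 4) * (y + 1 / 2) / 2) + ((y ^ 2 - 1 / 4) * (y + 3 / 2) / 6) = 1 := by ring
  generalize -(y ^ 2 - 1 / 4) * (y - 3 / 2) / 6 = L0 at *
  generalize (y ^ 2 - 9 / 4) * (y - 1 / 2) / 2 = L1 at *
  generalize -(y ^ 2 - 9 / 4) * (y + 1 / 2) / 2 = L2 at *
  generalize (y ^ 2 - 1 / 4) * (y + 3 / 2) / 6 = L3 at *
  have hl : lo ≤ hi := h1.1.trans h1.2
  have e0 := mul_le_mul_of_nonneg_right h1.2 a0
  have e0' := mul_le_mul_of_nonneg_right h1.1 a0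
  have e1 := mul_le_mul_of_nonneg_right h2.1 a1
  have e1' := mul_le_mul_of_nonneg_right h2.2 a1
  have e2 := mul_le_mul_of_nonneg_right h3.2 a2
  have e2' := mul_le_mul_of_nonneg_right h3.1 a2
  have e3 := mul_le_mul_of_nonneg_right h4.2 a3
  have e3' := mul_le_mul_of_nonneg_right h4.1 a3
  have e4 := mul_le_mul_of_nonneg_left a4 (sub_nonneg.2 hl)
  have e5 : hi * (L0 + L1 + L2 + L3) = hi := by rw [hs, mul_one]
  have e6 : lo * (L0 + L1 + L2 + L3) = lo := by rw [hs, mul_one]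
  constructor
  · nlinarith
  · nlinarith

theorem i1_cub_mid {p0 p1 p2 p3 lo hi y : ℝ}
    (h1 : lo ≤ p0 ∧ p0 ≤ hi) (h2 : lo ≤ p1 ∧ p1 ≤ hi) (h3 : lo ≤ p2 ∧ p2 ≤ hi)
    (h4 : lo ≤ p3 ∧ p3 ≤ hi) (hy : -(1 / 2) ≤ y) (hy' : y ≤ 1 / 2) :
    lo - (hi - lo) / 3 ≤ p0 * (-(y ^ 2 - 1 / 4) * (y - 3 / 2) / 6)
        + p1 * ((y ^ 2 - 9 / 4) * (y - 1 / 2) / 2)
        + p2 * (-(y ^ 2 - 9 / 4) * (y + 1 / 2) / 2)
        + p3 * ((y ^ 2 - 1 / 4) * (y + 3 / 2) / 6) ∧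
      p0 * (-(y ^ 2 - 1 / 4) * (y - 3 / 2) / 6)
        + p1 * ((y ^ 2 - 9 / 4) * (y - 1 / 2) / 2)
        + p2 * (-(y ^ 2 - 9 / 4) * (y + 1 / 2) / 2)
        + p3 * ((y ^ 2 - 1 / 4) * (y + 3 / 2) / 6) ≤ hi + (hi - lo) / 3 := by
  have q1 : 0 ≤ 1 / 4 - y ^ 2 := by nlinarith
  have q2 : 0 ≤ 9 / 4 - y ^ 2 := by nlinarith
  have a0 : 0 ≤ -(-(y ^ 2 - 1 / 4) * (y - 3 / 2) / 6) := by
    have := mul_nonneg q1 (by linarith : (0 : ℝ) ≤ 3 / 2 - y); linarith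
  have a1 : 0 ≤ (y ^ 2 - 9 / 4) * (y - 1 / 2) / 2 := by
    have := mul_nonneg q2 (by linarith : (0 : ℝ) ≤ 1 / 2 - y); linarith
  have a2 : 0 ≤ -(y ^ 2 - 9 / 4) * (y + 1 / 2) / 2 := by
    have := mul_nonneg q2 (by linarith : (0 : ℝ) ≤ y + 1 / 2); linarith
  have a3 : 0 ≤ -((y ^ 2 - 1 / 4) * (y + 3 / 2) / 6) := by
    have := mul_nonneg q1 (by linarith : (0 : ℝ) ≤ y + 3 / 2); linarith
  have a4 : -(-(y ^ 2 - 1 / 4) * (y - 3 / 2) / 6) + -((y ^ 2 - 1 / 4) * (y + 3 / 2) / 6) ≤ 1 / 3 := by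
    nlinarith [sq_nonneg y]
  have hs : (-(y ^ 2 - 1 / 4) * (y - 3 / 2) / 6) + ((y ^ 2 - 9 / 4) * (y - 1 / 2) / 2)
      + (-(y ^ 2 - 9 / 4) * (y + 1 / 2) / 2) + ((y ^ 2 - 1 / 4) * (y + 3 / 2) / 6) = 1 := by ring
  generalize -(y ^ 2 - 1 / 4) * (y - 3 / 2) / 6 = L0 at *
  generalize (y ^ 2 - 9 / 4) * (y - 1 / 2) / 2 = L1 at *
  generalize -(y ^ 2 - 9 / 4) * (y + 1 / 2) / 2 = L2 at *
  generalize (y ^ 2 - 1 / 4) * (y + 3 / 2) / 6 = L3 at *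
  have hl : lo ≤ hi := h1.1.trans h1.2
  have e0 := mul_le_mul_of_nonneg_right h1.2 a0
  have e0' := mul_le_mul_of_nonneg_right h1.1 a0
  have e1 := mul_le_mul_of_nonneg_right h2.1 a1
  have e1' := mul_le_mul_of_nonneg_right h2.2 a1
  have e2 := mul_le_mul_of_nonneg_right h3.2 a2
  have e2' := mul_le_mul_of_nonneg_right h3.1 a2
  have e3 := mul_le_mul_of_nonneg_right h4.2 a3
  have e3' := mul_le_mul_of_nonneg_right h4.1 a3
  have e4 := mul_le_mul_of_nonneg_left a4 (sub_nonneg.2 hl)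
  have e5 : hi * (L0 + L1 + L2 + L3) = hi := by rw [hs, mul_one]
  have e6 : lo * (L0 + L1 + L2 + L3) = lo := by rw [hs, mul_one]
  constructor
  · nlinarith
  · nlinarith

/-- values of a cubic polynomial between four equidistant nodes -/
theorem cubic_bound {p : ℝ → ℝ} {c0 c1 c2 c3 : ℝ} (hp : ∀ x, p x = c0 + c1 * x + c2 * x ^ 2 + c3 * x ^ 3)
    {h lo hi : ℝ} (hh : 0 < h) (h1 : lo ≤ p (-(3 / 2) * h) ∧ p (-(3 / 2) * h) ≤ hi)
    (h2 : lo ≤ p (-(1 / 2) * h) ∧ p (-(1 / 2) * h) ≤ hi)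
    (h3 : lo ≤ p (1 / 2 * h) ∧ p (1 / 2 * h) ≤ hi)
    (h4 : lo ≤ p (3 / 2 * h) ∧ p (3 / 2 * h) ≤ hi) {x : ℝ} (hx : |x| ≤ 3 / 2 * h) :
    lo - (hi - lo) / 3 ≤ p x ∧ p x ≤ hi + (hi - lo) / 3 := by
  obtain ⟨y, rfl⟩ : ∃ y : ℝ, x = y * h := ⟨x / h, by field_simp⟩
  rw [abs_mul, abs_of_pos hh] at hx
  have hy : |y| ≤ 3 / 2 := le_of_mul_le_mul_right hx hh
  obtain ⟨hy1, hy2⟩ := abs_le.1 hy
  have key : p (y * h) = p (-(3 / 2) * h) * (-(y ^ 2 - 1 / 4) * (y - 3 / 2) / 6)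
        + p (-(1 / 2) * h) * ((y ^ 2 - 9 / 4) * (y - 1 / 2) / 2)
        + p (1 / 2 * h) * (-(y ^ 2 - 9 / 4) * (y + 1 / 2) / 2)
        + p (3 / 2 * h) * ((y ^ 2 - 1 / 4) * (y + 3 / 2) / 6) := by
    simp only [hp]; ring
  rw [key]
  generalize p (-(3 / 2) * h) = p0 at *
  generalize p (-(1 / 2) * h) = p1 at *
  generalize p (1 / 2 * h) = p2 at *
  generalize p (3 / 2 * h) = p3 at *
  rcases le_total y (-(1 / 2)) with c | c
  · have := i1_cub_pos h4 h3 h2 h1 (y := -y) (by linarith) (by linarith)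
    constructor
    · refine this.1.trans (le_of_eq ?_); ring
    · refine (le_of_eq ?_).trans this.2; ring
  · rcases le_total y (1 / 2) with d | d
    · exact i1_cub_mid h1 h2 h3 h4 c d
    · exact i1_cub_pos h1 h2 h3 h4 d hy2

theorem interp {f : ℂ → ℂ} {c A : ℝ} (hf : DifferentiableOn ℂ f strip)
    (hA : ∀ z ∈ strip, |(f z).re - c| ≤ A) {a h lo hi : ℝ} (hh : 0 < h) (h4 : 4 * h < 1)
    (hn : ∀ j : ℕ, j ≤ 3 → lo ≤ (f ((a + j * h : ℝ) : ℂ)).re ∧ (f ((a + j * h : ℝ) : ℂ)).re ≤ hi)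
    {x : ℝ} (hx : a ≤ x) (hx' : x ≤ a + 3 * h) :
    lo - (hi - lo) / 3 - 27 * A * (8 * h / 3) ^ 4 / (1 - 4 * h) ≤ (f x).re ∧
      (f x).re ≤ hi + (hi - lo) / 3 + 27 * A * (8 * h / 3) ^ 4 / (1 - 4 * h) := by
  have hA0 : 0 ≤ A := (abs_nonneg _).trans (hA 0 (by simp only [strip, mem_ofPred_eq]; norm_num))
  obtain ⟨m, hm⟩ : ∃ m : ℝ, m = a + 3 / 2 * h := ⟨_, rfl⟩
  have hball : ball (m : ℂ) (3 / 8) ⊆ strip := by
    intro z hz
    simp only [strip, mem_ofPred_eq]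
    rw [mem_ball, dist_eq_norm] at hz
    have := abs_im_le_norm (z - m)
    simp only [sub_im, ofReal_im, sub_zero] at this
    linarith
  obtain ⟨b, hb, hs⟩ := coeff_bound (f := f) (m := m) (ρ := 3 / 8) (c := c) (A := A) (by norm_num)
    (hf.mono hball) (fun z hz => hA z (hball hz))
  -- the remainder
  have hrem : ∀ y : ℝ, |y| ≤ 3 / 2 * h →
      |(f ((m + y : ℝ) : ℂ)).re - ((b 0).re + (b 1).re * y + (b 2).re * y ^ 2 + (b 3).re * y ^ 3)|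
        ≤ 2 * A * (4 * h) ^ 4 / (1 - 4 * h) := by
    intro y hy
    have hyb : (y : ℂ) ∈ ball (0 : ℂ) (3 / 8) := by
      rw [mem_ball_zero_iff, norm_real, Real.norm_eq_abs]; linarith
    have h1 := hs y hyb
    have h2 := (hasSum_nat_add_iff' 4).2 h1
    have hg : HasSum (fun n : ℕ => 2 * A * (4 * h) ^ 4 * (4 * h) ^ n)
        (2 * A * (4 * h) ^ 4 * (1 - 4 * h)⁻¹) :=
      (hasSum_geometric_of_lt_one (by linarith) h4).mul_left _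
    have hle : ∀ n : ℕ, ‖b (n + 4) * (y : ℂ) ^ (n + 4)‖ ≤ 2 * A * (4 * h) ^ 4 * (4 * h) ^ n := by
      intro n
      rw [norm_mul, norm_pow, norm_real, Real.norm_eq_abs]
      have e1 := hb (n + 4) (by omega)
      have e2 : |y| ^ (n + 4) ≤ (3 / 2 * h) ^ (n + 4) := pow_le_pow_left₀ (abs_nonneg _) hy _
      calc ‖b (n + 4)‖ * |y| ^ (n + 4) ≤ 2 * A / (3 / 8) ^ (n + 4) * (3 / 2 * h) ^ (n + 4) :=
            mul_le_mul e1 e2 (by positivity) (by positivity)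
        _ = 2 * A * ((3 / 2 * h) / (3 / 8)) ^ (n + 4) := by
            rw [div_pow (3 / 2 * h) (3 / 8), div_mul_eq_mul_div, mul_div_assoc]
        _ = 2 * A * (4 * h) ^ 4 * (4 * h) ^ n := by
            rw [show (3 / 2 * h) / (3 / 8) = 4 * h by ring, pow_add]; ring
    have h3 := tsum_of_norm_bounded hg hle
    rw [h2.tsum_eq] at h3
    have h5 := (abs_re_le_norm _).trans h3
    refine le_trans (le_of_eq ?_) (h5.trans (le_of_eq ?_))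
    · congr 1
      simp only [Finset.sum_range_succ, Finset.sum_range_zero, zero_add, pow_zero, mul_one, pow_one,
        ← ofReal_pow, sub_re, add_re, re_mul_ofReal, ofReal_add]
    · rw [div_eq_mul_inv]
  have h14 : 0 < 1 - 4 * h := by linarith
  obtain ⟨R, hR⟩ : ∃ R, R = 2 * A * (4 * h) ^ 4 / (1 - 4 * h) := ⟨_, rfl⟩
  rw [← hR] at hrem
  have hR8 : 27 * A * (8 * h / 3) ^ 4 / (1 - 4 * h) = 8 / 3 * R := by
    rw [hR]; field_simp; ring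
  rw [hR8]
  have hnode : ∀ j : ℕ, j ≤ 3 → ∀ s : ℝ, s = (j - 3 / 2 : ℝ) →
      lo - R ≤ (b 0).re + (b 1).re * (s * h) + (b 2).re * (s * h) ^ 2 + (b 3).re * (s * h) ^ 3 ∧
      (b 0).re + (b 1).re * (s * h) + (b 2).re * (s * h) ^ 2 + (b 3).re * (s * h) ^ 3 ≤ hi + R := by
    intro j hj s hs'
    have hsabs : |s| ≤ 3 / 2 := by
      rw [hs', abs_le]
      have : (j : ℝ) ≤ 3 := by exact_mod_cast hj
      have : (0 : ℝ) ≤ j := Nat.cast_nonneg j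
      constructor <;> linarith
    have e1 := hrem (s * h) (by
      rw [abs_mul, abs_of_pos hh]; exact mul_le_mul_of_nonneg_right hsabs hh.le)
    have e2 := hn j hj
    have e3 : m + s * h = a + j * h := by rw [hm, hs']; ring
    rw [e3] at e1
    have e4 := abs_le.1 e1
    constructor
    · linarith [e4.1, e4.2, e2.1, e2.2]
    · linarith [e4.1, e4.2, e2.1, e2.2]
  have hc := cubic_bound (p := fun x => (b 0).re + (b 1).re * x + (b 2).re * x ^ 2 + (b 3).re * x ^ 3)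
    (fun x => rfl) hh (lo := lo - R) (hi := hi + R)
    (hnode 0 (by norm_num) _ (by norm_num)) (hnode 1 (by norm_num) _ (by norm_num))
    (hnode 2 (by norm_num) _ (by norm_num)) (hnode 3 (by norm_num) _ (by norm_num))
    (x := x - m) (by rw [abs_le, hm]; constructor <;> linarith)
  have e1 := hrem (x - m) (by rw [abs_le, hm]; constructor <;> linarith)
  rw [show m + (x - m) = x by ring] at e1
  have e4 := abs_le.1 e1
  constructor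
  · linarith [e4.1, e4.2, hc.1, hc.2]
  · linarith [e4.1, e4.2, hc.1, hc.2]

end Pool.Agent.Choc.Nu
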