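import Pool.Agent.Lib.MP_2b3e36_an.Nu.E0

/-!
K0. The check on the geodesic: definitions.

All coefficients are in units of `10^-7`, the `b` in units of `10^-3`, values in units of `2^-60`.
-/

set_option autoImplicit false

namespace Pool.Agent.Choc.Nu

/-- The singularities. -/
def bsL : List ℤ := [0, 1000, -793, -963, -1800, -4200, -11800, -95000, -5000000]

/-- `F₁ + G` -/
def kA1 : List ℤ := [0, 10000000, 20336420, -16795829, 2074304, 2585743, 330469, 114741, 150000]

/-- `F₁ - G` -/
def kA2 : List ℤ := [0, 10000000, 20336420, -16795829, 2074304, 2585743, 330469, 100341, -150000]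

/-- `F₂ + G` -/
def kA3 : List ℤ := [20000000, 0, 3624363, -8805157, 1402371, 2048130, 262799, 114019, 150000]

/-- `F₂ - G` -/
def kA4 : List ℤ := [20000000, 0, 3624363, -8805157, 1402371, 2048130, 262799, 99619, -150000]

/-- value and radius of a linear combination -/
def dot : List ℤ → List (ℤ × ℤ) → ℤ × ℤ
  | k :: ks, p :: ps => (k * p.1 + (dot ks ps).1, ab k * p.2 + (dot ks ps).2)
  | _, _ => (0, 0)

/-- lower and upper bound of a linear combination -/
def dotI (ks : List ℤ) (ps : List (ℤ × ℤ)) : ℤ × ℤ :=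
  let d := dot ks ps
  (d.1 - d.2, d.1 + d.2)

/-- The values of the nine functions at `σ = k / 480`. -/
def nodeV (k : ℤ) : Option (List (ℤ × ℤ)) :=
  if k = 0 then
    some [(576460752303423488, 0), (1152921504606846976, 0), (0, 0), (0, 0), (0, 0), (0, 0), (0, 0),
      (0, 0), (0, 0)]
  else match xNode k 480 297631 250000 with
    | none => none
    | some x => match x.z2 with
      | none => none
      | some z => z.lbs bsL

/-- The four combinations at a node. -/
structure Sm where
  a1 : ℤ × ℤ
  a2 : ℤ × ℤ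
  a3 : ℤ × ℤ
  a4 : ℤ × ℤ

def sm (k : ℤ) : Option Sm :=
  match nodeV k with
  | none => none
  | some v => some ⟨dotI kA1 v, dotI kA2 v, dotI kA3 v, dotI kA4 v⟩

def min4 (a b c d : ℤ) : ℤ := min (min a b) (min c d)

def max4 (a b c d : ℤ) : ℤ := max (max a b) (max c d)

/-- `27 A (8 h / 3)^4 / (1 - 4 h)` for `h = st / 480`, with `A = 5.3` in the units used -/
def errI (st : ℤ) : ℤ := 27 * 53000000 * SC * st ^ 4 * 120 / (1049760000 * (120 - st)) + 1

/-- lower check for one combination -/
def loC (st : ℤ) (p q r s : ℤ × ℤ) : Bool :=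
  let lo := min4 p.1 q.1 r.1 s.1
  let hi := max4 p.2 q.2 r.2 s.2
  decide (3 * 9999940 * SC ≤ 3 * lo - (hi - lo) - 3 * errI st)

/-- upper check for one combination -/
def hiC (st : ℤ) (p q r s : ℤ × ℤ) : Bool :=
  let lo := min4 p.1 q.1 r.1 s.1
  let hi := max4 p.2 q.2 r.2 s.2
  decide (3 * hi + (hi - lo) + 3 * errI st ≤ 3 * 10000060 * SC)

def blk (st : ℤ) (p q r s : Sm) : Bool :=
  loC st p.a1 q.a1 r.a1 s.a1 && hiC st p.a2 q.a2 r.a2 s.a2 &&
    loC st p.a3 q.a3 r.a3 s.a3 && hiC st p.a4 q.a4 r.a4 s.a4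

/-- `n` blocks of three steps, beginning at the node `k` with the data `p` -/
def seg (st : ℤ) : ℕ → ℤ → Sm → Bool
  | 0, _, _ => true
  | n + 1, k, p =>
    match sm (k + st), sm (k + 2 * st), sm (k + 3 * st) with
    | some q, some r, some s => blk st p q r s && seg st n (k + 3 * st) s
    | _, _, _ => false

def segC (st : ℤ) (n : ℕ) (k : ℤ) : Bool :=
  match sm k with
  | some p => seg st n k p
  | none => false

end Pool.Agent.Choc.Nu
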