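import Pool.Agent.Lib.MP_2b3e36_an.Nu.K0

/-!
Kc3. Certificates, checked by the kernel.
-/

set_option autoImplicit false

namespace Pool.Agent.Choc.Nu

theorem seg_600 : segC 3 36 600 = true := by decide +kernel

theorem seg_924 : segC 4 34 924 = true := by decide +kernel

end Pool.Agent.Choc.Nu
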