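import Pool.Agent.Lib.MP_2b3e36_an.Nu.K0

/-!
Kc4. Certificates, checked by the kernel.
-/

set_option autoImplicit false

namespace Pool.Agent.Choc.Nu

theorem seg_1332 : segC 5 6 1332 = true := by decide +kernel

theorem seg_1422 : segC 6 22 1422 = true := by decide +kernel

theorem seg_1818 : segC 7 6 1818 = true := by decide +kernel

theorem seg_1944 : segC 8 11 1944 = true := by decide +kernel

end Pool.Agent.Choc.Nu
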