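import Pool.Agent.Lib.MP_2b3e36_an.Nu.K0

/-!
Kc5. Certificates, checked by the kernel.
-/

set_option autoImplicit false

namespace Pool.Agent.Choc.Nu

theorem seg_2208 : segC 9 7 2208 = true := by decide +kernel

theorem seg_2397 : segC 10 5 2397 = true := by decide +kernel

theorem seg_2547 : segC 11 4 2547 = true := by decide +kernel

theorem seg_2679 : segC 12 4 2679 = true := by decide +kernel

theorem seg_2823 : segC 13 13 2823 = true := by decide +kernel

theorem seg_3330 : segC 14 13 3330 = true := by decide +kernel

end Pool.Agent.Choc.Nu
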