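import Pool.Agent.Lib.MP_2b3e36_an.Nu.S2
import Pool.Agent.Lib.MP_2b3e36_an.Nu.G4

/-!
S3. The holomorphic functions `gb`, `g1`, `g0` on the strip.

`Re (I/π · log w) = - arg w/π`.
gb (`b ≤ -7/10`): `Zs T σ - b` is in the slit plane: imaginary part `≠ 0` if `Re σ ≠ 0`; real `> 0` if `Re σ = 0`
(`σ = I * η`, `Zs_axis`). `|arg| ≤ π` gives the bound.
g1: `1 - Zs T σ` likewise (`r < 1`). For `Re σ > 0`: `Im (1 - Z) > 0`, `arg (Z - 1) = arg (1 - Z) - π`.
g0: `E = I * dslope (Zs T) 0 σ = I * Zs T σ / σ` for `σ ≠ 0`, `E = r > 0` at `0` (`Zs_deriv`). `dslope` is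
differentiable on the strip (`Complex.differentiableOn_dslope`). `E ∈ slitPlane`: for `Re σ > 0`:
`arg Z ∈ (-π, 0)`, `arg σ ∈ (-π/2, π/2)`; if `E = -t`, `t ≥ 0`, then `Z = i t σ`; `Im Z < 0` but
`Im (i t σ) = t Re σ ≥ 0`, contradiction. For `Re σ < 0` symmetric. For `Re σ = 0`, `σ = I * η`, `η ≠ 0`:
`E = r/η > 0`. Bound: `|arg E| ≤ π`. For `σ > 0` real: `arg E = arg (I Z) = arg Z + π/2` (`arg Z ∈ (-π, 0)`),
so `1/2 - arg E/π = - arg Z/π`.
-/

set_option autoImplicit false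

open Complex Set Filter Topology Metric

namespace Pool.Agent.Choc.Nu

theorem s3_re (w : ℂ) : (I / Real.pi * log w).re = -arg w / Real.pi := by
  have h : (I / Real.pi * log w) = ((1 / Real.pi : ℝ) : ℂ) * (I * log w) := by
    push_cast
    ring
  rw [h, Complex.re_ofReal_mul, Complex.I_mul_re, Complex.log_im]
  ring

theorem s3_bd (w : ℂ) : |(I / Real.pi * log w).re| ≤ 1 := by
  rw [s3_re, abs_div, abs_neg, abs_of_pos Real.pi_pos, div_le_one Real.pi_pos]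
  exact Complex.abs_arg_le_pi w

theorem s3_axis {σ : ℂ} (h : σ.re = 0) : σ = I * (σ.im : ℂ) := by
  apply Complex.ext
  · simp [h]
  · simp

theorem s3_slit_of_im {w : ℂ} (h : w.im ≠ 0) : w ∈ slitPlane :=
  Complex.mem_slitPlane_iff.2 (Or.inr h)

theorem s3_im_ne {T : ℝ} (hT : 119 / 100 ≤ T) {σ : ℂ} (hσ : σ ∈ strip) (h : σ.re ≠ 0) :
    (Zs T σ).im ≠ 0 := by
  rcases lt_or_gt_of_ne h with h | h
  · exact (Zs_im_pos hT hσ h).ne'
  · exact (Zs_im_neg hT hσ h).ne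

theorem gb_slit {T : ℝ} (hT : 119 / 100 ≤ T) {b : ℝ} (hb : b ≤ -(7 / 10)) {σ : ℂ}
    (hσ : σ ∈ strip) : Zs T σ - b ∈ slitPlane := by
  by_cases h : σ.re = 0
  · obtain ⟨r, h1, h2, -⟩ := Zs_axis hT (show |σ.im| < 3 / 8 from hσ)
    rw [← s3_axis h] at h1
    rw [h1, ← Complex.ofReal_sub]
    exact Complex.ofReal_mem_slitPlane.2 (by linarith)
  · apply s3_slit_of_im
    rw [Complex.sub_im, Complex.ofReal_im, sub_zero]
    exact s3_im_ne hT hσ h

theorem gb_diff {T : ℝ} (hT : 119 / 100 ≤ T) {b : ℝ} (hb : b ≤ -(7 / 10)) :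
    DifferentiableOn ℂ (gb T b) strip := by
  unfold gb
  refine DifferentiableOn.const_mul ?_ _
  exact DifferentiableOn.clog ((Zs_diff hT).sub_const _) (fun σ hσ => gb_slit hT hb hσ)

theorem gb_bd (T b : ℝ) (σ : ℂ) : |(gb T b σ).re| ≤ 1 := s3_bd _

theorem gb_eq (T b : ℝ) (σ : ℂ) : (gb T b σ).re = Lb b (Zs T σ) := s3_re _

theorem gb_zero (T : ℝ) {b : ℝ} (hb : b ≤ 0) : (gb T b 0).re = 0 := by
  rw [gb_eq, Zs_zero]
  unfold Lb
  have h : (0 : ℂ) - b = ((-b : ℝ) : ℂ) := by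
    push_cast
    ring
  rw [h, Complex.arg_ofReal_of_nonneg (by linarith), neg_zero, zero_div]

theorem g1_slit' {T : ℝ} (hT : 119 / 100 ≤ T) {σ : ℂ} (hσ : σ ∈ strip) :
    1 - Zs T σ ∈ slitPlane := by
  by_cases h : σ.re = 0
  · obtain ⟨r, h1, -, h2, -⟩ := Zs_axis hT (show |σ.im| < 3 / 8 from hσ)
    rw [← s3_axis h] at h1
    have h3 : (1 : ℂ) - r = ((1 - r : ℝ) : ℂ) := by push_cast; ring
    rw [h1, h3]
    exact Complex.ofReal_mem_slitPlane.2 (by linarith)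
  · apply s3_slit_of_im
    rw [Complex.sub_im, Complex.one_im, zero_sub]
    exact neg_ne_zero.2 (s3_im_ne hT hσ h)

theorem g1_diff {T : ℝ} (hT : 119 / 100 ≤ T) : DifferentiableOn ℂ (g1 T) strip := by
  unfold g1
  refine DifferentiableOn.const_add _ (DifferentiableOn.const_mul ?_ _)
  exact DifferentiableOn.clog ((Zs_diff hT).const_sub _) (fun σ hσ => g1_slit' hT hσ)

theorem s3_g1_re (T : ℝ) (σ : ℂ) : (g1 T σ).re = 1 + -arg (1 - Zs T σ) / Real.pi := by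
  unfold g1
  rw [Complex.add_re, Complex.one_re, s3_re]

theorem g1_bd (T : ℝ) (σ : ℂ) : |(g1 T σ).re - 1| ≤ 1 := by
  have h : (g1 T σ).re - 1 = (I / Real.pi * log (1 - Zs T σ)).re := by
    rw [s3_g1_re, s3_re]
    ring
  rw [h]
  exact s3_bd _

theorem g1_eq {T : ℝ} (hT : 119 / 100 ≤ T) {σ : ℝ} (hσ : 0 < σ) :
    (g1 T σ).re = Lb 1 (Zs T σ) := by
  have hs : (σ : ℂ) ∈ strip := by
    show |(σ : ℂ).im| < 3 / 8
    rw [Complex.ofReal_im, abs_zero]
    norm_num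
  have him : (Zs T σ).im < 0 := Zs_im_neg hT hs (by rw [Complex.ofReal_re]; exact hσ)
  have h1 : (Zs T σ - 1).im < 0 := by
    rw [Complex.sub_im, Complex.one_im, sub_zero]
    exact him
  have h2 : arg (1 - Zs T σ) = arg (Zs T σ - 1) + Real.pi := by
    rw [← Complex.arg_neg_eq_arg_add_pi_of_im_neg h1, neg_sub]
  rw [s3_g1_re, h2]
  unfold Lb
  rw [Complex.ofReal_one]
  have := Real.pi_ne_zero
  field_simp
  ring

theorem g1_zero (T : ℝ) : (g1 T 0).re = 1 := by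
  rw [s3_g1_re, Zs_zero, sub_zero, Complex.arg_one, neg_zero, zero_div, add_zero]

theorem s3_zero_mem : (0 : ℂ) ∈ strip := by
  show |(0 : ℂ).im| < 3 / 8
  simp

theorem s3_dslope (T : ℝ) {σ : ℂ} (h : σ ≠ 0) :
    dslope (Zs T) 0 σ = Zs T σ / σ := by
  rw [dslope_of_ne _ h, slope_def_field, Zs_zero, sub_zero, sub_zero]

theorem s3_dslope_zero {T : ℝ} (hT : 119 / 100 ≤ T) :
    ∃ r : ℝ, 0 < r ∧ I * dslope (Zs T) 0 0 = r := by
  obtain ⟨r, hr, hd⟩ := Zs_deriv hT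
  refine ⟨r, hr, ?_⟩
  rw [dslope_same, hd.deriv]
  have : I * (-I * (r : ℂ)) = -(I * I) * r := by ring
  rw [this, Complex.I_mul_I, neg_neg, one_mul]

theorem g0_slit {T : ℝ} (hT : 119 / 100 ≤ T) {σ : ℂ} (hσ : σ ∈ strip) :
    I * dslope (Zs T) 0 σ ∈ slitPlane := by
  by_cases h0 : σ = 0
  · subst h0
    obtain ⟨r, hr, h⟩ := s3_dslope_zero hT
    rw [h]
    exact Complex.ofReal_mem_slitPlane.2 hr
  rw [s3_dslope T h0]
  by_cases h : σ.re = 0
  · obtain ⟨r, h1, -, -, h2, h3⟩ := Zs_axis hT (show |σ.im| < 3 / 8 from hσ)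
    rw [← s3_axis h] at h1
    have hη : σ.im ≠ 0 := by
      intro h4
      exact h0 (Complex.ext (by simp [h]) (by simp [h4]))
    have h5 : I * (Zs T σ / σ) = ((r / σ.im : ℝ) : ℂ) := by
      rw [h1]
      have h6 : (σ.im : ℂ) ≠ 0 := by exact_mod_cast hη
      conv_lhs => rw [s3_axis h]
      push_cast
      have h7 := Complex.I_ne_zero
      field_simp
    rw [h5]
    refine Complex.ofReal_mem_slitPlane.2 ?_
    rcases lt_or_gt_of_ne hη with h4 | h4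
    · exact div_pos_of_neg_of_neg (h3 h4) h4
    · exact div_pos (h2 h4) h4
  · by_contra hc
    rw [Complex.mem_slitPlane_iff] at hc
    push Not at hc
    obtain ⟨hc1, hc2⟩ := hc
    obtain ⟨E, hE⟩ : ∃ E : ℂ, E = I * (Zs T σ / σ) := ⟨_, rfl⟩
    rw [← hE] at hc1 hc2
    have hEr : E = (E.re : ℂ) := Complex.ext (by simp) (by simp [hc2])
    have h1 : Zs T σ = -(I * E * σ) := by
      rw [hE]
      have : -(I * (I * (Zs T σ / σ)) * σ) = -(I * I) * (Zs T σ / σ * σ) := by ring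
      rw [this, Complex.I_mul_I, neg_neg, one_mul, div_mul_cancel₀ _ h0]
    have h2 : (Zs T σ).im = -(E.re * σ.re) := by
      rw [h1, hEr]
      simp
    rcases lt_or_gt_of_ne h with h4 | h4
    · have := Zs_im_pos hT hσ h4
      nlinarith
    · have := Zs_im_neg hT hσ h4
      nlinarith

theorem g0_diff {T : ℝ} (hT : 119 / 100 ≤ T) : DifferentiableOn ℂ (g0 T) strip := by
  have h1 : DifferentiableOn ℂ (dslope (Zs T) 0) strip :=
    (Complex.differentiableOn_dslope (strip_open.mem_nhds s3_zero_mem)).2 (Zs_diff hT)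
  unfold g0
  refine DifferentiableOn.const_add _ (DifferentiableOn.const_mul ?_ _)
  exact DifferentiableOn.clog (h1.const_mul _) (fun σ hσ => g0_slit hT hσ)

theorem s3_g0_re (T : ℝ) (σ : ℂ) :
    (g0 T σ).re = 1 / 2 + -arg (I * dslope (Zs T) 0 σ) / Real.pi := by
  unfold g0
  rw [Complex.add_re, s3_re]
  norm_num

theorem g0_bd (T : ℝ) (σ : ℂ) : |(g0 T σ).re - 1 / 2| ≤ 1 := by
  have h : (g0 T σ).re - 1 / 2 = (I / Real.pi * log (I * dslope (Zs T) 0 σ)).re := by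
    rw [s3_g0_re, s3_re]
    ring
  rw [h]
  exact s3_bd _

theorem g0_eq {T : ℝ} (hT : 119 / 100 ≤ T) {σ : ℝ} (hσ : 0 < σ) :
    (g0 T σ).re = Lb 0 (Zs T σ) := by
  have hs : (σ : ℂ) ∈ strip := by
    show |(σ : ℂ).im| < 3 / 8
    rw [Complex.ofReal_im, abs_zero]
    norm_num
  have him : (Zs T σ).im < 0 := Zs_im_neg hT hs (by rw [Complex.ofReal_re]; exact hσ)
  have hσ0 : (σ : ℂ) ≠ 0 := by exact_mod_cast hσ.ne'
  have hZ0 : Zs T σ ≠ 0 := by
    intro h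
    rw [h] at him
    simp at him
  have h1 : arg (Zs T σ) < 0 := Complex.arg_neg_iff.2 him
  have h2 := Complex.neg_pi_lt_arg (Zs T σ)
  have h3 : I * dslope (Zs T) 0 σ = ((σ⁻¹ : ℝ) : ℂ) * (I * Zs T σ) := by
    rw [s3_dslope T hσ0]
    push_cast
    field_simp
  have h4 : arg (I * Zs T σ) = arg (Zs T σ) + Real.pi / 2 := by
    rw [Complex.arg_mul Complex.I_ne_zero hZ0, Complex.arg_I]
    · ring
    · rw [Complex.arg_I]
      constructor
      · linarith [Real.pi_pos]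
      · linarith [Real.pi_pos]
  rw [s3_g0_re, h3, Complex.arg_real_mul _ (inv_pos.2 hσ), h4]
  unfold Lb
  rw [Complex.ofReal_zero, sub_zero]
  have := Real.pi_ne_zero
  field_simp
  ring

theorem g0_zero {T : ℝ} (hT : 119 / 100 ≤ T) : (g0 T 0).re = 1 / 2 := by
  obtain ⟨r, hr, h⟩ := s3_dslope_zero hT
  rw [s3_g0_re, h, Complex.arg_ofReal_of_nonneg hr.le]
  simp

end Pool.Agent.Choc.Nu
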