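import Pool.Agent.Lib.MP_2b3e36_an.Nu.K0
import Pool.Agent.Lib.MP_2b3e36_an.Nu.E3
import Pool.Agent.Lib.MP_2b3e36_an.Nu.S3
import Pool.Agent.Lib.MP_2b3e36_an.Nu.I1

/-!
L1. Soundness of the check on the geodesic.
-/

set_option autoImplicit false

open Complex Set

namespace Pool.Agent.Choc.Nu

noncomputable section

/-- The parameter. -/
def TV : ℝ := 297631 / 250000

theorem TV_ge : 119 / 100 ≤ TV := by unfold TV; norm_num

theorem TV_le : TV ≤ 6 / 5 := by unfold TV; norm_num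

/-- the holomorphic function belonging to the singularity `b / 1000` -/
def gf (b : ℤ) (σ : ℂ) : ℂ :=
  if b = 0 then g0 TV σ else if b = 1000 then g1 TV σ else gb TV ((b : ℝ) / 1000) σ

/-- the centre of its range -/
def cen (b : ℤ) : ℝ := if b = 0 then 1 / 2 else if b = 1000 then 1 else 0

/-- admissible singularities -/
def Ok (b : ℤ) : Prop := b = 0 ∨ b = 1000 ∨ b ≤ -700

theorem gf_diff {b : ℤ} (hb : Ok b) : DifferentiableOn ℂ (gf b) strip := by
  unfold gf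
  rcases hb with hb | hb | hb
  · simp only [hb, if_true]
    exact g0_diff TV_ge
  · have h3 : (1000 : ℤ) ≠ 0 := by norm_num
    simp only [hb, if_neg h3, if_true]
    exact g1_diff TV_ge
  · have h1 : b ≠ 0 := by omega
    have h2 : b ≠ 1000 := by omega
    simp only [if_neg h1, if_neg h2]
    refine gb_diff TV_ge ?_
    have : (b : ℝ) ≤ -700 := by exact_mod_cast hb
    linarith

theorem gf_bd {b : ℤ} (σ : ℂ) : |(gf b σ).re - cen b| ≤ 1 := by
  unfold gf cen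
  split_ifs with h1 h2
  · exact g0_bd TV σ
  · exact g1_bd TV σ
  · rw [sub_zero]
    exact gb_bd TV _ σ

theorem gf_eq {b : ℤ} {σ : ℝ} (hσ : 0 < σ) : (gf b σ).re = Lb ((b : ℝ) / 1000) (Zs TV σ) := by
  unfold gf
  split_ifs with h1 h2
  · rw [g0_eq TV_ge hσ, h1]
    norm_num
  · rw [g1_eq TV_ge hσ, h2]
    norm_num
  · exact gb_eq TV _ _

/-- the value at `0` -/
def val0 (b : ℤ) : ℤ := if b = 0 then 576460752303423488 else if b = 1000 then SC else 0

theorem gf_zero {b : ℤ} (hb : Ok b) : (SC : ℝ) * (gf b 0).re = val0 b := by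
  unfold gf val0
  split_ifs with h1 h2
  · rw [g0_zero TV_ge]
    simp only [SC]
    norm_num
  · rw [g1_zero]
    simp
  · rw [gb_zero TV]
    · simp
    · rcases hb with hb | hb | hb
      · exact absurd hb h1
      · exact absurd hb h2
      · have : (b : ℝ) ≤ -700 := by exact_mod_cast hb
        linarith

/-- linear combination of the functions -/
def hol : List ℤ → List ℤ → ℂ → ℂ
  | k :: ks, b :: bs, σ => ((k : ℝ) / 10000000 : ℝ) * gf b σ + hol ks bs σ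
  | _, _, _ => 0

/-- sum of the absolute values of the coefficients -/
def sA : List ℤ → ℤ
  | k :: ks => |k| + sA ks
  | [] => 0

theorem sA_nonneg (ks : List ℤ) : 0 ≤ sA ks := by
  induction ks with
  | nil => simp [sA]
  | cons k ks ih => simp only [sA]; positivity

theorem hol_diff {ks bs : List ℤ} (hb : ∀ b ∈ bs, Ok b) : DifferentiableOn ℂ (hol ks bs) strip := by
  induction ks generalizing bs with
  | nil =>
    have : hol [] bs = fun _ => (0 : ℂ) := by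
      funext σ
      simp [hol]
    rw [this]
    exact differentiableOn_const 0
  | cons k ks ih =>
    cases bs with
    | nil =>
      have : hol (k :: ks) [] = fun _ => (0 : ℂ) := by
        funext σ
        simp [hol]
      rw [this]
      exact differentiableOn_const 0
    | cons b bs =>
      have h1 := ih (bs := bs) fun c hc => hb c (List.mem_cons_of_mem _ hc)
      have h2 := gf_diff (hb b List.mem_cons_self)
      have : hol (k :: ks) (b :: bs) = fun σ => ((k : ℝ) / 10000000 : ℝ) * gf b σ + hol ks bs σ := by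
        funext σ
        simp [hol]
      rw [this]
      exact (h2.const_mul _).add h1

theorem hol_bd (ks bs : List ℤ) : ∃ c : ℝ, ∀ σ : ℂ, |(hol ks bs σ).re - c| ≤ (sA ks : ℝ) / 10000000 := by
  induction ks generalizing bs with
  | nil => exact ⟨0, fun σ => by simp [hol, sA]⟩
  | cons k ks ih =>
    cases bs with
    | nil =>
      refine ⟨0, fun σ => ?_⟩
      simp only [hol, Complex.zero_re, sub_zero, abs_zero]
      have : (0 : ℝ) ≤ (sA (k :: ks) : ℝ) := by exact_mod_cast sA_nonneg _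
      positivity
    | cons b bs =>
      obtain ⟨c, hc⟩ := ih bs
      refine ⟨(k : ℝ) / 10000000 * cen b + c, fun σ => ?_⟩
      have h1 := gf_bd (b := b) σ
      have h2 := hc σ
      have e : (hol (k :: ks) (b :: bs) σ).re = (k : ℝ) / 10000000 * (gf b σ).re + (hol ks bs σ).re := by
        simp only [hol, Complex.add_re, Complex.re_ofReal_mul]
      rw [e]
      have e2 : (k : ℝ) / 10000000 * (gf b σ).re + (hol ks bs σ).re - ((k : ℝ) / 10000000 * cen b + c)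
          = (k : ℝ) / 10000000 * ((gf b σ).re - cen b) + ((hol ks bs σ).re - c) := by ring
      rw [e2]
      refine (abs_add_le _ _).trans ?_
      rw [abs_mul]
      have h3 : |(k : ℝ) / 10000000| = |(k : ℝ)| / 10000000 := by
        rw [abs_div, abs_of_pos (by norm_num : (0 : ℝ) < 10000000)]
      rw [h3]
      have h4 : |(k : ℝ)| / 10000000 * |(gf b σ).re - cen b| ≤ |(k : ℝ)| / 10000000 * 1 :=
        mul_le_mul_of_nonneg_left h1 (by positivity)
      have h5 : ((sA (k :: ks) : ℤ) : ℝ) = |(k : ℝ)| + (sA ks : ℝ) := by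
        simp only [sA]
        push_cast
        rfl
      rw [h5]
      linarith

/-- the values `p` are correct at `σ` -/
def VOK (bs : List ℤ) (ps : List (ℤ × ℤ)) (σ : ℂ) : Prop :=
  List.Forall₂ (fun (b : ℤ) (p : ℤ × ℤ) => |(SC : ℝ) * (gf b σ).re - p.1| ≤ p.2) bs ps

theorem ab_eq (x : ℤ) : ab x = |x| := by
  unfold ab
  exact Int.natCast_natAbs x

theorem dot_sound {bs : List ℤ} {ps : List (ℤ × ℤ)} {σ : ℂ} (h : VOK bs ps σ) (ks : List ℤ) :
    |(SC : ℝ) * 10000000 * (hol ks bs σ).re - (dot ks ps).1| ≤ (dot ks ps).2 := by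
  unfold VOK at h
  induction h generalizing ks with
  | nil =>
    cases ks <;> simp [hol, dot]
  | @cons b p bs ps h1 h2 ih =>
    cases ks with
    | nil => simp [hol, dot]
    | cons k ks =>
      have e : (hol (k :: ks) (b :: bs) σ).re = (k : ℝ) / 10000000 * (gf b σ).re + (hol ks bs σ).re := by
        simp only [hol, Complex.add_re, Complex.re_ofReal_mul]
      have h3 := ih ks
      simp only [dot, ab_eq]
      rw [e]
      push_cast
      have e2 : (SC : ℝ) * 10000000 * ((k : ℝ) / 10000000 * (gf b σ).re + (hol ks bs σ).re) -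
          ((k : ℝ) * (p.1 : ℝ) + ((dot ks ps).1 : ℝ)) = (k : ℝ) * ((SC : ℝ) * (gf b σ).re - p.1) +
          ((SC : ℝ) * 10000000 * (hol ks bs σ).re - ((dot ks ps).1 : ℝ)) := by ring
      rw [e2]
      refine (abs_add_le _ _).trans ?_
      rw [abs_mul]
      have h4 : |(k : ℝ)| * |(SC : ℝ) * (gf b σ).re - p.1| ≤ |(k : ℝ)| * p.2 :=
        mul_le_mul_of_nonneg_left h1 (abs_nonneg _)
      linarith

theorem dotI_sound {bs : List ℤ} {ps : List (ℤ × ℤ)} {σ : ℂ} (h : VOK bs ps σ) (ks : List ℤ) :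
    ((dotI ks ps).1 : ℝ) ≤ (SC : ℝ) * 10000000 * (hol ks bs σ).re ∧
      (SC : ℝ) * 10000000 * (hol ks bs σ).re ≤ ((dotI ks ps).2 : ℝ) := by
  have h1 := abs_le.mp (dot_sound h ks)
  simp only [dotI]
  push_cast
  constructor <;> linarith [h1.1, h1.2]

theorem bsL_ok : ∀ b ∈ bsL, Ok b := by
  intro b hb
  simp only [bsL, List.mem_cons, List.not_mem_nil, or_false] at hb
  unfold Ok
  omega

theorem nodeV_sound {k : ℤ} (hk : 0 ≤ k) {vs : List (ℤ × ℤ)} (h : nodeV k = some vs) :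
    VOK bsL vs (((k : ℝ) / 480 : ℝ) : ℂ) := by
  unfold nodeV at h
  by_cases h0 : k = 0
  · rw [if_pos h0] at h
    have e : vs = bsL.map fun b => (val0 b, 0) := by
      rw [← Option.some_inj.mp h]
      decide
    rw [e]
    unfold VOK
    rw [List.forall₂_map_right_iff]
    rw [List.forall₂_same]
    intro b hb
    have h1 := gf_zero (bsL_ok b hb)
    have h2 : (((k : ℝ) / 480 : ℝ) : ℂ) = 0 := by rw [h0]; simp
    rw [h2]
    simp [h1]
  · rw [if_neg h0] at h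
    have hk' : 0 < k := lt_of_le_of_ne hk (Ne.symm h0)
    have hkr : (0 : ℝ) < (k : ℝ) / 480 := by
      have : (0 : ℝ) < k := by exact_mod_cast hk'
      positivity
    have hT : ((297631 : ℤ) : ℝ) / ((250000 : ℤ) : ℝ) = TV := by unfold TV; norm_num
    split at h
    · exact absurd h (by simp)
    · rename_i x hx
      split at h
      · exact absurd h (by simp)
      · rename_i z hz
        have m1 := xNode_sound hk' (by norm_num : (0 : ℤ) < 480) (by norm_num : (0 : ℤ) < 297631)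
          (by norm_num : (0 : ℤ) < 250000) hx
        rw [hT] at m1
        have e480 : ((480 : ℤ) : ℝ) = 480 := by norm_num
        rw [e480] at m1
        have hs : (((k : ℝ) / 480 : ℝ) : ℂ) ∈ strip := by
          simp [strip]
        have hg := strip_good TV_ge hs
        have m2 := z2_sound m1 hg.1 hz
        have him : (Zx (mob (qs (((k : ℝ) / 480 : ℝ) : ℂ)) / (TV : ℂ))).im < 0 :=
          Zs_im_neg TV_ge hs (by rw [Complex.ofReal_re]; exact hkr)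
        have m3 := lbs_sound m2 him h
        unfold VOK
        refine m3.imp ?_
        intro b p hp
        rw [gf_eq hkr]
        exact hp

/-- the data of a node are correct -/
def NOK (p : Sm) (σ : ℂ) : Prop :=
  ((p.a1.1 : ℝ) ≤ (SC : ℝ) * 10000000 * (hol kA1 bsL σ).re ∧
      (SC : ℝ) * 10000000 * (hol kA1 bsL σ).re ≤ (p.a1.2 : ℝ)) ∧
    ((p.a2.1 : ℝ) ≤ (SC : ℝ) * 10000000 * (hol kA2 bsL σ).re ∧
      (SC : ℝ) * 10000000 * (hol kA2 bsL σ).re ≤ (p.a2.2 : ℝ)) ∧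
    ((p.a3.1 : ℝ) ≤ (SC : ℝ) * 10000000 * (hol kA3 bsL σ).re ∧
      (SC : ℝ) * 10000000 * (hol kA3 bsL σ).re ≤ (p.a3.2 : ℝ)) ∧
    ((p.a4.1 : ℝ) ≤ (SC : ℝ) * 10000000 * (hol kA4 bsL σ).re ∧
      (SC : ℝ) * 10000000 * (hol kA4 bsL σ).re ≤ (p.a4.2 : ℝ))

theorem sm_sound {k : ℤ} (hk : 0 ≤ k) {p : Sm} (h : sm k = some p) :
    NOK p (((k : ℝ) / 480 : ℝ) : ℂ) := by
  unfold sm at h
  split at h
  · exact absurd h (by simp)
  · rename_i v hv
    have hv' := nodeV_sound hk hv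
    rw [← Option.some_inj.mp h]
    exact ⟨dotI_sound hv' _, dotI_sound hv' _, dotI_sound hv' _, dotI_sound hv' _⟩

theorem SC_pos : (0 : ℝ) < (SC : ℝ) := by
  unfold SC
  norm_num

theorem min4_le {a b c d : ℤ} : (min4 a b c d ≤ a ∧ min4 a b c d ≤ b) ∧
    (min4 a b c d ≤ c ∧ min4 a b c d ≤ d) := by
  unfold min4
  omega

theorem le_max4 {a b c d : ℤ} : (a ≤ max4 a b c d ∧ b ≤ max4 a b c d) ∧
    (c ≤ max4 a b c d ∧ d ≤ max4 a b c d) := by
  unfold max4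
  omega

theorem errI_ge {st : ℤ} (h1 : 0 < st) (h2 : st ≤ 20) :
    (SC : ℝ) * 10000000 * (27 * (53 / 10) * (8 * ((st : ℝ) / 480) / 3) ^ 4 / (1 - 4 * ((st : ℝ) / 480)))
      ≤ (errI st : ℝ) := by
  have hq : (0 : ℤ) < 1049760000 * (120 - st) := by
    have : (0 : ℤ) < 120 - st := by linarith
    positivity
  have h3 : (27 * 53000000 * SC * st ^ 4 * 120 : ℤ) <
      (27 * 53000000 * SC * st ^ 4 * 120 / (1049760000 * (120 - st)) + 1) *
        (1049760000 * (120 - st)) := Int.lt_ediv_add_one_mul_self _ hq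
  have hqr : (0 : ℝ) < 1049760000 * (120 - (st : ℝ)) := by exact_mod_cast hq
  have h4 : ((27 * 53000000 * SC * st ^ 4 * 120 : ℤ) : ℝ) <
      ((27 * 53000000 * SC * st ^ 4 * 120 / (1049760000 * (120 - st)) + 1 : ℤ) : ℝ) *
        (1049760000 * (120 - (st : ℝ))) := by exact_mod_cast h3
  unfold errI
  have h5 : (SC : ℝ) * 10000000 * (27 * (53 / 10) * (8 * ((st : ℝ) / 480) / 3) ^ 4 /
      (1 - 4 * ((st : ℝ) / 480))) =
      ((27 * 53000000 * SC * st ^ 4 * 120 : ℤ) : ℝ) / (1049760000 * (120 - (st : ℝ))) := by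
    have h6 : (0 : ℝ) < 120 - (st : ℝ) := by
      have : (st : ℝ) ≤ 20 := by exact_mod_cast h2
      linarith
    have h7 : (1 - 4 * ((st : ℝ) / 480)) = (120 - (st : ℝ)) / 120 := by ring
    rw [h7]
    push_cast
    field_simp
    ring
  rw [h5, div_le_iff₀ hqr]
  exact h4.le

/-- one block, abstract form -/
theorem blk_core {f : ℂ → ℂ} {c : ℝ} (hf : DifferentiableOn ℂ f strip)
    (hA : ∀ z ∈ strip, |(f z).re - c| ≤ 53 / 10) {st k : ℤ} (h1 : 0 < st) (h2 : st ≤ 20)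
    {lo hi : ℤ}
    (hn : ∀ j : ℕ, j ≤ 3 → (lo : ℝ) ≤ (SC : ℝ) * 10000000 * (f ((((k + j * st : ℤ) : ℝ) / 480 : ℝ) : ℂ)).re ∧
      (SC : ℝ) * 10000000 * (f ((((k + j * st : ℤ) : ℝ) / 480 : ℝ) : ℂ)).re ≤ (hi : ℝ))
    {x : ℝ} (hx : (k : ℝ) / 480 ≤ x) (hx' : x ≤ ((k + 3 * st : ℤ) : ℝ) / 480) :
    3 * (lo : ℝ) - (hi - lo) - 3 * errI st ≤ 3 * ((SC : ℝ) * 10000000 * (f x).re) ∧
      3 * ((SC : ℝ) * 10000000 * (f x).re) ≤ 3 * (hi : ℝ) + (hi - lo) + 3 * errI st := by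
  have hS := SC_pos
  have hM : (0 : ℝ) < (SC : ℝ) * 10000000 := by positivity
  have hst : (0 : ℝ) < (st : ℝ) := by exact_mod_cast h1
  have hst2 : (st : ℝ) ≤ 20 := by exact_mod_cast h2
  have key := interp (f := f) (c := c) (A := 53 / 10) hf hA (a := (k : ℝ) / 480)
    (h := (st : ℝ) / 480) (lo := (lo : ℝ) / ((SC : ℝ) * 10000000))
    (hi := (hi : ℝ) / ((SC : ℝ) * 10000000)) (by positivity) (by linarith) (by
      intro j hj
      have h3 := hn j hj
      have e : ((k : ℝ) / 480 + (j : ℝ) * ((st : ℝ) / 480)) = ((k + j * st : ℤ) : ℝ) / 480 := by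
        push_cast
        ring
      rw [e]
      constructor
      · rw [div_le_iff₀ hM]
        linarith [h3.1]
      · rw [le_div_iff₀ hM]
        linarith [h3.2]) hx (by
      have e : ((k + 3 * st : ℤ) : ℝ) / 480 = (k : ℝ) / 480 + 3 * ((st : ℝ) / 480) := by
        push_cast
        ring
      linarith)
  have hE := errI_ge h1 h2
  obtain ⟨k1, k2⟩ := key
  set X := (f (x : ℂ)).re with hX
  set E := 27 * (53 / 10) * (8 * ((st : ℝ) / 480) / 3) ^ 4 / (1 - 4 * ((st : ℝ) / 480)) with hEdef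
  have k1' := mul_le_mul_of_nonneg_left k1 hM.le
  have k2' := mul_le_mul_of_nonneg_left k2 hM.le
  have e1 : (SC : ℝ) * 10000000 * ((lo : ℝ) / ((SC : ℝ) * 10000000) -
      ((hi : ℝ) / ((SC : ℝ) * 10000000) - (lo : ℝ) / ((SC : ℝ) * 10000000)) / 3 - E) =
      (lo : ℝ) - (hi - lo) / 3 - (SC : ℝ) * 10000000 * E := by
    field_simp
  have e2 : (SC : ℝ) * 10000000 * ((hi : ℝ) / ((SC : ℝ) * 10000000) +
      ((hi : ℝ) / ((SC : ℝ) * 10000000) - (lo : ℝ) / ((SC : ℝ) * 10000000)) / 3 + E) =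
      (hi : ℝ) + (hi - lo) / 3 + (SC : ℝ) * 10000000 * E := by
    field_simp
  rw [e1] at k1'
  rw [e2] at k2'
  constructor <;> linarith

/-- the conclusion at a point -/
def Good (σ : ℝ) : Prop :=
  (9999940 / 10000000 ≤ (hol kA1 bsL σ).re ∧ (hol kA2 bsL σ).re ≤ 10000060 / 10000000) ∧
    (9999940 / 10000000 ≤ (hol kA3 bsL σ).re ∧ (hol kA4 bsL σ).re ≤ 10000060 / 10000000)

theorem nodes4 {P : ℤ → Prop} {k st : ℤ} (h0 : P k) (h1 : P (k + st)) (h2 : P (k + 2 * st))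
    (h3 : P (k + 3 * st)) : ∀ j : ℕ, j ≤ 3 → P (k + j * st) := by
  intro j hj
  interval_cases j
  · simpa using h0
  · simpa using h1
  · simpa using h2
  · simpa using h3

theorem blk_sound {st k : ℤ} (h1 : 0 < st) (h2 : st ≤ 20) {p q r s : Sm}
    (hp : NOK p (((k : ℝ) / 480 : ℝ) : ℂ)) (hq : NOK q ((((k + st : ℤ) : ℝ) / 480 : ℝ) : ℂ))
    (hr : NOK r ((((k + 2 * st : ℤ) : ℝ) / 480 : ℝ) : ℂ))
    (hs : NOK s ((((k + 3 * st : ℤ) : ℝ) / 480 : ℝ) : ℂ)) (hb : blk st p q r s = true) {x : ℝ}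
    (hx : (k : ℝ) / 480 ≤ x) (hx' : x ≤ ((k + 3 * st : ℤ) : ℝ) / 480) : Good x := by
  have hS := SC_pos
  have hM : (0 : ℝ) < (SC : ℝ) * 10000000 := by positivity
  have hA : ∀ ks : List ℤ, sA ks ≤ 53000000 → ∃ c : ℝ, ∀ z ∈ strip, |(hol ks bsL z).re - c| ≤ 53 / 10 := by
    intro ks hks
    obtain ⟨c, hc⟩ := hol_bd ks bsL
    refine ⟨c, fun z _ => (hc z).trans ?_⟩
    have : (sA ks : ℝ) ≤ 53000000 := by exact_mod_cast hks
    linarith
  unfold blk at hb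
  simp only [Bool.and_eq_true] at hb
  obtain ⟨⟨⟨b1, b2⟩, b3⟩, b4⟩ := hb
  unfold loC at b1 b3
  unfold hiC at b2 b4
  simp only [decide_eq_true_eq] at b1 b2 b3 b4
  obtain ⟨p1, p2, p3, p4⟩ := hp
  obtain ⟨q1, q2, q3, q4⟩ := hq
  obtain ⟨r1, r2, r3, r4⟩ := hr
  obtain ⟨s1, s2, s3, s4⟩ := hs
  have core : ∀ (ks : List ℤ), sA ks ≤ 53000000 → ∀ (P Q R S : ℤ × ℤ),
      ((P.1 : ℝ) ≤ (SC : ℝ) * 10000000 * (hol ks bsL (((k : ℝ) / 480 : ℝ) : ℂ)).re ∧
        (SC : ℝ) * 10000000 * (hol ks bsL (((k : ℝ) / 480 : ℝ) : ℂ)).re ≤ (P.2 : ℝ)) →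
      ((Q.1 : ℝ) ≤ (SC : ℝ) * 10000000 * (hol ks bsL ((((k + st : ℤ) : ℝ) / 480 : ℝ) : ℂ)).re ∧
        (SC : ℝ) * 10000000 * (hol ks bsL ((((k + st : ℤ) : ℝ) / 480 : ℝ) : ℂ)).re ≤ (Q.2 : ℝ)) →
      ((R.1 : ℝ) ≤ (SC : ℝ) * 10000000 * (hol ks bsL ((((k + 2 * st : ℤ) : ℝ) / 480 : ℝ) : ℂ)).re ∧
        (SC : ℝ) * 10000000 * (hol ks bsL ((((k + 2 * st : ℤ) : ℝ) / 480 : ℝ) : ℂ)).re ≤ (R.2 : ℝ)) →
      ((S.1 : ℝ) ≤ (SC : ℝ) * 10000000 * (hol ks bsL ((((k + 3 * st : ℤ) : ℝ) / 480 : ℝ) : ℂ)).re ∧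
        (SC : ℝ) * 10000000 * (hol ks bsL ((((k + 3 * st : ℤ) : ℝ) / 480 : ℝ) : ℂ)).re ≤ (S.2 : ℝ)) →
      3 * ((min4 P.1 Q.1 R.1 S.1 : ℤ) : ℝ) - ((max4 P.2 Q.2 R.2 S.2 : ℤ) - (min4 P.1 Q.1 R.1 S.1 : ℤ)) -
          3 * errI st ≤ 3 * ((SC : ℝ) * 10000000 * (hol ks bsL x).re) ∧
        3 * ((SC : ℝ) * 10000000 * (hol ks bsL x).re) ≤ 3 * ((max4 P.2 Q.2 R.2 S.2 : ℤ) : ℝ) +
          ((max4 P.2 Q.2 R.2 S.2 : ℤ) - (min4 P.1 Q.1 R.1 S.1 : ℤ)) + 3 * errI st := by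
    intro ks hks P Q R S hP hQ hR hS'
    obtain ⟨c, hc⟩ := hA ks hks
    have hmin := @min4_le P.1 Q.1 R.1 S.1
    have hmax := @le_max4 P.2 Q.2 R.2 S.2
    refine blk_core (hol_diff bsL_ok) hc h1 h2
      (lo := min4 P.1 Q.1 R.1 S.1) (hi := max4 P.2 Q.2 R.2 S.2) ?_ hx hx'
    refine nodes4 (P := fun m : ℤ => ((min4 P.1 Q.1 R.1 S.1 : ℤ) : ℝ) ≤ (SC : ℝ) * 10000000 *
        (hol ks bsL ((((m : ℤ) : ℝ) / 480 : ℝ) : ℂ)).re ∧
      (SC : ℝ) * 10000000 * (hol ks bsL ((((m : ℤ) : ℝ) / 480 : ℝ) : ℂ)).re ≤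
        ((max4 P.2 Q.2 R.2 S.2 : ℤ) : ℝ)) ?_ ?_ ?_ ?_
    · exact ⟨le_trans (by exact_mod_cast hmin.1.1) hP.1, le_trans hP.2 (by exact_mod_cast hmax.1.1)⟩
    · exact ⟨le_trans (by exact_mod_cast hmin.1.2) hQ.1, le_trans hQ.2 (by exact_mod_cast hmax.1.2)⟩
    · exact ⟨le_trans (by exact_mod_cast hmin.2.1) hR.1, le_trans hR.2 (by exact_mod_cast hmax.2.1)⟩
    · exact ⟨le_trans (by exact_mod_cast hmin.2.2) hS'.1, le_trans hS'.2 (by exact_mod_cast hmax.2.2)⟩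
  have c1 := (core kA1 (by decide) p.a1 q.a1 r.a1 s.a1 p1 q1 r1 s1).1
  have c2 := (core kA2 (by decide) p.a2 q.a2 r.a2 s.a2 p2 q2 r2 s2).2
  have c3 := (core kA3 (by decide) p.a3 q.a3 r.a3 s.a3 p3 q3 r3 s3).1
  have c4 := (core kA4 (by decide) p.a4 q.a4 r.a4 s.a4 p4 q4 r4 s4).2
  have b1' : (3 : ℝ) * 9999940 * (SC : ℝ) ≤ 3 * ((min4 p.a1.1 q.a1.1 r.a1.1 s.a1.1 : ℤ) : ℝ) -
      ((max4 p.a1.2 q.a1.2 r.a1.2 s.a1.2 : ℤ) - (min4 p.a1.1 q.a1.1 r.a1.1 s.a1.1 : ℤ)) -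
        3 * errI st := by exact_mod_cast b1
  have b2' : 3 * ((max4 p.a2.2 q.a2.2 r.a2.2 s.a2.2 : ℤ) : ℝ) +
      ((max4 p.a2.2 q.a2.2 r.a2.2 s.a2.2 : ℤ) - (min4 p.a2.1 q.a2.1 r.a2.1 s.a2.1 : ℤ)) +
        3 * errI st ≤ (3 : ℝ) * 10000060 * (SC : ℝ) := by exact_mod_cast b2
  have b3' : (3 : ℝ) * 9999940 * (SC : ℝ) ≤ 3 * ((min4 p.a3.1 q.a3.1 r.a3.1 s.a3.1 : ℤ) : ℝ) -
      ((max4 p.a3.2 q.a3.2 r.a3.2 s.a3.2 : ℤ) - (min4 p.a3.1 q.a3.1 r.a3.1 s.a3.1 : ℤ)) -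
        3 * errI st := by exact_mod_cast b3
  have b4' : 3 * ((max4 p.a4.2 q.a4.2 r.a4.2 s.a4.2 : ℤ) : ℝ) +
      ((max4 p.a4.2 q.a4.2 r.a4.2 s.a4.2 : ℤ) - (min4 p.a4.1 q.a4.1 r.a4.1 s.a4.1 : ℤ)) +
        3 * errI st ≤ (3 : ℝ) * 10000060 * (SC : ℝ) := by exact_mod_cast b4
  have fin1 : ∀ X : ℝ, 3 * 9999940 * (SC : ℝ) ≤ 3 * ((SC : ℝ) * 10000000 * X) →
      9999940 / 10000000 ≤ X := by
    intro X hX
    rw [div_le_iff₀ (by norm_num)]
    nlinarith
  have fin2 : ∀ X : ℝ, 3 * ((SC : ℝ) * 10000000 * X) ≤ 3 * 10000060 * (SC : ℝ) →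
      X ≤ 10000060 / 10000000 := by
    intro X hX
    rw [le_div_iff₀ (by norm_num)]
    nlinarith
  exact ⟨⟨fin1 _ (b1'.trans c1), fin2 _ (c2.trans b2')⟩, fin1 _ (b3'.trans c3), fin2 _ (c4.trans b4')⟩

theorem seg_sound {st : ℤ} (h1 : 0 < st) (h2 : st ≤ 20) {n : ℕ} {k : ℤ} (hk : 0 ≤ k) {p : Sm}
    (hp : NOK p (((k : ℝ) / 480 : ℝ) : ℂ)) (h : seg st n k p = true) {x : ℝ}
    (hx : (k : ℝ) / 480 ≤ x) (hx' : x ≤ ((k + 3 * n * st : ℤ) : ℝ) / 480) (hn : 0 < n) : Good x := by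
  induction n generalizing k p with
  | zero => exact absurd hn (lt_irrefl 0)
  | succ n ih =>
    unfold seg at h
    split at h
    · rename_i q r s hq hr hs
      simp only [Bool.and_eq_true] at h
      obtain ⟨hb, h'⟩ := h
      have mq := sm_sound (by linarith) hq
      have mr := sm_sound (by linarith) hr
      have ms := sm_sound (by linarith) hs
      by_cases hc : x ≤ ((k + 3 * st : ℤ) : ℝ) / 480
      · exact blk_sound h1 h2 hp mq mr ms hb hx hc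
      · push Not at hc
        have hn0 : 0 < n := by
          rcases Nat.eq_zero_or_pos n with h0 | h0
          · exfalso
            rw [h0] at hx'
            push_cast at hx' hc
            linarith
          · exact h0
        refine ih (by linarith) ms h' hc.le ?_ hn0
        have e : ((k + 3 * ((n + 1 : ℕ) : ℤ) * st : ℤ) : ℝ) = ((k + 3 * st + 3 * (n : ℤ) * st : ℤ) : ℝ) := by
          push_cast
          ring
        rw [e] at hx'
        exact hx'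
    · exact absurd h (by simp)

theorem segC_sound {st : ℤ} (h1 : 0 < st) (h2 : st ≤ 20) {n : ℕ} {k : ℤ} (hk : 0 ≤ k)
    (h : segC st n k = true) (hn : 0 < n) {x : ℝ}
    (hx : (k : ℝ) / 480 ≤ x) (hx' : x ≤ ((k + 3 * n * st : ℤ) : ℝ) / 480) : Good x := by
  unfold segC at h
  split at h
  · rename_i p hp
    exact seg_sound h1 h2 hk (sm_sound hk hp) h hx hx' hn
  · exact absurd h (by simp)

end

end Pool.Agent.Choc.Nu
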