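import Pool.Agent.Lib.MP_2b3e36_an.Nu.S1
import Pool.Agent.Lib.MP_2b3e36_an.Nu.G4

/-!
T1. The far part `σ ≥ 8` of the geodesic.

`t = 1/(1+σ²) ≤ 1/65`, `s = 1 + iσ`, `τ = -1/s`, `Re τ = -t`, `Im τ = σ t`, `a = π t ≤ 0.0484`, `b = π σ t`,
`a² + b² = π a`, `b² ≤ π a ≤ 0.152`. `D = cosh b - cos a ≤ b²/2 + b⁴/20 + a²/2 ≤ (π a/2)(1 + π a/10) ≤`
`(π a/2) · 1.0152`. `Re mob = sin a/D` (`mob_nome_re`) is `≥ 0.9996 a/D ≥ (2/π) · 0.9846` (`sin a ≥ a - a³/6`), and
`≤ 2/π` by `region` (`c = 1`). `Im mob = sinh b/D ≥ b/D ≥ (2/π) σ/1.0152 ≥ 5.016` (`b/a = σ`, `π < 3.1416`),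
so `2 Im x ≥ 8.36`. Let `N = joN x`. `Re x > 0` gives `|N| > 1` (`Re N (1 - 1/|N|²) = 2 Re x`, `joN_eq`), `joN_im`:
`8.36 ≤ Im N (1 + 1/|N|²) ≤ |N| + 1/|N|`, so `|N| ≥ 8.2`, `1/|N|² ≤ 0.0149`, `Im N ≥ 8.36/1.0149 ≥ 8.2`,
`Re N = 2 Re x/(1 - 1/|N|²) ∈ 4/(π T) · [0.9846, 1.0152]`.
Lb: `2 Z exp (i π N/2) = 1 + exp (i π N)`, so `Z - b = exp (-i π N/2)/2 · (1 + u)`,
`u = exp (i π N) - 2 b exp (i π N/2)`, `|u| ≤ e^{-8π} + 200 e^{-4π} ≤ 7.1e-4`; `arg (Z - b) = - π Re N/2 + arg (1 + u)`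
(both sides in `(-π, π)`; `1.03 < Re N < 1.1`), `|arg (1+u)| ≤ ‖log (1+u)‖ ≤ 3/2 ‖u‖`
(`Complex.norm_log_one_add_half_le_self`). Rough bound `1/1000` for the quotient by `π`.
far: `b = -100000`: with `n1 = Re N ∈ [1.039, 1.092]`, `n2 = Im N ≥ 8.2`: `Re Z < 0` (`Zx_re`, `cos (π n1/2) < 0`),
`|Im Z| = sin (π n1/2) sinh (π n2/2) ≥ 0.98 · 1.9e5 ≥ √3 · 1e5`, so `arg (Z + 1e5) ≤ - π/3`.
-/

set_option autoImplicit false

open Complex Set Filter Topology Metric

namespace Pool.Agent.Choc.Nu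

theorem T1_cosh {b : ℝ} (hb0 : 0 ≤ b) (hb : b ^ 2 ≤ 152 / 1000) :
    Real.cosh b ≤ 1 + b ^ 2 / 2 + b ^ 4 / 20 := by
  have hb1 : |b| ≤ 1 := by rw [abs_of_nonneg hb0]; nlinarith
  have hb2 : |(-b)| ≤ 1 := by rwa [abs_neg]
  have h1 := (abs_le.1 (Real.exp_bound hb1 (n := 6) (by norm_num))).2
  have h2 := (abs_le.1 (Real.exp_bound hb2 (n := 6) (by norm_num))).2
  rw [abs_neg] at h2
  rw [abs_of_nonneg hb0] at h1 h2
  simp only [Finset.sum_range_succ, Finset.sum_range_zero, Nat.factorial] at h1 h2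
  rw [Real.cosh_eq]
  norm_num at h1 h2 ⊢
  have h3 : b ^ 6 ≤ 152 / 1000 * b ^ 4 := by nlinarith [pow_nonneg hb0 4]
  nlinarith [pow_nonneg hb0 4]

theorem T1_tau (σ : ℝ) : ((-1 / (1 + I * (σ : ℂ))) : ℂ).re = -(1 / (1 + σ ^ 2)) ∧
    ((-1 / (1 + I * (σ : ℂ))) : ℂ).im = σ / (1 + σ ^ 2) := by
  have hn : normSq (1 + I * (σ : ℂ)) = 1 + σ ^ 2 := by
    rw [normSq_apply]
    simp
    ring
  constructor
  · rw [div_re, hn]
    simp
    ring
  · rw [div_im, hn]
    simp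
    ring

theorem T1_mob {σ : ℝ} (hσ : 8 ≤ σ) : 98430 / 100000 * (2 / Real.pi) ≤ (mob (qs σ)).re ∧
    (mob (qs σ)).re ≤ 2 / Real.pi ∧ 2 / Real.pi * (8 / (10153 / 10000)) ≤ (mob (qs σ)).im := by
  have hpi := Real.pi_pos
  have hpi1 := Real.pi_gt_d4
  have hpi2 := Real.pi_lt_d4
  obtain ⟨hre, him⟩ := T1_tau σ
  set τ : ℂ := -1 / (1 + I * (σ : ℂ)) with hτ
  set t : ℝ := 1 / (1 + σ ^ 2) with ht
  have h1 : (0 : ℝ) < 1 + σ ^ 2 := by positivity
  have ht0 : 0 < t := by rw [ht]; positivity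
  have ht1 : t * (1 + σ ^ 2) = 1 := by rw [ht]; field_simp
  have ht2 : t ≤ 1 / 65 := by
    rw [ht]
    apply one_div_le_one_div_of_le (by norm_num)
    nlinarith
  have him' : τ.im = σ * t := by rw [him, ht]; ring
  set a : ℝ := Real.pi * t with ha
  set b : ℝ := Real.pi * (σ * t) with hb
  have ha0 : 0 < a := by positivity
  have hb0 : 0 < b := by positivity
  have ha1 : a ≤ 484 / 10000 := by rw [ha]; nlinarith
  have hab : a ^ 2 + b ^ 2 = Real.pi * a := by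
    have : a ^ 2 + b ^ 2 = Real.pi ^ 2 * t * (t * (1 + σ ^ 2)) := by rw [ha, hb]; ring
    rw [this, ht1, ha]
    ring
  have hpa : Real.pi * a ≤ 152 / 1000 + 1 / 10000 := by nlinarith
  have hpa' : Real.pi * a ≤ 152 / 1000 := by
    have : Real.pi * a = Real.pi ^ 2 * t := by rw [ha]; ring
    rw [this]
    nlinarith
  have hb2 : b ^ 2 ≤ Real.pi * a := by nlinarith [sq_nonneg a]
  have hcosh := T1_cosh hb0.le (hb2.trans hpa')
  have hcos := Real.one_sub_sq_div_two_le_cos (x := a)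
  have hb4 : b ^ 4 ≤ (Real.pi * a) * (152 / 1000) := by
    have : b ^ 4 = b ^ 2 * b ^ 2 := by ring
    rw [this]
    exact mul_le_mul hb2 (hb2.trans hpa') (sq_nonneg b) (by positivity)
  set D : ℝ := Real.cosh b - Real.cos a with hD
  have hDle : D ≤ Real.pi * a / 2 * (10153 / 10000) := by
    rw [hD]
    nlinarith
  have hcond : τ.im ≠ 0 ∨ (-2 < τ.re ∧ τ.re < 0) := Or.inl (by rw [him']; positivity)
  have hcosre : Real.cos (Real.pi * τ.re) = Real.cos a := by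
    rw [hre, ha, mul_neg, Real.cos_neg]
  have hDpos : 0 < D := by
    have := cosh_sub_pos hcond
    rwa [hcosre, him'] at this
  have hmre : (mob (nome τ)).re = Real.sin a / D := by
    rw [mob_nome_re hcond, hcosre, him', hre, mul_neg, Real.sin_neg, neg_neg]
  have hmim : (mob (nome τ)).im = Real.sinh b / D := by
    rw [mob_nome_im hcond, hcosre, him']
  have hqs : qs (σ : ℂ) = nome τ := rfl
  have hsin : a * (9994 / 10000) ≤ Real.sin a := by
    have := Real.sin_gt_sub_cube ha0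
    have h3 : a ^ 3 ≤ a * (484 / 10000) ^ 2 := by
      have : a ^ 3 = a * a ^ 2 := by ring
      rw [this]
      apply mul_le_mul_of_nonneg_left _ ha0.le
      nlinarith
    nlinarith
  have hsinh : b ≤ Real.sinh b := Real.self_le_sinh_iff.2 hb0.le
  rw [hqs]
  refine ⟨?_, ?_, ?_⟩
  · rw [hmre, le_div_iff₀ hDpos]
    calc 98430 / 100000 * (2 / Real.pi) * D
        ≤ 98430 / 100000 * (2 / Real.pi) * (Real.pi * a / 2 * (10153 / 10000)) := by
          apply mul_le_mul_of_nonneg_left hDle (by positivity)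
      _ = a * (98430 / 100000 * (10153 / 10000)) := by field_simp
      _ ≤ a * (9994 / 10000) := by
          apply mul_le_mul_of_nonneg_left _ ha0.le
          norm_num
      _ ≤ _ := hsin
  · have h5 := region (τ := τ) (c := 1) (by rw [hre]; linarith) (by rw [hre]; linarith)
      (by
        have : -1 / τ = 1 + I * (σ : ℂ) := by
          rw [hτ, neg_div, neg_div, div_neg, neg_neg, one_div_one_div]
        rw [this]
        simp)
    linarith
  · rw [hmim, le_div_iff₀ hDpos]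
    have hba : b = a * σ := by rw [hb, ha]; ring
    calc 2 / Real.pi * (8 / (10153 / 10000)) * D
        ≤ 2 / Real.pi * (8 / (10153 / 10000)) * (Real.pi * a / 2 * (10153 / 10000)) := by
          apply mul_le_mul_of_nonneg_left hDle (by positivity)
      _ = a * 8 := by field_simp
      _ ≤ a * σ := mul_le_mul_of_nonneg_left hσ ha0.le
      _ = b := hba.symm
      _ ≤ _ := hsinh

theorem T1_N {T : ℝ} (hT : 119 / 100 ≤ T) (hT2 : T ≤ 6 / 5) {σ : ℝ} (hσ : 8 ≤ σ) :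
    98 / 100 ≤ (joN (mob (qs σ) / T)).re * (Real.pi * T / 4) ∧
    (joN (mob (qs σ) / T)).re * (Real.pi * T / 4) ≤ 102 / 100 ∧
      41 / 5 ≤ (joN (mob (qs σ) / T)).im := by
  have hpi := Real.pi_pos
  have hpi1 := Real.pi_gt_d4
  have hpi2 := Real.pi_lt_d4
  have hT0 : 0 < T := by linarith
  obtain ⟨h1, h2, h3⟩ := T1_mob hσ
  have hmem : ((σ : ℝ) : ℂ) ∈ strip := by
    show |((σ : ℝ) : ℂ).im| < 3 / 8
    rw [ofReal_im]
    norm_num
  obtain ⟨hG, -, -⟩ := strip_good hT hmem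
  set x : ℂ := mob (qs σ) / T with hx
  have hxre : x.re = (mob (qs σ)).re / T := by rw [hx, div_ofReal_re]
  have hxim : x.im = (mob (qs σ)).im / T := by rw [hx, div_ofReal_im]
  set N : ℂ := joN x with hN
  have hNre := joN_re hG
  have hNim := joN_im hG
  have hNeq := joN_eq hG
  rw [← hN] at hNre hNim hNeq
  have hN0 : N ≠ 0 := by
    intro h0
    rw [h0] at hNre
    simp at hNre
  have hnpos : 0 < ‖N‖ := norm_pos_iff.2 hN0
  set v : ℝ := 1 / ‖N‖ ^ 2 with hv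
  have hv0 : 0 < v := by rw [hv]; positivity
  have hvN : v * ‖N‖ ^ 2 = 1 := by rw [hv]; field_simp
  have hreq : N.re * (1 - v) = 2 * x.re := by
    have h4 := congrArg re hNeq
    rw [sub_re, inv_re, normSq_eq_norm_sq] at h4
    have h5 : (2 * x : ℂ).re = 2 * x.re := by simp
    rw [h5] at h4
    rw [← h4, hv]
    ring
  have hxpos : 0 < x.re := by
    rw [hxre]
    apply div_pos _ hT0
    have h0 : (0 : ℝ) < 98430 / 100000 * (2 / Real.pi) := by positivity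
    exact lt_of_lt_of_le h0 h1
  have hv1 : v < 1 := by
    by_contra hcon
    have : N.re * (1 - v) ≤ 0 := mul_nonpos_of_nonneg_of_nonpos hNre.le (by linarith)
    linarith
  have hnorm1 : 1 < ‖N‖ := by
    by_contra hcon
    have h6 : ‖N‖ ^ 2 ≤ 1 := by nlinarith
    nlinarith
  have hximge : 418 / 100 ≤ x.im := by
    rw [hxim, le_div_iff₀ hT0]
    have h6 : (5016 : ℝ) / 1000 ≤ 2 / Real.pi * (8 / (10153 / 10000)) := by
      rw [div_mul_div_comm, le_div_iff₀ (by positivity)]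
      nlinarith
    nlinarith
  have hNimle : N.im ≤ ‖N‖ := (le_abs_self _).trans (abs_im_le_norm N)
  have hN82 : 82 / 10 ≤ ‖N‖ := by
    by_contra hcon
    push Not at hcon
    have h7 : N.im * (1 + v) ≤ ‖N‖ * (1 + v) := mul_le_mul_of_nonneg_right hNimle (by linarith)
    have h8 : ‖N‖ * v * ‖N‖ = 1 := by nlinarith
    have h9 : 836 / 100 ≤ ‖N‖ + ‖N‖ * v := by nlinarith
    have h10 : 836 / 100 * ‖N‖ ≤ ‖N‖ ^ 2 + 1 := by nlinarith
    nlinarith
  have hv2 : v ≤ 149 / 10000 := by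
    have h7 : (82 / 10) ^ 2 ≤ ‖N‖ ^ 2 := by nlinarith
    nlinarith
  have hNimge : 41 / 5 ≤ N.im := by
    have h7 : 836 / 100 ≤ N.im * (1 + v) := by linarith
    by_contra hcon
    push Not at hcon
    nlinarith
  have hxlo : 98430 / 100000 ≤ x.re * (Real.pi * T / 2) := by
    rw [hxre]
    have : (mob (qs ↑σ)).re / T * (Real.pi * T / 2) = (mob (qs ↑σ)).re * (Real.pi / 2) := by
      field_simp
    rw [this]
    calc (98430 : ℝ) / 100000 = 98430 / 100000 * (2 / Real.pi) * (Real.pi / 2) := by field_simp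
      _ ≤ _ := mul_le_mul_of_nonneg_right h1 (by positivity)
  have hxhi : x.re * (Real.pi * T / 2) ≤ 1 := by
    rw [hxre]
    have : (mob (qs ↑σ)).re / T * (Real.pi * T / 2) = (mob (qs ↑σ)).re * (Real.pi / 2) := by
      field_simp
    rw [this]
    calc (mob (qs ↑σ)).re * (Real.pi / 2) ≤ 2 / Real.pi * (Real.pi / 2) :=
          mul_le_mul_of_nonneg_right h2 (by positivity)
      _ = 1 := by field_simp
  have hkey : N.re * (Real.pi * T / 4) * (1 - v) = x.re * (Real.pi * T / 2) := by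
    linear_combination (Real.pi * T / 4) * hreq
  have hpos : 0 < N.re * (Real.pi * T / 4) := by positivity
  refine ⟨?_, ?_, hNimge⟩
  · nlinarith
  · by_contra hcon
    push Not at hcon
    nlinarith

theorem tail_N {T : ℝ} (hT : 119 / 100 ≤ T) (hT2 : T ≤ 6 / 5) {σ : ℝ} (hσ : 8 ≤ σ) :
    |(joN (mob (qs σ) / T)).re * (Real.pi * T / 4) - 1| ≤ 1 / 50 ∧
      41 / 5 ≤ (joN (mob (qs σ) / T)).im := by
  obtain ⟨h1, h2, h3⟩ := T1_N hT hT2 hσ
  refine ⟨?_, h3⟩
  rw [abs_le]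
  constructor <;> linarith

theorem T1_range {T : ℝ} (hT : 119 / 100 ≤ T) (hT2 : T ≤ 6 / 5) {σ : ℝ} (hσ : 8 ≤ σ) :
    1039 / 1000 ≤ (joN (mob (qs σ) / T)).re ∧ (joN (mob (qs σ) / T)).re ≤ 1092 / 1000 := by
  obtain ⟨h1, h2, -⟩ := T1_N hT hT2 hσ
  have hpi := Real.pi_pos
  have hpi1 := Real.pi_gt_d4
  have hpi2 := Real.pi_lt_d4
  set n1 := (joN (mob (qs σ) / T)).re
  have hP1 : 3.1415 * (119 / 100) ≤ Real.pi * T := by nlinarith
  have hP2 : Real.pi * T ≤ 3.1416 * (6 / 5) := by nlinarith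
  constructor
  · by_contra hcon
    push Not at hcon
    by_cases hn : n1 ≤ 0
    · nlinarith
    · nlinarith
  · by_contra hcon
    push Not at hcon
    nlinarith

theorem T1_exp : (361000 : ℝ) ≤ Real.exp (64 / 5) := by
  have h1 := Real.exp_one_gt_d9
  have h2 : Real.exp (64 / 5) = Real.exp 1 ^ 12 * Real.exp (4 / 5) := by
    rw [← Real.exp_nat_mul, ← Real.exp_add]
    norm_num
  have h3 : (22224 : ℝ) / 10000 ≤ Real.exp (4 / 5) := by
    have := Real.sum_le_exp_of_nonneg (x := 4 / 5) (by norm_num) 5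
    simp only [Finset.sum_range_succ, Finset.sum_range_zero, Nat.factorial] at this
    norm_num at this
    linarith
  have h4 : (162754 : ℝ) ≤ Real.exp 1 ^ 12 := by
    calc (162754 : ℝ) ≤ 2.7182818283 ^ 12 := by norm_num
      _ ≤ _ := pow_le_pow_left₀ (by norm_num) h1.le 12
  rw [h2]
  calc (361000 : ℝ) ≤ 162754 * (22224 / 10000) := by norm_num
    _ ≤ _ := mul_le_mul h4 h3 (by norm_num) (by positivity)

theorem T1_pow {T : ℝ} (hT : 119 / 100 ≤ T) (hT2 : T ≤ 6 / 5) {σ : ℝ} (hσ : 8 ≤ σ) :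
    (361000 : ℝ) ≤ Real.exp (Real.pi / 2 * (joN (mob (qs σ) / T)).im) := by
  obtain ⟨-, -, h3⟩ := T1_N hT hT2 hσ
  have hpi1 := Real.pi_gt_d4
  refine T1_exp.trans (Real.exp_le_exp.2 ?_)
  nlinarith

theorem tail_Lb {T : ℝ} (hT : 119 / 100 ≤ T) (hT2 : T ≤ 6 / 5) {σ : ℝ} (hσ : 8 ≤ σ) {b : ℝ}
    (hb : |b| ≤ 100) : |Lb b (Zs T σ) - (joN (mob (qs σ) / T)).re / 2| ≤ 1 / 1000 := by
  obtain ⟨hr1, hr2⟩ := T1_range hT hT2 hσ
  have hE := T1_pow hT hT2 hσ
  have hpi := Real.pi_pos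
  have hpi1 := Real.pi_gt_d4
  have hpi2 := Real.pi_lt_d4
  set N := joN (mob (qs σ) / T) with hN
  set ζ : ℂ := -(Real.pi / 2 * N * I) with hζ
  have hζre : ζ.re = Real.pi / 2 * N.im := by
    rw [hζ]
    simp
  have hζim : ζ.im = -(Real.pi / 2 * N.re) := by
    rw [hζ]
    simp
  set w : ℂ := exp ζ with hw
  have hw0 : w ≠ 0 := exp_ne_zero _
  have hwn : ‖w‖ = Real.exp (Real.pi / 2 * N.im) := by rw [hw, norm_exp, hζre]
  have hwinv : exp (Real.pi / 2 * N * I) = w⁻¹ := by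
    rw [hw, ← exp_neg, hζ, neg_neg]
  have hZ : Zs T σ = (w⁻¹ + w) / 2 := by
    show cos (Real.pi / 2 * joN (mob (qs σ) / T)) = _
    rw [← hN, Complex.cos, hwinv, hw, hζ]
    congr 3
    ring
  set u : ℂ := w⁻¹ * w⁻¹ - 2 * b * w⁻¹ with hu
  have hfac : Zs T σ - b = ((1 / 2 : ℝ) : ℂ) * (w * (1 + u)) := by
    rw [hZ, hu]
    push_cast
    field_simp
    ring
  have hwi : ‖w⁻¹‖ ≤ 1 / 361000 := by
    rw [norm_inv, hwn, ← one_div]
    exact one_div_le_one_div_of_le (by norm_num) hE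
  have hu1 : ‖u‖ ≤ 6 / 10000 := by
    rw [hu]
    calc ‖w⁻¹ * w⁻¹ - 2 * b * w⁻¹‖ ≤ ‖w⁻¹ * w⁻¹‖ + ‖2 * b * w⁻¹‖ := norm_sub_le _ _
      _ = ‖w⁻¹‖ * ‖w⁻¹‖ + 2 * |b| * ‖w⁻¹‖ := by
          rw [norm_mul, norm_mul, norm_mul, norm_real, Real.norm_eq_abs]
          norm_num
      _ ≤ 1 / 361000 * (1 / 361000) + 2 * 100 * (1 / 361000) := by
          apply add_le_add
          · exact mul_le_mul hwi hwi (norm_nonneg _) (by norm_num)
          · apply mul_le_mul _ hwi (norm_nonneg _) (by norm_num)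
            linarith
      _ ≤ 6 / 10000 := by norm_num
  have h1u : 1 + u ≠ 0 := by
    intro h0
    have : u = -1 := by linear_combination h0
    rw [this] at hu1
    norm_num at hu1
  have hargu : |arg (1 + u)| ≤ 9 / 10000 := by
    rw [← log_im]
    refine (abs_im_le_norm _).trans ?_
    refine (norm_log_one_add_half_le_self (z := u) (by linarith)).trans ?_
    linarith
  have hargw : arg w = -(Real.pi / 2 * N.re) := by
    rw [← log_im, hw, log_exp, hζim]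
    · rw [hζim]
      nlinarith
    · rw [hζim]
      nlinarith
  have hprod : arg (w * (1 + u)) = arg w + arg (1 + u) := by
    have h3 := abs_le.1 hargu
    apply arg_mul hw0 h1u
    constructor
    · rw [hargw]; nlinarith
    · rw [hargw]; nlinarith
  have harg : arg (Zs T σ - b) = -(Real.pi / 2 * N.re) + arg (1 + u) := by
    rw [hfac, arg_real_mul _ (by norm_num), hprod, hargw]
  unfold Lb
  rw [harg]
  have h4 : -(-(Real.pi / 2 * N.re) + arg (1 + u)) / Real.pi - N.re / 2 =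
      -(arg (1 + u)) / Real.pi := by
    field_simp
    ring
  rw [h4, abs_div, abs_neg, abs_of_pos hpi, div_le_iff₀ hpi]
  nlinarith

theorem tail_far {T : ℝ} (hT : 119 / 100 ≤ T) (hT2 : T ≤ 6 / 5) {σ : ℝ} (hσ : 8 ≤ σ) :
    1 / 3 ≤ Lb (-100000) (Zs T σ) := by
  obtain ⟨hr1, hr2⟩ := T1_range hT hT2 hσ
  have hE := T1_pow hT hT2 hσ
  have hpi := Real.pi_pos
  have hpi1 := Real.pi_gt_d4
  have hpi2 := Real.pi_lt_d4
  have hZre : (Zs T σ).re = Real.cos (Real.pi / 2 * (joN (mob (qs σ) / T)).re) *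
      Real.cosh (Real.pi / 2 * (joN (mob (qs σ) / T)).im) := Zx_re
  have hZim : (Zs T σ).im = -(Real.sin (Real.pi / 2 * (joN (mob (qs σ) / T)).re) *
      Real.sinh (Real.pi / 2 * (joN (mob (qs σ) / T)).im)) := Zx_im
  set n1 := (joN (mob (qs σ) / T)).re
  set n2 := (joN (mob (qs σ) / T)).im
  have hcos : Real.cos (Real.pi / 2 * n1) < 0 := by
    apply Real.cos_neg_of_pi_div_two_lt_of_lt
    · nlinarith
    · nlinarith
  have hre : (Zs T σ).re ≤ 0 := by
    rw [hZre]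
    exact mul_nonpos_of_nonpos_of_nonneg hcos.le (Real.cosh_pos _).le
  have hsin : 98 / 100 ≤ Real.sin (Real.pi / 2 * n1) := by
    have h1 : Real.sin (Real.pi / 2 * n1) = Real.cos (Real.pi / 2 * n1 - Real.pi / 2) := by
      rw [Real.cos_sub_pi_div_two]
    rw [h1]
    refine le_trans ?_ (Real.one_sub_sq_div_two_le_cos)
    have h2 : 0 ≤ Real.pi / 2 * n1 - Real.pi / 2 := by nlinarith
    have h3 : Real.pi / 2 * n1 - Real.pi / 2 ≤ 145 / 1000 := by nlinarith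
    nlinarith
  have hsinh : (180000 : ℝ) ≤ Real.sinh (Real.pi / 2 * n2) := by
    rw [Real.sinh_eq]
    have h1 : Real.exp (-(Real.pi / 2 * n2)) ≤ 1 := by
      rw [Real.exp_neg]
      exact inv_le_one_of_one_le₀ (by linarith)
    linarith
  have him : (Zs T σ).im ≤ -176400 := by
    rw [hZim]
    nlinarith
  set z : ℂ := Zs T σ - ((-100000 : ℝ) : ℂ) with hz
  have hzre : z.re ≤ 100000 := by
    rw [hz, sub_re, ofReal_re]
    linarith
  have hzim : z.im ≤ -176400 := by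
    rw [hz, sub_im, ofReal_im]
    linarith
  have hneg : arg z < 0 := arg_neg_iff.2 (by linarith)
  have hz0 : z ≠ 0 := by
    intro h0
    rw [h0] at hzim
    simp at hzim
    linarith
  have hmain : arg z ≤ -(Real.pi / 3) := by
    by_contra hcon
    push Not at hcon
    have hn : 0 < ‖z‖ := norm_pos_iff.2 hz0
    have hc : Real.cos (Real.pi / 3) < Real.cos (arg z) := by
      rw [← Real.cos_neg (arg z)]
      apply Real.cos_lt_cos_of_nonneg_of_le_pi_div_two <;> linarith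
    have hs : Real.sin (-(Real.pi / 3)) < Real.sin (arg z) := by
      apply Real.sin_lt_sin_of_lt_of_le_pi_div_two <;> linarith
    rw [Real.cos_pi_div_three] at hc
    rw [Real.sin_neg, Real.sin_pi_div_three] at hs
    have e1 : z.re = ‖z‖ * Real.cos (arg z) := (norm_mul_cos_arg z).symm
    have e2 : z.im = ‖z‖ * Real.sin (arg z) := (norm_mul_sin_arg z).symm
    have h3 : Real.sqrt 3 ≤ 17321 / 10000 := by
      rw [Real.sqrt_le_left (by norm_num)]
      norm_num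
    have h4 : ‖z‖ ≤ 200000 := by
      have : ‖z‖ * (1 / 2) ≤ ‖z‖ * Real.cos (arg z) := mul_le_mul_of_nonneg_left hc.le hn.le
      linarith
    have h5 : -(‖z‖ * (Real.sqrt 3 / 2)) ≤ ‖z‖ * Real.sin (arg z) := by
      have := mul_le_mul_of_nonneg_left hs.le hn.le
      linarith
    nlinarith [Real.sqrt_nonneg 3]
  unfold Lb
  rw [le_div_iff₀ hpi]
  linarith

end Pool.Agent.Choc.Nu
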