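import Pool.Agent.Lib.MP_2b3e36_an.Nu.L1
import Pool.Agent.Lib.MP_2b3e36_an.Nu.C0
import Pool.Agent.Lib.MP_2b3e36_an.Nu.T1

/-!
L2. The bounds on the geodesic, the value at `0`, the enclosure of the harmonic measures.
-/

set_option autoImplicit false

open Complex Set

namespace Pool.Agent.Choc.Nu

noncomputable section

def l1 : List (ℝ × ℝ) :=
  [(20336420 / 10000000, -793 / 1000), (-16795829 / 10000000, -963 / 1000),
    (2074304 / 10000000, -1800 / 1000), (2585743 / 10000000, -4200 / 1000),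
    (330469 / 10000000, -11800 / 1000), (107541 / 10000000, -95000 / 1000)]

def l2 : List (ℝ × ℝ) :=
  [(2, 0), (3624363 / 10000000, -793 / 1000), (-8805157 / 10000000, -963 / 1000),
    (1402371 / 10000000, -1800 / 1000), (2048130 / 10000000, -4200 / 1000),
    (262799 / 10000000, -11800 / 1000), (106819 / 10000000, -95000 / 1000)]

def gG : List (ℝ × ℝ) :=
  [(7200 / 10000000, -95000 / 1000), (150000 / 10000000, -5000000 / 1000),
    (900000 / 10000000, -100000000 / 1000)]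

theorem l1_neg : ∀ p ∈ l1, p.2 ≤ 0 := by
  intro p hp
  simp only [l1, List.mem_cons, List.not_mem_nil, or_false] at hp
  rcases hp with rfl | rfl | rfl | rfl | rfl | rfl <;> norm_num

theorem l2_neg : ∀ p ∈ l2, p.2 ≤ 0 := by
  intro p hp
  simp only [l2, List.mem_cons, List.not_mem_nil, or_false] at hp
  rcases hp with rfl | rfl | rfl | rfl | rfl | rfl | rfl <;> norm_num

theorem gG_neg : ∀ p ∈ gG, p.2 ≤ 0 := by
  intro p hp
  simp only [gG, List.mem_cons, List.not_mem_nil, or_false] at hp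
  rcases hp with rfl | rfl | rfl <;> norm_num

theorem real_strip (σ : ℝ) : (σ : ℂ) ∈ strip := by
  simp [strip]

theorem Zs_neg {σ : ℝ} (hσ : 0 < σ) : (Zs TV σ).im < 0 :=
  Zs_im_neg TV_ge (real_strip σ) (by rw [Complex.ofReal_re]; exact hσ)

theorem near {σ : ℝ} (hσ : 0 < σ) (h : Good σ) :
    |Lb 1 (Zs TV σ) + comb l1 (Zs TV σ) - 1| ≤ 6 / 1000000 + comb gG (Zs TV σ) ∧
      |comb l2 (Zs TV σ) - 1| ≤ 6 / 1000000 + comb gG (Zs TV σ) := by
  obtain ⟨⟨h1, h2⟩, h3, h4⟩ := h
  have hpos := (Lb_bd (b := (-100000000 : ℝ) / 1000) (Zs_neg hσ)).1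
  simp only [hol, kA1, kA2, kA3, kA4, bsL, Complex.add_re, Complex.re_ofReal_mul, gf_eq hσ,
    Complex.zero_re] at h1 h2 h3 h4
  push_cast at h1 h2 h3 h4
  norm_num at h1 h2 h3 h4
  simp only [comb, l1, l2, gG, List.map_cons, List.map_nil, List.sum_cons, List.sum_nil]
  norm_num
  norm_num at hpos
  rw [abs_le, abs_le]
  refine ⟨⟨?_, ?_⟩, ?_, ?_⟩ <;> linarith

theorem far {σ : ℝ} (hσ : 8 ≤ σ) :
    |Lb 1 (Zs TV σ) + comb l1 (Zs TV σ) - 1| ≤ 6 / 1000000 + comb gG (Zs TV σ) ∧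
      |comb l2 (Zs TV σ) - 1| ≤ 6 / 1000000 + comb gG (Zs TV σ) := by
  have hσ0 : 0 < σ := by linarith
  have hZ := Zs_neg hσ0
  have f0 := tail_Lb TV_ge TV_le hσ (b := 0) (by norm_num)
  have f1 := tail_Lb TV_ge TV_le hσ (b := 1) (by norm_num)
  have f2 := tail_Lb TV_ge TV_le hσ (b := -793 / 1000) (by norm_num [abs_le])
  have f3 := tail_Lb TV_ge TV_le hσ (b := -963 / 1000) (by norm_num [abs_le])
  have f4 := tail_Lb TV_ge TV_le hσ (b := -1800 / 1000) (by norm_num [abs_le])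
  have f5 := tail_Lb TV_ge TV_le hσ (b := -4200 / 1000) (by norm_num [abs_le])
  have f6 := tail_Lb TV_ge TV_le hσ (b := -11800 / 1000) (by norm_num [abs_le])
  have f7 := tail_Lb TV_ge TV_le hσ (b := -95000 / 1000) (by norm_num [abs_le])
  have g7 := (Lb_bd (b := (-95000 : ℝ) / 1000) hZ).1
  have g8 := (Lb_bd (b := (-5000000 : ℝ) / 1000) hZ).1
  have g9 := tail_far TV_ge TV_le hσ
  have hn := (tail_N TV_ge TV_le hσ).1
  set n := (joN (mob (qs σ) / TV)).re with hndef
  have hp1 := Real.pi_gt_d6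
  have hp2 := Real.pi_lt_d6
  have hTV : TV = 297631 / 250000 := rfl
  have hn' := abs_le.mp hn
  rw [hTV] at hn'
  have hn1 : (10479 : ℝ) / 10000 ≤ n := by
    by_contra hc
    push Not at hc
    have : n * (Real.pi * (297631 / 250000) / 4) < 10479 / 10000 * (3.141593 * (297631 / 250000) / 4) := by
      rcases le_or_gt 0 n with h0 | h0
      · have e1 : n * (Real.pi * (297631 / 250000) / 4) ≤ n * (3.141593 * (297631 / 250000) / 4) :=
          mul_le_mul_of_nonneg_left (by linarith) h0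
        nlinarith
      · have : n * (Real.pi * (297631 / 250000) / 4) < 0 := mul_neg_of_neg_of_pos h0 (by positivity)
        nlinarith
    norm_num at this
    linarith [hn'.1]
  have hn2 : n ≤ 10910 / 10000 := by
    by_contra hc
    push Not at hc
    have h0 : 0 ≤ n := by linarith
    have e1 : n * (3.141592 * (297631 / 250000) / 4) ≤ n * (Real.pi * (297631 / 250000) / 4) :=
      mul_le_mul_of_nonneg_left (by linarith) h0
    have e2 : (10910 : ℝ) / 10000 * (3.141592 * (297631 / 250000) / 4) < n * (3.141592 * (297631 / 250000) / 4) :=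
      mul_lt_mul_of_pos_right hc (by norm_num)
    norm_num at e1 e2
    linarith [hn'.2]
  rw [abs_le] at f0 f1 f2 f3 f4 f5 f6 f7
  simp only [comb, l1, l2, gG, List.map_cons, List.map_nil, List.sum_cons, List.sum_nil]
  norm_num at f0 f1 f2 f3 f4 f5 f6 f7 g7 g8 g9
  norm_num
  rw [abs_le, abs_le]
  refine ⟨⟨?_, ?_⟩, ?_, ?_⟩ <;> linarith [f0.1, f0.2, f1.1, f1.2, f2.1, f2.2, f3.1, f3.2, f4.1, f4.2,
    f5.1, f5.2, f6.1, f6.2, f7.1, f7.2]

end

end Pool.Agent.Choc.Nu
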