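import Pool.Agent.Lib.MP_2b3e36_an.Nu.L2
import Pool.Agent.Lib.MP_2b3e36_an.Nu.Kc1
import Pool.Agent.Lib.MP_2b3e36_an.Nu.Kc2
import Pool.Agent.Lib.MP_2b3e36_an.Nu.Kc3
import Pool.Agent.Lib.MP_2b3e36_an.Nu.Kc4
import Pool.Agent.Lib.MP_2b3e36_an.Nu.Kc5

/-!
L3. The enclosure of the harmonic measures at `yT TV` and of the balanced value.
-/

set_option autoImplicit false

open Complex Set

namespace Pool.Agent.Choc.Nu

noncomputable section

theorem good_all {σ : ℝ} (h0 : 0 < σ) (h8 : σ ≤ 8) : Good σ := by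
  have key : ∀ (st : ℤ) (n : ℕ) (k : ℤ), segC st n k = true → 0 < st → st ≤ 20 → 0 ≤ k → 0 < n →
      (k : ℝ) / 480 ≤ σ → σ ≤ ((k + 3 * n * st : ℤ) : ℝ) / 480 → Good σ :=
    fun st n k h h1 h2 hk hn hx hx' => segC_sound h1 h2 hk h hn hx hx'
  by_cases c1 : σ ≤ 300 / 480
  · exact key 2 50 0 seg_0 (by norm_num) (by norm_num) (by norm_num) (by norm_num)
      (by norm_num; linarith) (by norm_num at c1 ⊢; linarith)
  by_cases c2 : σ ≤ 600 / 480
  · exact key 2 50 300 seg_300 (by norm_num) (by norm_num) (by norm_num) (by norm_num)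
      (by norm_num at c1 ⊢; linarith) (by norm_num at c2 ⊢; linarith)
  by_cases c3 : σ ≤ 924 / 480
  · exact key 3 36 600 seg_600 (by norm_num) (by norm_num) (by norm_num) (by norm_num)
      (by norm_num at c2 ⊢; linarith) (by norm_num at c3 ⊢; linarith)
  by_cases c4 : σ ≤ 1332 / 480
  · exact key 4 34 924 seg_924 (by norm_num) (by norm_num) (by norm_num) (by norm_num)
      (by norm_num at c3 ⊢; linarith) (by norm_num at c4 ⊢; linarith)
  by_cases c5 : σ ≤ 1422 / 480
  · exact key 5 6 1332 seg_1332 (by norm_num) (by norm_num) (by norm_num) (by norm_num)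
      (by norm_num at c4 ⊢; linarith) (by norm_num at c5 ⊢; linarith)
  by_cases c6 : σ ≤ 1818 / 480
  · exact key 6 22 1422 seg_1422 (by norm_num) (by norm_num) (by norm_num) (by norm_num)
      (by norm_num at c5 ⊢; linarith) (by norm_num at c6 ⊢; linarith)
  by_cases c7 : σ ≤ 1944 / 480
  · exact key 7 6 1818 seg_1818 (by norm_num) (by norm_num) (by norm_num) (by norm_num)
      (by norm_num at c6 ⊢; linarith) (by norm_num at c7 ⊢; linarith)
  by_cases c8 : σ ≤ 2208 / 480
  · exact key 8 11 1944 seg_1944 (by norm_num) (by norm_num) (by norm_num) (by norm_num)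
      (by norm_num at c7 ⊢; linarith) (by norm_num at c8 ⊢; linarith)
  by_cases c9 : σ ≤ 2397 / 480
  · exact key 9 7 2208 seg_2208 (by norm_num) (by norm_num) (by norm_num) (by norm_num)
      (by norm_num at c8 ⊢; linarith) (by norm_num at c9 ⊢; linarith)
  by_cases c10 : σ ≤ 2547 / 480
  · exact key 10 5 2397 seg_2397 (by norm_num) (by norm_num) (by norm_num) (by norm_num)
      (by norm_num at c9 ⊢; linarith) (by norm_num at c10 ⊢; linarith)
  by_cases c11 : σ ≤ 2679 / 480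
  · exact key 11 4 2547 seg_2547 (by norm_num) (by norm_num) (by norm_num) (by norm_num)
      (by norm_num at c10 ⊢; linarith) (by norm_num at c11 ⊢; linarith)
  by_cases c12 : σ ≤ 2823 / 480
  · exact key 12 4 2679 seg_2679 (by norm_num) (by norm_num) (by norm_num) (by norm_num)
      (by norm_num at c11 ⊢; linarith) (by norm_num at c12 ⊢; linarith)
  by_cases c13 : σ ≤ 3330 / 480
  · exact key 13 13 2823 seg_2823 (by norm_num) (by norm_num) (by norm_num) (by norm_num)
      (by norm_num at c12 ⊢; linarith) (by norm_num at c13 ⊢; linarith)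
  · exact key 14 13 3330 seg_3330 (by norm_num) (by norm_num) (by norm_num) (by norm_num)
      (by norm_num at c13 ⊢; linarith) (by norm_num; linarith)

theorem gamma_bd {σ : ℝ} (hσ : 0 < σ) :
    |Lb 1 (Zs TV σ) + comb l1 (Zs TV σ) - 1| ≤ 6 / 1000000 + comb gG (Zs TV σ) ∧
      |comb l2 (Zs TV σ) - 1| ≤ 6 / 1000000 + comb gG (Zs TV σ) := by
  rcases le_or_gt σ 8 with h | h
  · exact near hσ (good_all hσ h)
  · exact far h.le

/-! The value at `0`. -/

def bs0 : List ℤ := [0, 1000, -793, -963, -1800, -4200, -11800, -95000, -5000000, -100000000]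

def kB1 : List ℤ :=
  [0, 10000000, 20336420, -16795829, 2074304, 2585743, 330469, 114741, 150000, 900000]

def kB2 : List ℤ :=
  [0, 10000000, 20336420, -16795829, 2074304, 2585743, 330469, 100341, -150000, -900000]

def kB3 : List ℤ :=
  [20000000, 0, 3624363, -8805157, 1402371, 2048130, 262799, 114019, 150000, 900000]

def kB4 : List ℤ :=
  [20000000, 0, 3624363, -8805157, 1402371, 2048130, 262799, 99619, -150000, -900000]

def chk0 : Bool :=
  match (CB.mk 0 (SC * 250000 / 297631) 2).z2 with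
  | none => false
  | some z => match z.lbs bs0 with
    | none => false
    | some v => decide ((dotI kB1 v).2 ≤ 5509144 * SC) && decide (5509048 * SC ≤ (dotI kB2 v).1) &&
        decide ((dotI kB3 v).2 ≤ 4490952 * SC) && decide (4490856 * SC ≤ (dotI kB4 v).1)

theorem chk0_true : chk0 = true := by decide +kernel

/-- weighted sums of `Lb` -/
def wsum (Z : ℂ) : List ℤ → List ℤ → ℝ
  | k :: ks, b :: bs => (k : ℝ) / 10000000 * Lb ((b : ℝ) / 1000) Z + wsum Z ks bs
  | _, _ => 0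

theorem wsum_sound {Z : ℂ} {bs : List ℤ} {ps : List (ℤ × ℤ)}
    (h : List.Forall₂ (fun (b : ℤ) (p : ℤ × ℤ) => |(SC : ℝ) * Lb ((b : ℝ) / 1000) Z - p.1| ≤ p.2) bs ps)
    (ks : List ℤ) :
    |(SC : ℝ) * 10000000 * wsum Z ks bs - (dot ks ps).1| ≤ (dot ks ps).2 := by
  induction h generalizing ks with
  | nil =>
    cases ks <;> simp [wsum, dot]
  | @cons b p bs ps h1 h2 ih =>
    cases ks with
    | nil => simp [wsum, dot]
    | cons k ks =>
      have h3 := ih ks
      simp only [dot, ab_eq, wsum]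
      push_cast
      have e2 : (SC : ℝ) * 10000000 * ((k : ℝ) / 10000000 * Lb ((b : ℝ) / 1000) Z + wsum Z ks bs) -
          ((k : ℝ) * (p.1 : ℝ) + ((dot ks ps).1 : ℝ)) =
          (k : ℝ) * ((SC : ℝ) * Lb ((b : ℝ) / 1000) Z - p.1) +
          ((SC : ℝ) * 10000000 * wsum Z ks bs - ((dot ks ps).1 : ℝ)) := by ring
      rw [e2]
      refine (abs_add_le _ _).trans ?_
      rw [abs_mul]
      have h4 : |(k : ℝ)| * |(SC : ℝ) * Lb ((b : ℝ) / 1000) Z - p.1| ≤ |(k : ℝ)| * p.2 :=
        mul_le_mul_of_nonneg_left h1 (abs_nonneg _)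
      linarith

theorem mob_zero : mob 0 = I := by
  unfold mob
  simp

theorem x0_mem : (CB.mk 0 (SC * 250000 / 297631) 2).Mem (mob 0 / TV) := by
  rw [mob_zero]
  unfold CB.Mem
  have e : (SC : ℂ) * (I / (TV : ℂ)) - (((0 : ℤ) : ℂ) + ((SC * 250000 / 297631 : ℤ) : ℂ) * I) =
      ((((SC : ℝ) / TV - ((SC * 250000 / 297631 : ℤ) : ℝ)) : ℝ) : ℂ) * I := by
    push_cast
    ring
  simp only
  rw [e, norm_mul, Complex.norm_I, mul_one, Complex.norm_real, Real.norm_eq_abs]
  have e2 : (SC * 250000 / 297631 : ℤ) = 968415172316431231 := by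
    unfold SC
    norm_num
  rw [e2]
  unfold TV SC
  norm_num [abs_le]

theorem x0_Gx : mob 0 / (TV : ℂ) ∈ Gx := by
  rw [mob_zero]
  right
  have e : (I / (TV : ℂ)).im = 1 / TV := by
    rw [Complex.div_ofReal_im, Complex.I_im]
  rw [e]
  unfold TV
  norm_num [abs_lt]

theorem at_zero : wsum (Zm TV 0) kB1 bs0 ≤ 5509144 / 10000000 ∧
    5509048 / 10000000 ≤ wsum (Zm TV 0) kB2 bs0 ∧ wsum (Zm TV 0) kB3 bs0 ≤ 4490952 / 10000000 ∧
    4490856 / 10000000 ≤ wsum (Zm TV 0) kB4 bs0 := by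
  have hS := SC_pos
  have h := chk0_true
  unfold chk0 at h
  split at h
  · exact absurd h (by simp)
  · rename_i z hz
    split at h
    · exact absurd h (by simp)
    · rename_i v hv
      simp only [Bool.and_eq_true, decide_eq_true_eq] at h
      obtain ⟨⟨⟨h1, h2⟩, h3⟩, h4⟩ := h
      have m1 := z2_sound x0_mem x0_Gx hz
      have him : (Zx (mob 0 / (TV : ℂ))).im < 0 := Zm_im TV_ge (zero_mem_V (yT TV))
      have m2 := lbs_sound m1 him hv
      have w1 := abs_le.mp (wsum_sound m2 kB1)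
      have w2 := abs_le.mp (wsum_sound m2 kB2)
      have w3 := abs_le.mp (wsum_sound m2 kB3)
      have w4 := abs_le.mp (wsum_sound m2 kB4)
      simp only [dotI] at h1 h2 h3 h4
      have h1' : ((dot kB1 v).1 : ℝ) + ((dot kB1 v).2 : ℝ) ≤ 5509144 * (SC : ℝ) := by exact_mod_cast h1
      have h2' : 5509048 * (SC : ℝ) ≤ ((dot kB2 v).1 : ℝ) - ((dot kB2 v).2 : ℝ) := by exact_mod_cast h2
      have h3' : ((dot kB3 v).1 : ℝ) + ((dot kB3 v).2 : ℝ) ≤ 4490952 * (SC : ℝ) := by exact_mod_cast h3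
      have h4' : 4490856 * (SC : ℝ) ≤ ((dot kB4 v).1 : ℝ) - ((dot kB4 v).2 : ℝ) := by exact_mod_cast h4
      have up : ∀ X c : ℝ, (SC : ℝ) * 10000000 * X ≤ c * (SC : ℝ) → X ≤ c / 10000000 := by
        intro X c hX
        rw [le_div_iff₀ (by norm_num)]
        nlinarith
      have dn : ∀ X c : ℝ, c * (SC : ℝ) ≤ (SC : ℝ) * 10000000 * X → c / 10000000 ≤ X := by
        intro X c hX
        rw [div_le_iff₀ (by norm_num)]
        nlinarith
      exact ⟨up _ _ (by unfold Zm; linarith [w1.2]), dn _ _ (by unfold Zm; linarith [w2.1]),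
        up _ _ (by unfold Zm; linarith [w3.2]), dn _ _ (by unfold Zm; linarith [w4.1])⟩

theorem omega_num {a c : ℝ} (h : IsOmega (yT TV) a c) :
    (449082 / 1000000 < a ∧ a < 449098 / 1000000) ∧ (449082 / 1000000 < c ∧ c < 449098 / 1000000) := by
  have h2 := cmp2 TV_ge h l2_neg gG_neg (ε := 6 / 1000000) fun σ hσ => (gamma_bd hσ).2
  have h1 := cmp1 TV_ge h l1_neg gG_neg (ε := 6 / 1000000) fun σ hσ => (gamma_bd hσ).1
  obtain ⟨z1, z2, z3, z4⟩ := at_zero
  simp only [wsum, kB1, kB2, kB3, kB4, bs0] at z1 z2 z3 z4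
  push_cast at z1 z2 z3 z4
  simp only [comb, l1, l2, gG, List.map_cons, List.map_nil, List.sum_cons, List.sum_nil] at h1 h2
  norm_num at h1 h2 z1 z2 z3 z4
  rw [abs_le] at h1 h2
  obtain ⟨a1, a2⟩ := h1
  obtain ⟨b1, b2⟩ := h2
  refine ⟨⟨?_, ?_⟩, ?_, ?_⟩ <;> linarith

/-- The balanced value. -/
theorem omega_balanced_num {y ω : ℝ} (hy : 0 < y) (h : IsOmega y ω ω)
    (he : ∃ a c : ℝ, IsOmega (yT TV) a c) : 449082 / 1000000 < ω ∧ ω < 449098 / 1000000 := by
  obtain ⟨a, c, hac⟩ := he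
  have hn := omega_num hac
  have hT := yT_pos TV_ge
  rcases lt_trichotomy y (yT TV) with h1 | h1 | h1
  · have := omega_mono hy h1 h hac
    constructor <;> linarith [this.1, this.2, hn.1.1, hn.1.2, hn.2.1, hn.2.2]
  · rw [h1] at h
    have := omega_unique hT h hac
    constructor <;> linarith [this.1, this.2, hn.1.1, hn.1.2, hn.2.1, hn.2.2]
  · have := omega_mono hT h1 hac h
    constructor <;> linarith [this.1, this.2, hn.1.1, hn.1.2, hn.2.1, hn.2.2]

end

end Pool.Agent.Choc.Nu
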