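import Pool.Agent.Lib.MP_2b3e36_an.Nu.E2

/-!
L4. The constant.
-/

set_option autoImplicit false

namespace Pool.Agent.Choc.Nu

theorem arctan_lo : Real.arctan (80125 / 1000000) ≤ 7995435 / 100000000 := by
  have h := abs_le.mp (e2_series 2 (80125 / 1000000))
  simp only [e2_P] at h
  norm_num [abs_of_pos] at h
  linarith [h.2]

theorem arctan_hi : 799836 / 10000000 ≤ Real.arctan (80156 / 1000000) := by
  have h := abs_le.mp (e2_series 2 (80156 / 1000000))
  simp only [e2_P] at h
  norm_num [abs_of_pos] at h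
  linarith [h.1]

theorem beta_num {ω : ℝ} (h1 : 449082 / 1000000 < ω) (h2 : ω < 449098 / 1000000) :
    642 / 100000 < Real.tan (Real.pi * (1 - 2 * ω) / 4) ^ 2 ∧
      Real.tan (Real.pi * (1 - 2 * ω) / 4) ^ 2 < 6425 / 1000000 := by
  have hp1 := Real.pi_gt_d6
  have hp2 := Real.pi_lt_d6
  have a1 := arctan_lo
  have a2 := arctan_hi
  have hx1 : Real.arctan (80125 / 1000000) < Real.pi * (1 - 2 * ω) / 4 := by
    have : (3.141592 : ℝ) * (1 - 2 * (449098 / 1000000)) / 4 < Real.pi * (1 - 2 * ω) / 4 := by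
      have e1 : (3.141592 : ℝ) * (1 - 2 * (449098 / 1000000)) ≤ Real.pi * (1 - 2 * (449098 / 1000000)) :=
        mul_le_mul_of_nonneg_right hp1.le (by norm_num)
      have e2 : Real.pi * (1 - 2 * (449098 / 1000000)) < Real.pi * (1 - 2 * ω) :=
        mul_lt_mul_of_pos_left (by linarith) Real.pi_pos
      linarith
    norm_num at this ⊢
    linarith
  have hx2 : Real.pi * (1 - 2 * ω) / 4 < Real.arctan (80156 / 1000000) := by
    have : Real.pi * (1 - 2 * ω) / 4 < (3.141593 : ℝ) * (1 - 2 * (449082 / 1000000)) / 4 := by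
      have e1 : Real.pi * (1 - 2 * (449082 / 1000000)) ≤ (3.141593 : ℝ) * (1 - 2 * (449082 / 1000000)) :=
        mul_le_mul_of_nonneg_right hp2.le (by norm_num)
      have e2 : Real.pi * (1 - 2 * ω) < Real.pi * (1 - 2 * (449082 / 1000000)) :=
        mul_lt_mul_of_pos_left (by linarith) Real.pi_pos
      linarith
    norm_num at this ⊢
    linarith
  have hr1 : -(Real.pi / 2) < Real.pi * (1 - 2 * ω) / 4 := by nlinarith
  have hr2 : Real.pi * (1 - 2 * ω) / 4 < Real.pi / 2 := by nlinarith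
  have t1 : 80125 / 1000000 < Real.tan (Real.pi * (1 - 2 * ω) / 4) := by
    have := Real.tan_lt_tan_of_lt_of_lt_pi_div_two (Real.neg_pi_div_two_lt_arctan _) hr2 hx1
    rwa [Real.tan_arctan] at this
  have t2 : Real.tan (Real.pi * (1 - 2 * ω) / 4) < 80156 / 1000000 := by
    have := Real.tan_lt_tan_of_lt_of_lt_pi_div_two hr1 (Real.arctan_lt_pi_div_two _) hx2
    rwa [Real.tan_arctan] at this
  constructor <;> nlinarith

end Pool.Agent.Choc.Nu
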