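import Pool.Agent.Lib.MP_2b3e36_an.Nu.S1

/-!
S2. The function `Zs T` on the imaginary segment and at `0`.

`σ = i η`, `|η| < 3/8`: `s = 1 - η` real in `(5/8, 11/8)`, `τ = -1/s`, `Im τ = 0`, `a = π/s`,
`mob (qs σ) = sin a/(1 - cos a) = cot (a/2) = cot (π/(2s)) = tan (π/2 - π/(2s)) = tan (- π η/(2 (1 - η)))` real.
`N = joN x` real positive, `N - 1/N = 2x`, `Z = cos (π N/2)`, `0 < N < 2`. `η > 0`: `x < 0`, `N < 1`, `Z > 0`
(and `Z < 1`). `η < 0`: `x > 0`, `N > 1`, `Z < 0`. `Z > -7/10`: for `η > -3/8` the argument of `tan` is less than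
`π · (3/8)/(11/4) = 3π/22 ≤ 0.4285`, `tan ≤ 0.4718`, so `x ≤ 0.3965`; `N ≤ 1.473`.
`Z = cos (π N/2) = - sin (π (N-1)/2) ≥ - sin (0.743) ≥ -0.7`.
`Zs T 0 = 0`: `x = 0`, `N = 1`. Derivative at `0`: chain rule.
-/

set_option autoImplicit false

open Complex Set Filter Topology Metric

namespace Pool.Agent.Choc.Nu

theorem S2_qs (η : ℝ) : qs (I * η) = nome ((-1 / (1 - η) : ℝ) : ℂ) := by
  have h : (1 : ℂ) + I * (I * (η : ℂ)) = 1 - η := by
    rw [← mul_assoc, I_mul_I]; ring
  rw [qs, h]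
  congr 1
  push_cast
  ring

/-- the value of `mob (qs σ)` on the imaginary segment -/
theorem S2_mob {η : ℝ} (hη : |η| < 3 / 8) :
    ∃ X : ℝ, mob (qs (I * η)) = X ∧
      X = Real.tan (Real.pi / 2 * (-η / (1 - η))) := by
  obtain ⟨h1, h2⟩ := abs_lt.mp hη
  have hs : 0 < 1 - η := by linarith
  set t : ℝ := -1 / (1 - η) with ht
  have htlt : t < 0 := by rw [ht]; exact div_neg_of_neg_of_pos (by norm_num) hs
  have htgt : -2 < t := by
    rw [ht, lt_div_iff₀ hs]; linarith
  have hcond : ((t : ℂ)).im ≠ 0 ∨ (-2 < ((t : ℂ)).re ∧ ((t : ℂ)).re < 0) := by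
    right; simp only [ofReal_re]; exact ⟨htgt, htlt⟩
  have hre := mob_nome_re hcond
  have him := mob_nome_im hcond
  simp only [ofReal_re, ofReal_im, mul_zero, Real.cosh_zero, Real.sinh_zero, zero_div] at hre him
  refine ⟨-Real.sin (Real.pi * t) / (1 - Real.cos (Real.pi * t)), ?_, ?_⟩
  · rw [S2_qs]
    apply Complex.ext
    · rw [hre, ofReal_re]
    · rw [him, ofReal_im]
  · set u : ℝ := Real.pi / 2 * (-η / (1 - η)) with hu
    have htu : Real.pi * t = -(Real.pi - 2 * u) := by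
      rw [ht, hu]; field_simp; ring
    have huabs : |u| < Real.pi / 2 := by
      rw [hu, abs_mul, abs_of_pos (by positivity : 0 < Real.pi / 2)]
      have : |-η / (1 - η)| < 1 := by
        rw [abs_div, abs_neg, abs_of_pos hs, div_lt_one hs]; linarith
      nlinarith [Real.pi_pos]
    obtain ⟨hu1, hu2⟩ := abs_lt.mp huabs
    have hc : 0 < Real.cos u := Real.cos_pos_of_mem_Ioo ⟨by linarith, hu2⟩
    rw [htu, Real.sin_neg, Real.cos_neg, Real.sin_pi_sub, Real.cos_pi_sub, Real.tan_eq_sin_div_cos,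
      Real.sin_two_mul, Real.cos_two_mul]
    have hne : (1 - -(2 * Real.cos u ^ 2 - 1)) = 2 * Real.cos u ^ 2 := by ring
    rw [hne, neg_neg]
    field_simp

theorem Zs_axis {T : ℝ} (hT : 119 / 100 ≤ T) {η : ℝ} (hη : |η| < 3 / 8) :
    ∃ r : ℝ, Zs T (I * η) = r ∧ -(7 / 10) < r ∧ r < 1 ∧ (0 < η → 0 < r) ∧ (η < 0 → r < 0) := by
  obtain ⟨h1, h2⟩ := abs_lt.mp hη
  have hs : 0 < 1 - η := by linarith
  have hTpos : 0 < T := by linarith
  have hστ : (I * (η : ℂ)) ∈ strip := by
    change |(I * (η : ℂ)).im| < 3 / 8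
    simpa using hη
  obtain ⟨hG, hN2, -, -, -⟩ := strip_good hT hστ
  obtain ⟨X, hX, hXt⟩ := S2_mob hη
  set u : ℝ := Real.pi / 2 * (-η / (1 - η)) with hu
  have hxT : mob (qs (I * η)) / T = ((X / T : ℝ) : ℂ) := by
    rw [hX]; push_cast; ring
  rw [hxT] at hG hN2
  set x : ℝ := X / T with hx
  obtain ⟨hjim, hZ⟩ := Zx_real hG (ofReal_im x)
  have hNpos := joN_re hG
  have hNeq := joN_eq hG
  set N : ℝ := (joN (x : ℂ)).re with hN
  have hjN : joN (x : ℂ) = (N : ℂ) := by
    apply Complex.ext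
    · rw [ofReal_re]
    · rw [hjim, ofReal_im]
  have hNx : N - N⁻¹ = 2 * x := by
    rw [hjN] at hNeq
    exact_mod_cast hNeq
  have hpi := Real.pi_pos
  refine ⟨Real.cos (Real.pi / 2 * N), ?_, ?_, ?_, ?_, ?_⟩
  · rw [Zs, Zm, hxT, hZ]
  · -- -7/10 < cos
    by_contra hcon
    push Not at hcon
    -- N ≥ 1473/1000
    have hNbig : 1473 / 1000 < N := by
      by_contra hle
      push Not at hle
      have hcos : Real.cos (Real.pi / 2 * N) = -Real.sin (Real.pi / 2 * (N - 1)) := by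
        have : Real.pi / 2 * N = Real.pi / 2 * (N - 1) + Real.pi / 2 := by ring
        rw [this, Real.cos_add_pi_div_two]
      have hle2 : Real.pi / 2 * (N - 1) ≤ 743 / 1000 := by
        have hp := Real.pi_lt_d4
        nlinarith
      have hge : -(Real.pi / 2) ≤ Real.pi / 2 * (N - 1) := by nlinarith
      have hsin : Real.sin (Real.pi / 2 * (N - 1)) ≤ Real.sin (743 / 1000) := by
        apply Real.sin_le_sin_of_le_of_le_pi_div_two hge _ hle2
        have hp := Real.pi_gt_three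
        linarith
      have hb := Real.sin_bound (x := 743 / 1000) (by rw [abs_of_pos (by norm_num)]; norm_num)
      rw [abs_of_pos (show (0 : ℝ) < 743 / 1000 by norm_num)] at hb
      have hb2 := (abs_le.mp hb).2
      rw [hcos] at hcon
      norm_num at hb2
      linarith
    -- x is large
    have hxbig : 794 / 1000 < 2 * x := by
      rw [← hNx]
      have hinv : N⁻¹ < 679 / 1000 := by
        rw [inv_lt_comm₀ hNpos (by norm_num)]
        norm_num
        linarith
      linarith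
    have hXbig : X = x * T := by rw [hx]; field_simp
    have hX1 : 472 / 1000 < X := by
      rw [hXbig]; nlinarith
    -- but tan u is small
    have hu0 : 0 < u := by
      by_contra hneg
      push Not at hneg
      have hη0 : 0 ≤ η := by
        by_contra h
        push Not at h
        have : 0 < u := by
          rw [hu]
          apply mul_pos (by positivity)
          exact div_pos (by linarith) hs
        linarith
      have hulow : -(Real.pi / 2) < u := by
        rw [hu]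
        have : -1 < -η / (1 - η) := by
          rw [lt_div_iff₀ hs]; linarith
        nlinarith
      have : Real.tan u ≤ 0 := Real.tan_nonpos_of_nonpos_of_neg_pi_div_two_le hneg hulow.le
      linarith
    have hη0 : η < 0 := by
      by_contra h
      push Not at h
      have : u ≤ 0 := by
        rw [hu]
        apply mul_nonpos_of_nonneg_of_nonpos (by positivity)
        exact div_nonpos_of_nonpos_of_nonneg (by linarith) hs.le
      linarith
    have hfrac : -η / (1 - η) < 3 / 11 := by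
      rw [div_lt_iff₀ hs]; linarith
    have hub : u ≤ 4284 / 10000 := by
      rw [hu]
      have hp := Real.pi_lt_d4
      have : 0 ≤ -η / (1 - η) := div_nonneg (by linarith) hs.le
      nlinarith
    have hcos : 1 - u ^ 2 / 2 ≤ Real.cos u := Real.one_sub_sq_div_two_le_cos
    have hsin : Real.sin u ≤ u := (Real.sin_lt hu0).le
    have hcos2 : 908 / 1000 ≤ Real.cos u := by nlinarith
    have htan : Real.tan u ≤ 472 / 1000 := by
      rw [Real.tan_eq_sin_div_cos, div_le_iff₀ (by linarith)]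
      nlinarith
    linarith
  · -- < 1
    have hlt : Real.pi / 2 * N < Real.pi := by nlinarith
    have h0 : 0 < Real.pi / 2 * N := by positivity
    have := Real.cos_lt_cos_of_nonneg_of_le_pi (le_refl 0) hlt.le h0
    rwa [Real.cos_zero] at this
  · intro hη0
    have hulow : -(Real.pi / 2) < u := by
      rw [hu]
      have : -1 < -η / (1 - η) := by
        rw [lt_div_iff₀ hs]; linarith
      nlinarith
    have huneg : u < 0 := by
      rw [hu]
      apply mul_neg_of_pos_of_neg (by positivity)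
      exact div_neg_of_neg_of_pos (by linarith) hs
    have hXneg : X < 0 := by
      rw [hXt]
      exact Real.tan_neg_of_neg_of_pi_div_two_lt huneg hulow
    have hxneg : x < 0 := by rw [hx]; exact div_neg_of_neg_of_pos hXneg hTpos
    have hN1 : N < 1 := by
      by_contra h
      push Not at h
      have : N⁻¹ ≤ 1 := inv_le_one_of_one_le₀ h
      linarith
    apply Real.cos_pos_of_mem_Ioo
    constructor <;> nlinarith
  · intro hη0
    have hufrac : -η / (1 - η) < 1 := by
      rw [div_lt_one hs]; linarith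
    have hupos : 0 < u := by
      rw [hu]
      apply mul_pos (by positivity)
      exact div_pos (by linarith) hs
    have huhi : u < Real.pi / 2 := by
      rw [hu]; nlinarith
    have hXpos : 0 < X := by
      rw [hXt]
      exact Real.tan_pos_of_pos_of_lt_pi_div_two hupos huhi
    have hxpos : 0 < x := by rw [hx]; positivity
    have hN1 : 1 < N := by
      by_contra h
      push Not at h
      have : 1 ≤ N⁻¹ := (one_le_inv₀ hNpos).mpr h
      linarith
    apply Real.cos_neg_of_pi_div_two_lt_of_lt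
    · nlinarith
    · nlinarith

theorem S2_qs0 : qs 0 = -1 := by
  have h : qs 0 = exp (Real.pi * I * (-1)) := by
    rw [qs, nome]; norm_num
  rw [h, mul_neg_one, Complex.exp_neg, exp_pi_mul_I]
  norm_num

theorem S2_mob0 : mob (-1) = 0 := by
  rw [mob]; norm_num

theorem Zs_zero (T : ℝ) : Zs T 0 = 0 := by
  rw [Zs, Zm, S2_qs0, S2_mob0, zero_div, Zx, joN_zero, mul_one]
  rw [show ((Real.pi : ℂ) / 2) = ((Real.pi / 2 : ℝ) : ℂ) by push_cast; rfl, ← ofReal_cos,
    Real.cos_pi_div_two, ofReal_zero]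

theorem S2_joN_deriv : HasDerivAt joN 1 0 := by
  have h1 : HasDerivAt (fun x : ℂ => 1 + x ^ 2) (2 * (0 : ℂ) ^ 1) 0 := by
    have := (hasDerivAt_pow 2 (0 : ℂ)).const_add 1
    simpa using this
  have h2 : HasDerivAt (fun x : ℂ => log (1 + x ^ 2)) ((2 * (0 : ℂ) ^ 1) / (1 + (0 : ℂ) ^ 2)) 0 := by
    apply h1.clog
    norm_num [slitPlane]
  have h3 : HasDerivAt (fun x : ℂ => exp (log (1 + x ^ 2) / 2))
      (exp (log (1 + (0 : ℂ) ^ 2) / 2) * ((2 * (0 : ℂ) ^ 1) / (1 + (0 : ℂ) ^ 2) / 2)) 0 :=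
    (h2.div_const 2).cexp
  have h4 : HasDerivAt joN
      (1 + exp (log (1 + (0 : ℂ) ^ 2) / 2) * ((2 * (0 : ℂ) ^ 1) / (1 + (0 : ℂ) ^ 2) / 2)) 0 :=
    (hasDerivAt_id (0 : ℂ)).add h3
  have h5 : (1 + exp (log (1 + (0 : ℂ) ^ 2) / 2) * ((2 * (0 : ℂ) ^ 1) / (1 + (0 : ℂ) ^ 2) / 2)) = 1 := by
    norm_num
  rw [h5] at h4
  exact h4

theorem Zs_deriv {T : ℝ} (hT : 119 / 100 ≤ T) : ∃ r : ℝ, 0 < r ∧ HasDerivAt (Zs T) (-I * r) 0 := by
  have hTpos : 0 < T := by linarith
  have hTne : (T : ℂ) ≠ 0 := by exact_mod_cast hTpos.ne'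
  refine ⟨Real.pi ^ 2 / (4 * T), by positivity, ?_⟩
  -- the inner functions
  have a1 : HasDerivAt (fun σ : ℂ => 1 + I * σ) I 0 := by
    have := ((hasDerivAt_id (0 : ℂ)).const_mul I).const_add 1
    simpa using this
  have a2 : HasDerivAt (fun σ : ℂ => -1 / (1 + I * σ)) I 0 := by
    have hne : (1 : ℂ) + I * 0 ≠ 0 := by norm_num
    have h9 : HasDerivAt (fun σ : ℂ => -1 / (1 + I * σ))
        ((0 * (1 + I * 0) - -1 * I) / (1 + I * 0) ^ 2) 0 :=
      (hasDerivAt_const (0 : ℂ) (-1 : ℂ)).div a1 hne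
    have h10 : ((0 * (1 + I * 0) - -1 * I) / (1 + I * 0) ^ 2 : ℂ) = I := by norm_num
    rw [h10] at h9
    exact h9
  have a3 : HasDerivAt qs (Real.pi : ℂ) 0 := by
    have h5 : HasDerivAt (fun σ : ℂ => (Real.pi : ℂ) * I * (-1 / (1 + I * σ)))
        ((Real.pi : ℂ) * I * I) 0 := a2.const_mul _
    have h6 := h5.cexp
    have h7 : HasDerivAt qs (exp ((Real.pi : ℂ) * I * (-1 / (1 + I * 0))) *
        ((Real.pi : ℂ) * I * I)) 0 := h6
    have h8 : exp ((Real.pi : ℂ) * I * (-1 / (1 + I * 0))) = -1 := by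
      have := S2_qs0
      rw [qs, nome] at this
      exact this
    rw [h8] at h7
    convert h7 using 1
    rw [mul_assoc, I_mul_I]; ring
  have a4 : HasDerivAt mob (I / 2) (qs 0) := by
    rw [S2_qs0]
    have n1 : HasDerivAt (fun q : ℂ => I * (1 + q)) I (-1) := by
      have := ((hasDerivAt_id (-1 : ℂ)).const_add 1).const_mul I
      simpa using this
    have n2 : HasDerivAt (fun q : ℂ => 1 - q) (-1) (-1 : ℂ) := by
      have := (hasDerivAt_id (-1 : ℂ)).const_sub 1
      simpa using this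
    have h9 : HasDerivAt mob ((I * (1 - -1) - I * (1 + -1) * -1) / (1 - -1) ^ 2) (-1) :=
      n1.div n2 (by norm_num)
    have h10 : ((I * (1 - -1) - I * (1 + -1) * -1) / (1 - -1) ^ 2 : ℂ) = I / 2 := by
      norm_num
      ring
    rw [h10] at h9
    exact h9
  have a5 : HasDerivAt (fun σ => mob (qs σ) / (T : ℂ)) (I / 2 * Real.pi / T) 0 :=
    (a4.comp 0 a3).div_const _
  have a6 : HasDerivAt Zx (-((Real.pi : ℂ) / 2)) 0 := by
    have m1 : HasDerivAt (fun x : ℂ => (Real.pi : ℂ) / 2 * joN x) ((Real.pi : ℂ) / 2 * 1) 0 :=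
      S2_joN_deriv.const_mul _
    have m2 := m1.ccos
    have m3 : HasDerivAt Zx (-sin ((Real.pi : ℂ) / 2 * joN 0) * ((Real.pi : ℂ) / 2 * 1)) 0 := m2
    convert m3 using 1
    rw [joN_zero, mul_one, show ((Real.pi : ℂ) / 2) = ((Real.pi / 2 : ℝ) : ℂ) by push_cast; rfl,
      ← ofReal_sin, Real.sin_pi_div_two]
    push_cast
    ring
  have hz : mob (qs 0) / (T : ℂ) = 0 := by rw [S2_qs0, S2_mob0, zero_div]
  have a7 : HasDerivAt (fun σ => Zx (mob (qs σ) / (T : ℂ)))
      (-((Real.pi : ℂ) / 2) * (I / 2 * Real.pi / T)) 0 := by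
    have a6' : HasDerivAt Zx (-((Real.pi : ℂ) / 2)) (mob (qs 0) / (T : ℂ)) := by
      rw [hz]; exact a6
    exact HasDerivAt.comp (h₂ := Zx) (h := fun σ => mob (qs σ) / (T : ℂ)) 0 a6' a5
  have a8 : HasDerivAt (Zs T) (-((Real.pi : ℂ) / 2) * (I / 2 * Real.pi / T)) 0 := a7
  have h11 : (-((Real.pi : ℂ) / 2) * (I / 2 * Real.pi / T)) = -I * ((Real.pi ^ 2 / (4 * T) : ℝ) : ℂ) := by
    push_cast
    field_simp
    norm_num
  rw [h11] at a8
  exact a8

end Pool.Agent.Choc.Nu
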